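import Mathlib

/-!
The Taylor series of a holomorphic germ as a formal power series.
-/

open scoped PowerSeries
open Filter Topology

namespace Pool.Agent.Lib.MP_1e09a3_nt

/-- Taylor series at `a` -/
noncomputable def taylor (a : ℂ) (g : ℂ → ℂ) : ℂ⟦X⟧ :=
  PowerSeries.mk fun n => iteratedDeriv n g a / n.factorial

variable {a : ℂ}

theorem taylor_congr {f g : ℂ → ℂ} (h : f =ᶠ[𝓝 a] g) : taylor a f = taylor a g := by
  ext n
  simp only [taylor, PowerSeries.coeff_mk]
  rw [h.iteratedDeriv_eq n]

theorem taylor_add {f g : ℂ → ℂ} (hf : AnalyticAt ℂ f a) (hg : AnalyticAt ℂ g a) :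
    taylor a (fun w => f w + g w) = taylor a f + taylor a g := by
  ext n
  simp only [taylor, PowerSeries.coeff_mk, map_add]
  rw [iteratedDeriv_fun_add hf.contDiffAt hg.contDiffAt, add_div]

theorem taylor_mul {f g : ℂ → ℂ} (hf : AnalyticAt ℂ f a) (hg : AnalyticAt ℂ g a) :
    taylor a (fun w => f w * g w) = taylor a f * taylor a g := by
  ext n
  rw [PowerSeries.coeff_mul]
  simp only [taylor, PowerSeries.coeff_mk]
  rw [iteratedDeriv_fun_mul hf.contDiffAt hg.contDiffAt,
    Finset.Nat.sum_antidiagonal_eq_sum_range_succ_mk, Finset.sum_div]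
  refine Finset.sum_congr rfl fun i hi => ?_
  have hi' : i ≤ n := Nat.lt_succ_iff.1 (Finset.mem_range.1 hi)
  have h1 : (n.choose i : ℂ) = n.factorial / (i.factorial * (n - i).factorial) :=
    Nat.cast_choose ℂ hi'
  have h2 : (n.factorial : ℂ) ≠ 0 := Nat.cast_ne_zero.2 (Nat.factorial_ne_zero _)
  have h3 : (i.factorial : ℂ) ≠ 0 := Nat.cast_ne_zero.2 (Nat.factorial_ne_zero _)
  have h4 : ((n - i).factorial : ℂ) ≠ 0 := Nat.cast_ne_zero.2 (Nat.factorial_ne_zero _)
  rw [h1]
  field_simp

theorem taylor_const (c : ℂ) : taylor a (fun _ => c) = PowerSeries.C c := by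
  ext n
  simp only [taylor, PowerSeries.coeff_mk, PowerSeries.coeff_C]
  rw [iteratedDeriv_const]
  split_ifs with h
  · rw [h]; simp
  · simp

theorem taylor_deriv (g : ℂ → ℂ) :
    taylor a (deriv g) = PowerSeries.derivative ℂ (taylor a g) := by
  ext n
  rw [PowerSeries.coeff_derivative]
  simp only [taylor, PowerSeries.coeff_mk]
  rw [← iteratedDeriv_succ', Nat.factorial_succ]
  have h2 : (n.factorial : ℂ) ≠ 0 := Nat.cast_ne_zero.2 (Nat.factorial_ne_zero _)
  have h3 : ((n : ℂ) + 1) ≠ 0 := Nat.cast_add_one_ne_zero n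
  push_cast
  field_simp

theorem taylor_iteratedDeriv (g : ℂ → ℂ) (n : ℕ) :
    taylor a (iteratedDeriv n g) = (⇑(PowerSeries.derivative ℂ))^[n] (taylor a g) := by
  induction n with
  | zero => rw [iteratedDeriv_zero]; rfl
  | succ n ih =>
    rw [Function.iterate_succ_apply', ← ih, ← taylor_deriv, iteratedDeriv_succ]

theorem taylor_zero_coeff (g : ℂ → ℂ) : PowerSeries.coeff 0 (taylor a g) = g a := by
  simp [taylor]

theorem eventually_zero_of_taylor {g : ℂ → ℂ} (hg : AnalyticAt ℂ g a) (h : taylor a g = 0) :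
    g =ᶠ[𝓝 a] 0 := by
  have h1 := hg.hasFPowerSeriesAt
  have h2 : (fun n => iteratedDeriv n g a / (n.factorial : ℂ)) = fun _ => 0 := by
    funext n
    have := congrArg (PowerSeries.coeff n) h
    simpa [taylor] using this
  rw [h2] at h1
  have h3 : FormalMultilinearSeries.ofScalars ℂ (fun _ : ℕ => (0 : ℂ)) = 0 := by
    ext n
    simp
  rw [h3] at h1
  exact h1.eventually_eq_zero

theorem analyticAt_aeval {σ R : Type*} [CommRing R] [Algebra R ℂ] {g : σ → ℂ → ℂ}
    (hg : ∀ i, AnalyticAt ℂ (g i) a) (P : MvPolynomial σ R) :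
    AnalyticAt ℂ (fun w => MvPolynomial.aeval (fun i => g i w) P) a := by
  induction P using MvPolynomial.induction_on with
  | C c => simpa using analyticAt_const
  | add p q hp hq =>
    simp only [map_add]
    exact hp.add hq
  | mul_X p i hp =>
    simp only [map_mul, MvPolynomial.aeval_X]
    exact hp.mul (hg i)

theorem taylor_aeval {σ R : Type*} [CommRing R] [Algebra R ℂ] {g : σ → ℂ → ℂ}
    (hg : ∀ i, AnalyticAt ℂ (g i) a) (P : MvPolynomial σ R) :
    taylor a (fun w => MvPolynomial.aeval (fun i => g i w) P) =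
      MvPolynomial.aeval (fun i => taylor a (g i)) P := by
  induction P using MvPolynomial.induction_on with
  | C c =>
    simp only [MvPolynomial.aeval_C]
    rw [taylor_const, PowerSeries.algebraMap_apply]
  | add p q hp hq =>
    simp only [map_add]
    rw [taylor_add (analyticAt_aeval hg p) (analyticAt_aeval hg q), hp, hq]
  | mul_X p i hp =>
    simp only [map_mul, MvPolynomial.aeval_X]
    rw [taylor_mul (analyticAt_aeval hg p) (hg i), hp]

end Pool.Agent.Lib.MP_1e09a3_nt
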