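import Pool.Agent.Lib.MP_1e09a3_nt.ExtDer

/-!
The algebraic closure of the field of formal Laurent series, with the derivation extending
`d/dX`; its constants are the constants.
-/

set_option linter.style.haveILetI false

open scoped PowerSeries

namespace Pool.Agent.Lib.MP_1e09a3_nt

/-- the algebraic closure of the fraction field of the ring of power series -/
abbrev PSF : Type := AlgebraicClosure (FractionRing ℂ⟦X⟧)

instance : CharZero (FractionRing ℂ⟦X⟧) :=
  charZero_of_injective_algebraMap (algebraMap ℂ (FractionRing ℂ⟦X⟧)).injective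

instance : Algebra.FormallySmooth ℂ⟦X⟧ PSF := by
  haveI : Algebra.FormallySmooth ℂ⟦X⟧ (FractionRing ℂ⟦X⟧) :=
    .of_isLocalization (nonZeroDivisors _)
  haveI : Algebra.FormallyEtale (FractionRing ℂ⟦X⟧) PSF :=
    Algebra.FormallyEtale.of_isSeparable _ _
  exact .comp _ (FractionRing ℂ⟦X⟧) _

theorem psf_injective : Function.Injective (algebraMap ℂ⟦X⟧ PSF) := by
  rw [IsScalarTower.algebraMap_eq ℂ⟦X⟧ (FractionRing ℂ⟦X⟧) PSF]
  exact (algebraMap (FractionRing ℂ⟦X⟧) PSF).injective.comp (IsFractionRing.injective _ _)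

/-- derivation of power series with values in `PSF` -/
noncomputable def psDer : Derivation ℂ ℂ⟦X⟧ PSF := Derivation.mk'
  (((Algebra.linearMap ℂ⟦X⟧ PSF).restrictScalars ℂ) ∘ₗ
    (PowerSeries.derivative ℂ : Derivation ℂ ℂ⟦X⟧ ℂ⟦X⟧).toLinearMap)
  (fun a b => by
    simp only [LinearMap.comp_apply, Derivation.coeFn_coe, Derivation.leibniz, map_add,
      LinearMap.coe_restrictScalars, Algebra.linearMap_apply, smul_eq_mul, map_mul,
      Algebra.smul_def])

theorem psDer_apply (f : ℂ⟦X⟧) :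
    psDer f = algebraMap ℂ⟦X⟧ PSF (PowerSeries.derivative ℂ f) := rfl

theorem exists_psf_der : ∃ D : Derivation ℂ PSF PSF,
    ∀ f : ℂ⟦X⟧, D (algebraMap ℂ⟦X⟧ PSF f) = algebraMap ℂ⟦X⟧ PSF (PowerSeries.derivative ℂ f) :=
  exists_extension psDer

theorem const_ps (f : ℂ⟦X⟧) (hf : PowerSeries.derivative ℂ f = 0) : ∃ c : ℂ, f = PowerSeries.C c := by
  refine ⟨PowerSeries.coeff 0 f, ?_⟩
  ext n
  rcases n with _ | n
  · simp
  · have h := congrArg (PowerSeries.coeff n) hf
    rw [PowerSeries.coeff_derivative, map_zero] at h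
    have hn : ((n : ℂ) + 1) ≠ 0 := Nat.cast_add_one_ne_zero n
    rw [PowerSeries.coeff_C, if_neg (by omega)]
    exact (mul_eq_zero.1 h).resolve_right hn

variable {D : Derivation ℂ PSF PSF}

theorem D_inv_eq_zero {x : PSF} (h : D x = 0) : D x⁻¹ = 0 := by
  by_cases hx : x = 0
  · rw [hx, inv_zero, map_zero]
  · have h1 : D (x * x⁻¹) = 0 := by rw [mul_inv_cancel₀ hx, Derivation.map_one_eq_zero]
    rw [Derivation.leibniz, h, smul_zero, add_zero, smul_eq_mul] at h1
    exact (mul_eq_zero.1 h1).resolve_left hx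

theorem const_frac (hD : ∀ f : ℂ⟦X⟧, D (algebraMap ℂ⟦X⟧ PSF f) =
      algebraMap ℂ⟦X⟧ PSF (PowerSeries.derivative ℂ f)) (k : FractionRing ℂ⟦X⟧)
    (hk : D (algebraMap _ PSF k) = 0) : ∃ c : ℂ, algebraMap ℂ (FractionRing ℂ⟦X⟧) c = k := by
  have key : ∀ g : ℂ⟦X⟧, D (algebraMap ℂ⟦X⟧ PSF g) = 0 →
      ∃ c : ℂ, algebraMap ℂ (FractionRing ℂ⟦X⟧) c = algebraMap ℂ⟦X⟧ _ g := by
    intro g hg
    rw [hD, ← map_zero (algebraMap ℂ⟦X⟧ PSF)] at hg
    obtain ⟨c, hc⟩ := const_ps g (psf_injective hg)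
    refine ⟨c, ?_⟩
    rw [hc, IsScalarTower.algebraMap_apply ℂ ℂ⟦X⟧ (FractionRing ℂ⟦X⟧)]
    rfl
  rcases ValuationRing.isInteger_or_isInteger ℂ⟦X⟧ k with ⟨g, hg⟩ | ⟨g, hg⟩
  · rw [← hg]
    refine key g ?_
    rw [IsScalarTower.algebraMap_apply ℂ⟦X⟧ (FractionRing ℂ⟦X⟧) PSF, hg, hk]
  · obtain ⟨c, hc⟩ := key g (by
      rw [IsScalarTower.algebraMap_apply ℂ⟦X⟧ (FractionRing ℂ⟦X⟧) PSF, hg, map_inv₀]
      exact D_inv_eq_zero hk)
    refine ⟨c⁻¹, ?_⟩
    rw [map_inv₀, hc, hg, inv_inv]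

theorem D_frac (hD : ∀ f : ℂ⟦X⟧, D (algebraMap ℂ⟦X⟧ PSF f) =
      algebraMap ℂ⟦X⟧ PSF (PowerSeries.derivative ℂ f)) (k : FractionRing ℂ⟦X⟧) :
    ∃ k' : FractionRing ℂ⟦X⟧, D (algebraMap _ PSF k) = algebraMap _ PSF k' := by
  obtain ⟨a, b, hb, rfl⟩ := IsFractionRing.div_surjective (A := ℂ⟦X⟧) k
  have hb0 : algebraMap ℂ⟦X⟧ (FractionRing ℂ⟦X⟧) b ≠ 0 :=
    IsFractionRing.to_map_ne_zero_of_mem_nonZeroDivisors hb
  have hb1 : algebraMap ℂ⟦X⟧ PSF b ≠ 0 := by
    rw [IsScalarTower.algebraMap_apply ℂ⟦X⟧ (FractionRing ℂ⟦X⟧) PSF]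
    exact (map_ne_zero _).2 hb0
  set q : PSF := algebraMap _ PSF (algebraMap ℂ⟦X⟧ (FractionRing ℂ⟦X⟧) a /
    algebraMap ℂ⟦X⟧ (FractionRing ℂ⟦X⟧) b) with hq
  have h1 : algebraMap ℂ⟦X⟧ PSF b * q = algebraMap ℂ⟦X⟧ PSF a := by
    rw [hq, IsScalarTower.algebraMap_apply ℂ⟦X⟧ (FractionRing ℂ⟦X⟧) PSF, ← map_mul,
      mul_div_cancel₀ _ hb0]
    rfl
  have h2 := congrArg D h1
  rw [Derivation.leibniz, hD, hD, smul_eq_mul, smul_eq_mul] at h2
  refine ⟨(algebraMap _ _ (PowerSeries.derivative ℂ a) -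
    (algebraMap ℂ⟦X⟧ (FractionRing ℂ⟦X⟧) a / algebraMap ℂ⟦X⟧ (FractionRing ℂ⟦X⟧) b) *
      algebraMap _ _ (PowerSeries.derivative ℂ b)) / algebraMap ℂ⟦X⟧ (FractionRing ℂ⟦X⟧) b, ?_⟩
  rw [map_div₀, map_sub, map_mul, ← hq, ← IsScalarTower.algebraMap_apply,
    ← IsScalarTower.algebraMap_apply, ← IsScalarTower.algebraMap_apply, eq_div_iff hb1]
  linear_combination h2

theorem const_psf (hD : ∀ f : ℂ⟦X⟧, D (algebraMap ℂ⟦X⟧ PSF f) =
      algebraMap ℂ⟦X⟧ PSF (PowerSeries.derivative ℂ f)) (x : PSF)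
    (hx : D x = 0) : ∃ c : ℂ, algebraMap ℂ PSF c = x := by
  classical
  set q := minpoly (FractionRing ℂ⟦X⟧) x with hq
  have hint : IsIntegral (FractionRing ℂ⟦X⟧) x := Algebra.IsIntegral.isIntegral x
  have hmonic : q.Monic := minpoly.monic hint
  choose k' hk' using fun i => D_frac hD (q.coeff i)
  -- the derivative of the minimal polynomial
  set r : Polynomial (FractionRing ℂ⟦X⟧) :=
    ∑ i ∈ Finset.range q.natDegree, Polynomial.monomial i (k' i) with hr
  have hrx : Polynomial.aeval x r = 0 := by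
    have h0 : Polynomial.aeval x q = 0 := minpoly.aeval _ _
    rw [Polynomial.aeval_eq_sum_range, Finset.sum_range_succ] at h0
    have h1 := congrArg D h0
    rw [map_zero, map_add, map_sum] at h1
    have h2 : ∀ i, D (q.coeff i • x ^ i) = algebraMap _ PSF (k' i) * x ^ i := by
      intro i
      rw [Algebra.smul_def, Derivation.leibniz, Derivation.leibniz_pow, hx, smul_zero, smul_zero,
        smul_zero, zero_add, hk', smul_eq_mul, mul_comm]
    have h3 : D (q.coeff q.natDegree • x ^ q.natDegree) = 0 := by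
      have : q.coeff q.natDegree = 1 := hmonic
      rw [this, one_smul, Derivation.leibniz_pow, hx, smul_zero, smul_zero]
    rw [h3, add_zero] at h1
    simp only [h2] at h1
    rw [hr, map_sum]
    simpa only [Polynomial.aeval_monomial] using h1
  have hr0 : r = 0 := by
    by_contra hne
    have h1 := minpoly.degree_le_of_ne_zero (FractionRing ℂ⟦X⟧) x hne hrx
    have h2 : r.degree < q.degree := by
      rw [hr, Polynomial.degree_eq_natDegree hmonic.ne_zero]
      refine (Polynomial.degree_sum_le _ _).trans_lt ?_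
      rw [Finset.sup_lt_iff (WithBot.bot_lt_coe _)]
      intro i hi
      refine (Polynomial.degree_monomial_le _ _).trans_lt ?_
      exact_mod_cast Finset.mem_range.1 hi
    exact absurd h1 (not_le.2 h2)
  have hcoef : ∀ i, ∃ c : ℂ, algebraMap ℂ (FractionRing ℂ⟦X⟧) c = q.coeff i := by
    intro i
    rcases lt_trichotomy i q.natDegree with hi | hi | hi
    · refine const_frac hD _ ?_
      rw [hk']
      have h1 := congrArg (fun p => Polynomial.coeff p i) hr0
      simp only [hr, Polynomial.finsetSum_coeff, Polynomial.coeff_monomial,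
        Polynomial.coeff_zero] at h1
      rw [Finset.sum_ite_eq' (Finset.range q.natDegree) i k', if_pos (Finset.mem_range.2 hi)] at h1
      rw [h1, map_zero]
    · exact ⟨1, by rw [map_one, hi]; exact hmonic.symm⟩
    · exact ⟨0, by rw [map_zero, Polynomial.coeff_eq_zero_of_natDegree_lt hi]⟩
  choose c hc using hcoef
  have halg : IsAlgebraic ℂ x := by
    refine ⟨∑ i ∈ Finset.range (q.natDegree + 1), Polynomial.monomial i (c i), ?_, ?_⟩
    · intro h0
      have h1 := congrArg (fun p => Polynomial.coeff p q.natDegree) h0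
      simp only [Polynomial.finsetSum_coeff, Polynomial.coeff_monomial,
        Polynomial.coeff_zero] at h1
      rw [Finset.sum_ite_eq' (Finset.range (q.natDegree + 1)) q.natDegree c,
        if_pos (by simp)] at h1
      have h2 := hc q.natDegree
      rw [h1, map_zero] at h2
      have h3 : q.coeff q.natDegree = 1 := hmonic
      rw [h3] at h2
      exact zero_ne_one h2
    · rw [map_sum]
      have h0 : Polynomial.aeval x q = 0 := minpoly.aeval _ _
      rw [Polynomial.aeval_eq_sum_range] at h0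
      rw [← h0]
      refine Finset.sum_congr rfl fun i _ => ?_
      rw [Polynomial.aeval_monomial, Algebra.smul_def, ← hc i, ← IsScalarTower.algebraMap_apply]
  have hdeg : (minpoly ℂ x).degree = 1 :=
    IsAlgClosed.degree_eq_one_of_irreducible ℂ (minpoly.irreducible halg.isIntegral)
  exact minpoly.mem_range_of_degree_eq_one ℂ x hdeg

end Pool.Agent.Lib.MP_1e09a3_nt
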