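import Pool.Agent.Lib.MP_1e09a3_nt.Main
import Pool.Agent.Lib.MP_1e09a3_nt.PSField
import Pool.Agent.Lib.MP_1e09a3_nt.Taylor

/-!
Integral holomorphic functions which satisfy a nondegenerate exponential-polynomial system are
algebraic.
-/

set_option linter.style.haveILetI false

open scoped PowerSeries
open Filter Topology MvPolynomial

namespace Pool.Agent.Lib.MP_1e09a3_nt

theorem iterate_ringHom {Ω : Type*} [Field Ω] [Algebra ℂ Ω] {D : Derivation ℂ Ω Ω}
    (ι : ℂ⟦X⟧ →+* Ω) (hD : ∀ f : ℂ⟦X⟧, D (ι f) = ι (PowerSeries.derivative ℂ f)) (n : ℕ)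
    (g : ℂ⟦X⟧) : (⇑D)^[n] (ι g) = ι ((⇑(PowerSeries.derivative ℂ))^[n] g) := by
  induction n generalizing g with
  | zero => rfl
  | succ n ih => rw [Function.iterate_succ_apply, hD, ih, ← Function.iterate_succ_apply]

theorem ringHom_aeval_int {A B σ : Type*} [CommRing A] [CommRing B] [Algebra ℤ A] [Algebra ℤ B]
    (ι : A →+* B) (g : σ → A) (P : MvPolynomial σ ℤ) :
    ι (aeval g P) = aeval (fun i => ι (g i)) P := by
  induction P using MvPolynomial.induction_on with
  | C c =>
    rw [aeval_C, aeval_C, eq_intCast (algebraMap ℤ A), eq_intCast (algebraMap ℤ B), map_intCast]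
  | add p q hp hq => simp only [map_add, hp, hq]
  | mul_X p i hp => simp only [map_mul, hp, aeval_X]

theorem isFlatElt_taylor {Ω : Type*} [Field Ω] [Algebra ℂ Ω] {D : Derivation ℂ Ω Ω}
    (ι : ℂ⟦X⟧ →+* Ω) (hD : ∀ f : ℂ⟦X⟧, D (ι f) = ι (PowerSeries.derivative ℂ f))
    {U : Set ℂ} (hU : IsOpen U) {a : ℂ}
    (ha : a ∈ U) {y : ℂ → ℂ} (hy : IsIntegralOn U y) :
    IsFlatElt D (ι (taylor a y)) := by
  obtain ⟨N, x, ⟨hx, hint⟩, P₀, hP₀⟩ := hy
  have hxa : ∀ i, AnalyticAt ℂ (x i) a := fun i => (hx i).analyticAt (hU.mem_nhds ha)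
  set S : Set Ω := Set.range fun i => ι (taylor a (x i)) with hS
  have hmem : ∀ P : MvPolynomial (Fin N) ℤ, ι (taylor a fun w => aeval (fun i => x i w) P) ∈
      Algebra.adjoin ℤ S := by
    intro P
    rw [taylor_aeval hxa P]
    rw [ringHom_aeval_int ι, hS, Algebra.adjoin_range_eq_range_aeval]
    exact ⟨P, rfl⟩
  have hiter : ∀ (P : MvPolynomial (Fin N) ℤ) (n : ℕ), ∃ Q : MvPolynomial (Fin N) ℤ,
      (⇑D)^[n] (ι (taylor a fun w => aeval (fun i => x i w) P)) =
        (n.factorial : Ω) * ι (taylor a fun w => aeval (fun i => x i w) Q) := by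
    intro P n
    obtain ⟨Q, hQ⟩ := hint P n
    refine ⟨Q, ?_⟩
    rw [iterate_ringHom ι hD, ← taylor_iteratedDeriv]
    have h2 : taylor a (iteratedDeriv n fun w => aeval (fun i => x i w) P) =
        taylor a (fun w => (n.factorial : ℂ) * aeval (fun i => x i w) Q) := by
      refine taylor_congr ?_
      filter_upwards [hU.mem_nhds ha] with z hz
      have h3 : (n.factorial : ℂ) ≠ 0 := Nat.cast_ne_zero.2 (Nat.factorial_ne_zero _)
      have h4 := hQ z hz
      rw [div_eq_iff h3] at h4
      rw [h4, mul_comm]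
    rw [h2, taylor_mul analyticAt_const (analyticAt_aeval hxa Q), taylor_const, map_mul]
    congr 1
    rw [map_natCast, map_natCast]
  have hX : ∀ i, ι (taylor a (x i)) =
      ι (taylor a fun w => aeval (fun i => x i w) (X i : MvPolynomial (Fin N) ℤ)) := by
    intro i
    simp only [aeval_X]
  refine ⟨S, ⟨Set.finite_range _, ?_, ?_⟩, ?_⟩
  · rintro _ ⟨i, rfl⟩
    obtain ⟨Q, hQ⟩ := hiter (X i) 1
    rw [← hX i] at hQ
    change D (ι (taylor a (x i))) = _ at hQ
    rw [hQ, Nat.factorial_one, Nat.cast_one, one_mul]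
    exact hmem Q
  · rintro p hp _ ⟨i, rfl⟩
    obtain ⟨Q, hQ⟩ := hiter (X i) p
    rw [← hX i] at hQ
    refine ⟨((p - 1).factorial : Ω) * ι (taylor a fun w => aeval (fun i => x i w) Q),
      Subalgebra.mul_mem _ (Subalgebra.natCast_mem _ _) (hmem Q), ?_⟩
    rw [hQ, ← mul_assoc, ← Nat.cast_mul, Nat.mul_factorial_pred hp.ne_zero]
  · have h1 : taylor a y = taylor a fun w => aeval (fun i => x i w) P₀ := by
      refine taylor_congr ?_
      filter_upwards [hU.mem_nhds ha] with z hz
      exact hP₀ z hz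
    rw [h1]
    exact hmem P₀

theorem differentiableOn_of_isIntegralOn {U : Set ℂ} {y : ℂ → ℂ} (hU : IsOpen U)
    (hy : IsIntegralOn U y) : AnalyticOnNhd ℂ y U := by
  obtain ⟨N, x, ⟨hx, -⟩, P, hP⟩ := hy
  intro z hz
  have h1 : AnalyticAt ℂ (fun w => aeval (fun i => x i w) P) z :=
    analyticAt_aeval (fun i => (hx i).analyticAt (hU.mem_nhds hz)) P
  refine h1.congr ?_
  filter_upwards [hU.mem_nhds hz] with w hw
  exact (hP w hw).symm

/-- main theorem -/
theorem algebraic_of_integral (U : Set ℂ) (hU : IsOpen U) (hconn : IsPreconnected U) (y : ℂ → ℂ)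
    (hy : IsIntegralOn U y) (V : Set ℂ) (hV : IsOpen V) (hVU : V ⊆ U) (n : ℕ)
    (P : Fin n → MvPolynomial (Option (Fin n ⊕ Fin n)) ℂ) (f : Fin n → ℂ → ℂ)
    (hf : IsExpSolution V P f) (i₀ : Fin n) (hyf : ∀ z ∈ V, y z = f i₀ z) :
    IsAlgebraicOn U y := by
  obtain ⟨hfd, hsys, a, haV, hdet⟩ := hf
  have haU : a ∈ U := hVU haV
  obtain ⟨D, hD⟩ := exists_psf_der
  have hfa : ∀ i, AnalyticAt ℂ (f i) a := fun i => (hfd i).analyticAt (hV.mem_nhds haV)
  have hea : ∀ i, AnalyticAt ℂ (fun w => Complex.exp (f i w)) a := fun i => (hfa i).cexp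
  have hpa : ∀ b, AnalyticAt ℂ (fun w => expPoint f w b) a := by
    intro b
    match b with
    | none => exact analyticAt_id
    | some (Sum.inl i) => exact hfa i
    | some (Sum.inr i) => exact hea i
  set ι : ℂ⟦X⟧ →ₐ[ℂ] PSF := IsScalarTower.toAlgHom ℂ ℂ⟦X⟧ PSF with hι
  have hιD : ∀ g, D (ι g) = ι (PowerSeries.derivative ℂ g) := hD
  set z : PSF := ι (taylor a fun w => w) with hz
  set x : Fin n → PSF := fun i => ι (taylor a (f i)) with hx
  set u : Fin n → PSF := fun i => ι (taylor a fun w => Complex.exp (f i w)) with hu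
  have hpt : (fun b => ι (taylor a fun w => expPoint f w b)) = pt z x u := by
    funext b
    match b with
    | none => rfl
    | some (Sum.inl i) => rfl
    | some (Sum.inr i) => rfl
  have haev : ∀ Q : MvPolynomial (Option (Fin n ⊕ Fin n)) ℂ,
      aeval (pt z x u) Q = ι (taylor a fun w => eval (expPoint f w) Q) := by
    intro Q
    have h1 := taylor_aeval hpa Q
    simp only [← MvPolynomial.coe_aeval_eq_eval] at h1 ⊢
    rw [← hpt]
    change _ = ι (taylor a fun w => aeval (fun b => expPoint f w b) Q)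
    rw [h1]
    exact (MvPolynomial.comp_aeval_apply (fun b => taylor a fun w => expPoint f w b) ι Q).symm
  have hz1 : D z = 1 := by
    rw [hz, hιD, ← taylor_deriv]
    have : deriv (fun w : ℂ => w) = fun _ => 1 := by
      funext w; exact deriv_id w
    rw [this, taylor_const, map_one, map_one]
  have hu0 : ∀ i, u i ≠ 0 := by
    intro i h0
    have h1 : taylor a (fun w => Complex.exp (f i w)) = 0 := by
      apply psf_injective
      rw [map_zero]
      exact h0
    have h2 := taylor_zero_coeff (a := a) (fun w => Complex.exp (f i w))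
    rw [h1, map_zero] at h2
    exact Complex.exp_ne_zero _ h2.symm
  have hue : ∀ i, D (u i) = u i * D (x i) := by
    intro i
    simp only [hu, hx]
    rw [hιD, hιD, ← taylor_deriv, ← taylor_deriv, ← map_mul, ← taylor_mul (hea i) (hfa i).deriv]
    congr 1
    refine taylor_congr ?_
    have h1 : ∀ᶠ w in 𝓝 a, DifferentiableAt ℂ (f i) w := by
      filter_upwards [hV.mem_nhds haV] with w hw
      exact (hfd i).differentiableAt (hV.mem_nhds hw)
    filter_upwards [h1] with w hw
    exact hw.hasDerivAt.cexp.deriv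
  have hP0 : ∀ k, aeval (pt z x u) (P k) = 0 := by
    intro k
    rw [haev]
    have h1 : taylor a (fun w => eval (expPoint f w) (P k)) = taylor a (fun _ => 0) := by
      refine taylor_congr ?_
      filter_upwards [hV.mem_nhds haV] with w hw
      exact hsys w hw k
    rw [h1, taylor_const, map_zero, map_zero]
  have hJ0 : aeval (pt z x u) (jac P).det ≠ 0 := by
    rw [haev]
    intro h0
    have h1 : taylor a (fun w => eval (expPoint f w) (jac P).det) = 0 := by
      apply psf_injective
      rw [map_zero]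
      exact h0
    have h2 := taylor_zero_coeff (a := a) (fun w => eval (expPoint f w) (jac P).det)
    rw [h1, map_zero] at h2
    exact hdet h2.symm
  have hyx : taylor a y = taylor a (f i₀) := by
    refine taylor_congr ?_
    filter_upwards [hV.mem_nhds haV] with w hw
    exact hyf w hw
  have hflat : IsFlatElt D (x i₀) := by
    have h1 := isFlatElt_taylor (algebraMap ℂ⟦X⟧ PSF) hD hU haU hy
    rw [hyx] at h1
    exact h1
  have hmain := not_algebraicIndependent D (const_psf hD) z hz1 P x u hu0 hue hP0 hJ0 i₀ hflat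
  rw [algebraicIndependent_iff] at hmain
  push Not at hmain
  obtain ⟨Q, hQ0, hQne⟩ := hmain
  refine ⟨Q, hQne, ?_⟩
  have hyan : AnalyticOnNhd ℂ y U := differentiableOn_of_isIntegralOn hU hy
  have hgan : ∀ b, ∀ w ∈ U, AnalyticAt ℂ (fun w => (![w, y w] : Fin 2 → ℂ) b) w := by
    intro b w hw
    fin_cases b
    · exact analyticAt_id
    · exact hyan w hw
  have hQeq : (fun w => eval ![w, y w] Q) =
      fun w => aeval (fun b => (![w, y w] : Fin 2 → ℂ) b) Q := by
    funext w
    rw [← MvPolynomial.coe_aeval_eq_eval]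
    rfl
  have hQan : AnalyticOnNhd ℂ (fun w => eval ![w, y w] Q) U := by
    intro w hw
    rw [hQeq]
    exact analyticAt_aeval (fun b => hgan b w hw) Q
  have hloc : (fun w => eval ![w, y w] Q) =ᶠ[𝓝 a] 0 := by
    refine eventually_zero_of_taylor (hQan a haU) ?_
    apply psf_injective
    rw [map_zero]
    have h1 := taylor_aeval (fun b => hgan b a haU) Q
    rw [hQeq]
    change ι (taylor a fun w => aeval (fun b => (![w, y w] : Fin 2 → ℂ) b) Q) = 0
    rw [h1, MvPolynomial.comp_aeval_apply, ← hQ0]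
    congr 2
    funext b
    fin_cases b
    · rfl
    · change ι (taylor a y) = ι (taylor a (f i₀))
      rw [hyx]
  have hall := hQan.eqOn_zero_of_preconnected_of_eventuallyEq_zero hconn haU hloc
  intro w hw
  exact hall hw

end Pool.Agent.Lib.MP_1e09a3_nt
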