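import Mathlib

/-!
Definitions: integral and algebraic holomorphic functions, exponential-polynomial systems.
-/

open MvPolynomial

namespace Pool.Agent.Lib.MP_1e09a3_nt

/-- Variables of an exponential-polynomial system in `n` unknowns: `none` is the independent
variable `z`, `some (inl i)` stands for the `i`-th unknown `X_i` and `some (inr i)` for its
exponential `Y_i`. -/
abbrev Vars (n : ℕ) := Option (Fin n ⊕ Fin n)

/-- The Jacobian matrix with entries `∂P_k/∂X_i + Y_i ∂P_k/∂Y_i`, that is, the derivatives of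
`P_k(z, X, e^X)` with respect to `X_i`. -/
noncomputable def jac {C : Type*} [CommRing C] {n : ℕ} (P : Fin n → MvPolynomial (Vars n) C) :
    Matrix (Fin n) (Fin n) (MvPolynomial (Vars n) C) :=
  Matrix.of fun k i => pderiv (some (Sum.inl i)) (P k) +
    X (some (Sum.inr i)) * pderiv (some (Sum.inr i)) (P k)

/-- The point with coordinates `z`, `x_i`, `u_i`. -/
def pt {Ω : Type*} {n : ℕ} (z : Ω) (x u : Fin n → Ω) : Vars n → Ω
  | none => z
  | some (Sum.inl i) => x i
  | some (Sum.inr i) => u i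

/-- The ring `ℤ[x_1, …, x_N]` generated by the holomorphic functions `x_i` on `U` is integral:
it is closed under the operators `P ↦ P^{(n)} / n!`. -/
def IsIntegralFamily (U : Set ℂ) {N : ℕ} (x : Fin N → ℂ → ℂ) : Prop :=
  (∀ i, DifferentiableOn ℂ (x i) U) ∧
    ∀ (P : MvPolynomial (Fin N) ℤ) (n : ℕ), ∃ Q : MvPolynomial (Fin N) ℤ, ∀ z ∈ U,
      iteratedDeriv n (fun w => aeval (fun i => x i w) P) z / n.factorial =
        aeval (fun i => x i z) Q

/-- `y` is an integral holomorphic function on `U`. -/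
def IsIntegralOn (U : Set ℂ) (y : ℂ → ℂ) : Prop :=
  ∃ (N : ℕ) (x : Fin N → ℂ → ℂ), IsIntegralFamily U x ∧
    ∃ P : MvPolynomial (Fin N) ℤ, ∀ z ∈ U, y z = aeval (fun i => x i z) P

/-- `y` is an algebraic function on `U`. -/
def IsAlgebraicOn (U : Set ℂ) (y : ℂ → ℂ) : Prop :=
  ∃ P : MvPolynomial (Fin 2) ℂ, P ≠ 0 ∧ ∀ z ∈ U, eval ![z, y z] P = 0

/-- The point `(z, f_1(z), …, f_n(z), e^{f_1(z)}, …, e^{f_n(z)})`. -/
noncomputable def expPoint {n : ℕ} (f : Fin n → ℂ → ℂ) (z : ℂ) : Vars n → ℂ :=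
  pt z (fun i => f i z) (fun i => Complex.exp (f i z))

/-- `f_1, …, f_n` are holomorphic on `V` and satisfy the system of exponential-polynomial equations
`P_k(z, f_1, …, f_n, e^{f_1}, …, e^{f_n}) = 0`, `k = 1, …, n`, whose Jacobian determinant with
respect to the unknowns does not vanish identically on `V`. -/
def IsExpSolution {n : ℕ} (V : Set ℂ) (P : Fin n → MvPolynomial (Vars n) ℂ)
    (f : Fin n → ℂ → ℂ) : Prop :=
  (∀ i, DifferentiableOn ℂ (f i) V) ∧ (∀ z ∈ V, ∀ k, eval (expPoint f z) (P k) = 0) ∧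
    ∃ z ∈ V, eval (expPoint f z) (jac P).det ≠ 0

end Pool.Agent.Lib.MP_1e09a3_nt
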