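import Mathlib

/-!
Extension of derivations along formally smooth extensions, and derivations of a field of
characteristic zero with prescribed values on algebraically independent elements.
-/

set_option linter.style.haveILetI false

namespace Pool.Agent.Lib.MP_1e09a3_nt

/-- dual numbers -/
@[ext]
structure Dual (L : Type*) where
  /-- value -/
  re : L
  /-- derivative -/
  im : L

namespace Dual

variable {L : Type*} [CommRing L]

instance : Zero (Dual L) := ⟨⟨0, 0⟩⟩
instance : One (Dual L) := ⟨⟨1, 0⟩⟩
instance : Add (Dual L) := ⟨fun x y => ⟨x.re + y.re, x.im + y.im⟩⟩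
instance : Mul (Dual L) := ⟨fun x y => ⟨x.re * y.re, x.re * y.im + y.re * x.im⟩⟩
instance : Neg (Dual L) := ⟨fun x => ⟨-x.re, -x.im⟩⟩

@[simp] theorem zero_re : (0 : Dual L).re = 0 := rfl
@[simp] theorem zero_im : (0 : Dual L).im = 0 := rfl
@[simp] theorem one_re : (1 : Dual L).re = 1 := rfl
@[simp] theorem one_im : (1 : Dual L).im = 0 := rfl
@[simp] theorem add_re (x y : Dual L) : (x + y).re = x.re + y.re := rfl
@[simp] theorem add_im (x y : Dual L) : (x + y).im = x.im + y.im := rfl
@[simp] theorem mul_re (x y : Dual L) : (x * y).re = x.re * y.re := rfl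
@[simp] theorem mul_im (x y : Dual L) : (x * y).im = x.re * y.im + y.re * x.im := rfl
@[simp] theorem neg_re (x : Dual L) : (-x).re = -x.re := rfl
@[simp] theorem neg_im (x : Dual L) : (-x).im = -x.im := rfl

instance : CommRing (Dual L) where
  add_assoc x y z := by ext <;> simp [add_assoc]
  zero_add x := by ext <;> simp
  add_zero x := by ext <;> simp
  add_comm x y := by ext <;> simp [add_comm]
  neg_add_cancel x := by ext <;> simp
  mul_assoc x y z := by ext <;> simp <;> ring
  one_mul x := by ext <;> simp
  mul_one x := by ext <;> simp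
  zero_mul x := by ext <;> simp
  mul_zero x := by ext <;> simp
  left_distrib x y z := by ext <;> simp <;> ring
  right_distrib x y z := by ext <;> simp <;> ring
  mul_comm x y := by ext <;> simp <;> ring
  nsmul := nsmulRec
  zsmul := zsmulRec

end Dual

theorem exists_extension {C A L : Type*} [CommRing C] [CommRing A] [CommRing L] [Algebra C A]
    [Algebra A L] [Algebra C L] [IsScalarTower C A L] [Algebra.FormallySmooth A L]
    (d : Derivation C A L) : ∃ E : Derivation C L L, ∀ a, E (algebraMap A L a) = d a := by
  let φ : A →+* Dual L :=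
    { toFun := fun a => ⟨algebraMap A L a, d a⟩
      map_one' := by ext <;> simp
      map_mul' := by
        intro a b
        ext
        · simp
        · simp [Algebra.smul_def]
      map_zero' := by ext <;> simp
      map_add' := by intro a b; ext <;> simp }
  letI : Algebra A (Dual L) := φ.toAlgebra
  let g : Dual L →ₐ[A] L :=
    { toFun := fun x => x.re
      map_one' := rfl
      map_mul' := fun x y => rfl
      map_zero' := rfl
      map_add' := fun x y => rfl
      commutes' := fun a => rfl }
  have hg : Function.Surjective g := fun l => ⟨⟨l, 0⟩, rfl⟩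
  have hg' : IsNilpotent (RingHom.ker (g : Dual L →+* L)) := by
    refine ⟨2, ?_⟩
    rw [pow_two]
    refine le_antisymm (Ideal.mul_le.2 ?_) bot_le
    intro x hx y hy
    have hx' : x.re = 0 := hx
    have hy' : y.re = 0 := hy
    have : x * y = 0 := by
      ext
      · simp [hx']
      · simp [hx', hy']
    rw [this]
    exact Ideal.zero_mem _
  let f : L →ₐ[A] Dual L :=
    Algebra.FormallySmooth.liftOfSurjective (AlgHom.id A L) g hg hg'
  have hf : ∀ x, (f x).re = x := fun x =>
    Algebra.FormallySmooth.liftOfSurjective_apply (AlgHom.id A L) g hg hg' x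
  have hfa : ∀ a, f (algebraMap A L a) = ⟨algebraMap A L a, d a⟩ := fun a => f.commutes a
  let E₀ : L → L := fun x => (f x).im
  have hE₀a : ∀ a, E₀ (algebraMap A L a) = d a := by
    intro a
    simp only [E₀]
    rw [hfa]
  have hadd : ∀ x y, E₀ (x + y) = E₀ x + E₀ y := by
    intro x y
    simp only [E₀]
    rw [map_add]
    rfl
  have hmul : ∀ x y, E₀ (x * y) = x * E₀ y + y * E₀ x := by
    intro x y
    simp only [E₀]
    rw [map_mul, Dual.mul_im, hf, hf]
  have hconst : ∀ c : C, E₀ (algebraMap C L c) = 0 := by
    intro c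
    rw [IsScalarTower.algebraMap_apply C A L, hE₀a, d.map_algebraMap]
  let E : Derivation C L L := Derivation.mk'
    { toFun := E₀
      map_add' := hadd
      map_smul' := fun c x => by
        simp only [RingHom.id_apply]
        rw [Algebra.smul_def, Algebra.smul_def, hmul, hconst, mul_zero, add_zero] }
    (fun a b => by
      change E₀ (a * b) = a • E₀ b + b • E₀ a
      rw [hmul, smul_eq_mul, smul_eq_mul])
  exact ⟨E, hE₀a⟩

open scoped IntermediateField.algebraAdjoinAdjoin in
/-- a derivation which is `1` on `v i₀` and `0` on the other members of a transcendence basis -/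
theorem exists_der_of_basis {C L ι : Type*} [Field C] [CharZero C] [Field L] [Algebra C L]
    (v : ι → L) (hv : IsTranscendenceBasis C v) (i₀ : ι) :
    ∃ E : Derivation C L L, E (v i₀) = 1 ∧ ∀ i, i ≠ i₀ → E (v i) = 0 := by
  classical
  have hb := hv.1
  haveI : Algebra.FormallySmooth (Algebra.adjoin C (Set.range v))
      (IntermediateField.adjoin C (Set.range v)) :=
    .of_isLocalization (nonZeroDivisors _)
  haveI : Algebra.IsAlgebraic (IntermediateField.adjoin C (Set.range v)) L :=
    hv.isAlgebraic_field
  haveI : CharZero L := charZero_of_injective_algebraMap (algebraMap C L).injective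
  haveI : CharZero (IntermediateField.adjoin C (Set.range v)) :=
    charZero_of_injective_algebraMap
      (algebraMap C (IntermediateField.adjoin C (Set.range v))).injective
  haveI : Algebra.IsSeparable (IntermediateField.adjoin C (Set.range v)) L := inferInstance
  haveI : Algebra.FormallyEtale (IntermediateField.adjoin C (Set.range v)) L :=
    Algebra.FormallyEtale.of_isSeparable _ L
  haveI : Algebra.FormallySmooth (Algebra.adjoin C (Set.range v)) L :=
    .comp _ (IntermediateField.adjoin C (Set.range v)) _
  let d : Derivation C (Algebra.adjoin C (Set.range v)) L := Derivation.mk'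
    ((MvPolynomial.aeval v).toLinearMap ∘ₗ (MvPolynomial.pderiv i₀ :
      Derivation C (MvPolynomial ι C) (MvPolynomial ι C)).toLinearMap ∘ₗ
        hb.aevalEquiv.symm.toLinearMap)
    (fun a b => by
      simp only [LinearMap.comp_apply, AlgEquiv.toLinearMap_apply, map_mul,
        Derivation.coeFn_coe, AlgHom.toLinearMap_apply, Derivation.leibniz, map_add, smul_eq_mul]
      have h : ∀ a, MvPolynomial.aeval v (hb.aevalEquiv.symm a) = (a : L) := by
        intro a
        rw [← hb.algebraMap_aevalEquiv, AlgEquiv.apply_symm_apply]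
        rfl
      rw [h, h]
      rfl)
  obtain ⟨E, hE⟩ := exists_extension d
  have hd : ∀ i, E (v i) = MvPolynomial.aeval v (MvPolynomial.pderiv i₀
      (MvPolynomial.X i : MvPolynomial ι C)) := by
    intro i
    have h1 : v i = algebraMap (Algebra.adjoin C (Set.range v)) L
        (hb.aevalEquiv (MvPolynomial.X i)) := by
      rw [hb.algebraMap_aevalEquiv, MvPolynomial.aeval_X]
    rw [h1, hE]
    change MvPolynomial.aeval v (MvPolynomial.pderiv i₀
      (hb.aevalEquiv.symm (hb.aevalEquiv (MvPolynomial.X i)))) = _
    rw [AlgEquiv.symm_apply_apply]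
  refine ⟨E, ?_, ?_⟩
  · rw [hd, MvPolynomial.pderiv_X_self, map_one]
  · intro i hi
    rw [hd, MvPolynomial.pderiv_X_of_ne hi, map_zero]

theorem exists_der_of_indep {C L : Type*} [Field C] [CharZero C] [Field L] [Algebra C L]
    (z y : L) (h : AlgebraicIndependent C ![z, y]) :
    ∃ E : Derivation C L L, E z = 0 ∧ E y = 1 := by
  have hr := h.coe_range
  obtain ⟨t, hst, ht⟩ := exists_isTranscendenceBasis_superset (R := C) (A := L) hr
  have hz : z ∈ t := hst ⟨0, rfl⟩
  have hy : y ∈ t := hst ⟨1, rfl⟩
  have hzy : z ≠ y := by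
    intro hzy
    have h1 := h.injective
    have h2 : (![z, y] : Fin 2 → L) 0 = ![z, y] 1 := by simpa using hzy
    exact absurd (h1 h2) (by decide)
  obtain ⟨E, hE1, hE0⟩ := exists_der_of_basis _ ht ⟨y, hy⟩
  refine ⟨E, ?_, hE1⟩
  exact hE0 ⟨z, hz⟩ (fun h => hzy (congrArg Subtype.val h))

end Pool.Agent.Lib.MP_1e09a3_nt
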