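import Mathlib

/-!
Retractions of finitely generated algebras onto an algebraically closed field, and a lemma on
finitely generated subrings of a field of characteristic zero.
-/

namespace Pool.Agent.Lib.MP_1e09a3_nt

theorem isJacobsonRing_int : IsJacobsonRing ℤ := by
  rw [isJacobsonRing_iff_prime_eq]
  intro P hP
  by_cases hP0 : P = ⊥
  · subst hP0
    rw [eq_bot_iff]
    intro x hx
    rw [Ideal.mem_jacobson_bot] at hx
    have h := hx x
    rw [Int.isUnit_iff] at h
    have hx2 : 0 ≤ x * x := mul_self_nonneg x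
    rcases h with h | h
    · have : x * x = 0 := by omega
      simpa using this
    · omega
  · haveI := hP.isMaximal hP0
    exact Ideal.jacobson_eq_self_of_isMaximal

theorem exists_point_field {K L : Type*} [Field K] [IsAlgClosed K] [Field L] [Algebra K L]
    [Module.Finite K L] : Nonempty (L →ₐ[K] K) := by
  haveI : Algebra.IsAlgebraic K L := Algebra.IsAlgebraic.of_finite K L
  exact ⟨IsAlgClosed.lift⟩

theorem exists_point {K A : Type*} [Field K] [IsAlgClosed K] [CommRing A] [Nontrivial A]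
    [Algebra K A] [Algebra.FiniteType K A] : Nonempty (A →ₐ[K] K) := by
  obtain ⟨m, hm⟩ := Ideal.exists_maximal A
  letI := Ideal.Quotient.field m
  haveI : Algebra.FiniteType K (A ⧸ m) :=
    Algebra.FiniteType.of_surjective (Ideal.Quotient.mkₐ K m) (Ideal.Quotient.mkₐ_surjective K m)
  haveI : Module.Finite K (A ⧸ m) := finite_of_finite_type_of_isJacobsonRing K (A ⧸ m)
  obtain ⟨f⟩ := exists_point_field (K := K) (L := A ⧸ m)
  exact ⟨f.comp (Ideal.Quotient.mkₐ K m)⟩

/-- Nullstellensatz: a finitely generated algebra over an algebraically closed field `K` inside a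
field has a `K`-point at which a given nonzero element does not vanish. -/
theorem exists_retraction {K Ω : Type*} [Field K] [IsAlgClosed K] [Field Ω] [Algebra K Ω]
    (S : Set Ω) (hS : S.Finite) (W : Ω) (hW : W ≠ 0) (hWS : W ∈ Algebra.adjoin K S) :
    ∃ s : Algebra.adjoin K S →ₐ[K] K, s ⟨W, hWS⟩ ≠ 0 := by
  set T : Set Ω := insert W⁻¹ S with hT
  have hTfin : T.Finite := hS.insert _
  have hST : Algebra.adjoin K S ≤ Algebra.adjoin K T := Algebra.adjoin_mono (Set.subset_insert _ _)
  haveI hft : Algebra.FiniteType K (Algebra.adjoin K T) :=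
    (Subalgebra.fg_iff_finiteType _).1 ⟨hTfin.toFinset, by simp⟩
  obtain ⟨g⟩ := exists_point (K := K) (A := Algebra.adjoin K T)
  refine ⟨g.comp (Subalgebra.inclusion hST), ?_⟩
  intro h0
  have hWi : W⁻¹ ∈ Algebra.adjoin K T := Algebra.subset_adjoin (Set.mem_insert _ _)
  have h1 : g (Subalgebra.inclusion hST ⟨W, hWS⟩) * g ⟨W⁻¹, hWi⟩ = 1 := by
    rw [← map_mul]
    have : (Subalgebra.inclusion hST ⟨W, hWS⟩ : Algebra.adjoin K T) * ⟨W⁻¹, hWi⟩ = 1 := by
      apply Subtype.ext
      simp [hW]
    rw [this, map_one]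
  have h0' : g (Subalgebra.inclusion hST ⟨W, hWS⟩) = 0 := h0
  rw [h0', zero_mul] at h1
  exact zero_ne_one h1

theorem false_of_units {A : Type*} [CommRing A] [Nontrivial A] [Algebra.FiniteType ℤ A]
    (hunit : ∀ p : ℕ, p.Prime → IsUnit ((p : ℕ) : A)) : False := by
  obtain ⟨m, hm⟩ := Ideal.exists_maximal A
  letI := Ideal.Quotient.field m
  haveI : Algebra.FiniteType ℤ (A ⧸ m) :=
    Algebra.FiniteType.of_surjective (Ideal.Quotient.mkₐ ℤ m) (Ideal.Quotient.mkₐ_surjective ℤ m)
  haveI := isJacobsonRing_int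
  haveI : Module.Finite ℤ (A ⧸ m) := finite_of_finite_type_of_isJacobsonRing ℤ (A ⧸ m)
  have hp0 : ∀ p : ℕ, p.Prime → ((p : ℕ) : A ⧸ m) ≠ 0 := by
    intro p hp
    have := (hunit p hp).map (Ideal.Quotient.mk m)
    rw [map_natCast] at this
    exact this.ne_zero
  obtain ⟨q, hq⟩ := CharP.exists (A ⧸ m)
  rcases CharP.char_is_prime_or_zero (A ⧸ m) q with hqp | hq0
  · exact hp0 q hqp (CharP.cast_eq_zero _ q)
  · subst hq0
    haveI : CharZero (A ⧸ m) := CharP.charP_to_charZero _
    have key : ∀ (F : Type _) [Field F] [CharZero F] [Module.Finite ℤ F], False := by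
      intro F _ _ _
      have hint : IsIntegral ℤ ((2 : F)⁻¹) := Algebra.IsIntegral.isIntegral _
      have h2 : IsIntegral ℤ ((2 : ℚ)⁻¹) := by
        have : ((2 : F)⁻¹) = algebraMap ℚ F (2⁻¹) := by simp
        rw [this] at hint
        exact (isIntegral_algebraMap_iff (algebraMap ℚ F).injective).1 hint
      obtain ⟨k, hk⟩ := IsIntegrallyClosed.isIntegral_iff.1 h2
      have : (2 : ℚ) * (k : ℚ) = 1 := by
        have : (k : ℚ) = 2⁻¹ := by simpa using hk
        rw [this]; norm_num
      have h3 : (2 * k : ℤ) = 1 := by exact_mod_cast this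
      omega
    exact key (A ⧸ m)

/-- A finitely generated subring of a field of characteristic zero contains no nonzero element
divisible by all primes. -/
theorem eq_zero_of_dvd_primes {F : Type*} [Field F] (S : Set F) (hS : S.Finite)
    (a : F) (h : ∀ p : ℕ, p.Prime → ∃ b ∈ Algebra.adjoin ℤ S, a = p * b) : a = 0 := by
  by_contra ha
  set T : Set F := insert a⁻¹ S with hT
  have hTfin : T.Finite := hS.insert _
  have hST : Algebra.adjoin ℤ S ≤ Algebra.adjoin ℤ T := Algebra.adjoin_mono (Set.subset_insert _ _)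
  haveI hft : Algebra.FiniteType ℤ (Algebra.adjoin ℤ T) :=
    (Subalgebra.fg_iff_finiteType _).1 ⟨hTfin.toFinset, by simp⟩
  have hai : a⁻¹ ∈ Algebra.adjoin ℤ T := Algebra.subset_adjoin (Set.mem_insert _ _)
  refine false_of_units (A := Algebra.adjoin ℤ T) ?_
  intro p hp
  obtain ⟨b, hb, hab⟩ := h p hp
  refine IsUnit.of_mul_eq_one (⟨b, hST hb⟩ * ⟨a⁻¹, hai⟩ : Algebra.adjoin ℤ T) ?_
  apply Subtype.ext
  have : (p : F) * (b * a⁻¹) = 1 := by
    rw [← mul_assoc, ← hab]; field_simp
  simpa using this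

end Pool.Agent.Lib.MP_1e09a3_nt
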