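import Mathlib

/-!
Weak Kronecker theorem: if `A` is a finitely generated subring of a field of characteristic zero
and `b ∈ A` satisfies `b ^ p ≡ b (mod p A)` for all primes `p`, then `b` is rational.
The number field case is proved by comparing the discriminant of a box in `ℤ + ℤ b` with a
product of factorials.
-/

set_option linter.style.haveILetI false

open Finset Nat Polynomial

namespace Pool.Agent.Lib.MP_1e09a3_nt


theorem two_mul_padic_le {p j : ℕ} (hp : p.Prime) (hp3 : 3 ≤ p) :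
    2 * (j !).factorization p ≤ 3 * (j / p) := by
  haveI : Fact p.Prime := ⟨hp⟩
  have h1 : (j !).factorization p = ((j / p) !).factorization p + j / p := by
    rw [Nat.factorization_def _ hp, Nat.factorization_def _ hp]
    conv_lhs => rw [← Nat.div_add_mod j p]
    rw [padicValNat_factorial_mul_add _ (Nat.mod_lt _ hp.pos), padicValNat_factorial_mul]
  have h2 : 2 * ((j / p) !).factorization p ≤ j / p := by
    rw [Nat.factorization_def _ hp]
    have h3 := sub_one_mul_padicValNat_factorial (p := p) (j / p)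
    have h4 : 2 * padicValNat p (j / p)! ≤ (p - 1) * padicValNat p (j / p)! :=
      Nat.mul_le_mul_right _ (by omega)
    have h5 : (p - 1) * padicValNat p (j / p)! ≤ j / p := by rw [h3]; exact Nat.sub_le _ _
    omega
  omega

theorem factorial_sq_le (j M : ℕ) (hM : 0 < M) (h2 : 2 ∣ M) (P : Finset ℕ)
    (hP : ∀ p ∈ P, p.Prime) (hPj : ∀ p, p.Prime → p ≤ j → ¬ p ∣ M → p ∈ P) :
    (j !) ^ 2 ≤ M ^ (2 * j) * (∏ p ∈ P, p ^ (j / p)) ^ 3 := by
  have hfac : j ! = ∏ p ∈ (j !).primeFactors, p ^ (j !).factorization p :=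
    (Nat.prod_factorization_pow_eq_self (Nat.factorial_ne_zero j)).symm
  have hsplit : j ! = (∏ p ∈ (j !).primeFactors with p ∣ M, p ^ (j !).factorization p) *
      ∏ p ∈ (j !).primeFactors with ¬ p ∣ M, p ^ (j !).factorization p := by
    conv_lhs => rw [hfac]
    exact (Finset.prod_filter_mul_prod_filter_not _ _ _).symm
  have hA : (∏ p ∈ (j !).primeFactors with p ∣ M, p ^ (j !).factorization p) ≤ M ^ j := by
    calc (∏ p ∈ (j !).primeFactors with p ∣ M, p ^ (j !).factorization p)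
        ≤ ∏ p ∈ (j !).primeFactors with p ∣ M, p ^ j := by
          refine Finset.prod_le_prod' fun p hp => ?_
          rw [Finset.mem_filter, Nat.mem_primeFactors] at hp
          haveI : Fact p.Prime := ⟨hp.1.1⟩
          refine Nat.pow_le_pow_right hp.1.1.pos ?_
          rw [Nat.factorization_def _ hp.1.1]
          exact padicValNat_factorial_le p j
      _ = (∏ p ∈ (j !).primeFactors with p ∣ M, p) ^ j := Finset.prod_pow _ _ _
      _ ≤ M ^ j := by
          refine Nat.pow_le_pow_left ?_ _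
          refine le_trans ?_ (Nat.le_of_dvd hM (Nat.prod_primeFactors_dvd M))
          refine Finset.prod_le_prod_of_subset_of_one_le' ?_ ?_
          · intro p hp
            rw [Finset.mem_filter, Nat.mem_primeFactors] at hp
            rw [Nat.mem_primeFactors]
            exact ⟨hp.1.1, hp.2, hM.ne'⟩
          · intro p hp _
            exact (Nat.prime_of_mem_primeFactors hp).one_lt.le
  have hB : (∏ p ∈ (j !).primeFactors with ¬ p ∣ M, p ^ (j !).factorization p) ^ 2
      ≤ (∏ p ∈ P, p ^ (j / p)) ^ 3 := by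
    rw [← Finset.prod_pow, ← Finset.prod_pow]
    refine le_trans (Finset.prod_le_prod' (g := fun p => (p ^ (j / p)) ^ 3) fun p hp => ?_) ?_
    · rw [Finset.mem_filter, Nat.mem_primeFactors] at hp
      rw [← pow_mul, ← pow_mul]
      refine Nat.pow_le_pow_right hp.1.1.pos ?_
      have hp3 : 3 ≤ p := by
        have := hp.1.1.two_le
        rcases this.eq_or_lt with h | h
        · exact absurd (h ▸ h2) hp.2
        · exact h
      have := two_mul_padic_le (j := j) hp.1.1 hp3
      omega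
    · refine Finset.prod_le_prod_of_subset_of_one_le' ?_ ?_
      · intro p hp
        rw [Finset.mem_filter, Nat.mem_primeFactors] at hp
        exact hPj p hp.1.1 ((hp.1.1.dvd_factorial).1 hp.1.2.1) hp.2
      · intro p hp _
        exact Nat.one_le_pow _ _ (Nat.one_le_pow _ _ (hP p hp).pos)
  calc (j !) ^ 2 = (∏ p ∈ (j !).primeFactors with p ∣ M, p ^ (j !).factorization p) ^ 2 *
      (∏ p ∈ (j !).primeFactors with ¬ p ∣ M, p ^ (j !).factorization p) ^ 2 := by
        conv_lhs => rw [hsplit]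
        rw [mul_pow]
    _ ≤ (M ^ j) ^ 2 * (∏ p ∈ P, p ^ (j / p)) ^ 3 :=
        Nat.mul_le_mul (Nat.pow_le_pow_left hA 2) hB
    _ = M ^ (2 * j) * (∏ p ∈ P, p ^ (j / p)) ^ 3 := by rw [← pow_mul, mul_comm j 2]

theorem log_factorial_lower (j m : ℕ) (hjm : j < m) :
    (j : ℝ) * Real.log m - m ≤ Real.log (j ! : ℝ) := by
  have hm : (0 : ℝ) < m := by exact_mod_cast (Nat.zero_le j).trans_lt hjm
  rcases Nat.eq_zero_or_pos j with rfl | hj
  · simp
  · have hj' : (0 : ℝ) < j := by exact_mod_cast hj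
    have h1 := Stirling.le_log_factorial_stirling (n := j) hj.ne'
    have h2 : 0 ≤ Real.log (j : ℝ) := Real.log_nonneg (by exact_mod_cast hj)
    have h3 : 0 ≤ Real.log (2 * Real.pi) := Real.log_nonneg (by nlinarith [Real.pi_gt_three])
    have h4 : Real.log ((m : ℝ) / j) ≤ m / j - 1 := Real.log_le_sub_one_of_pos (by positivity)
    rw [Real.log_div hm.ne' hj'.ne'] at h4
    have h5 : (j : ℝ) * (Real.log m - Real.log j) ≤ m - j := by
      calc (j : ℝ) * (Real.log m - Real.log j) ≤ j * (m / j - 1) := by gcongr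
        _ = m - j := by field_simp
    linarith

theorem asymptotic_contradiction (M H : ℕ) (hM : 0 < M) (hH : 0 < H)
    (h : ∀ X : ℕ, 1 ≤ X → (∏ j ∈ range ((X + 1) ^ 2), (j !) ^ 2)
      ≤ (M ^ 2 * (X * H) ^ 3) ^ (((X + 1) ^ 2 * ((X + 1) ^ 2 - 1)) / 2)) : False := by
  have key : ∀ X : ℕ, 1 ≤ X →
      Real.log X ≤ 8 + 2 * Real.log M + 3 * Real.log H := by
    intro X hX
    set m : ℕ := (X + 1) ^ 2 with hm
    have hm4 : 4 ≤ m := by rw [hm]; nlinarith
    have hX' : (0 : ℝ) < X := by exact_mod_cast hX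
    have hM' : (0 : ℝ) < M := by exact_mod_cast hM
    have hH' : (0 : ℝ) < H := by exact_mod_cast hH
    have h0 := h X hX
    rw [← hm] at h0
    set s : ℕ := m * (m - 1) / 2 with hs
    have hsum : ∑ j ∈ range m, j = s := by rw [Finset.sum_range_id]
    have h2s : 2 * s = m * (m - 1) := by
      rw [hs]; exact Nat.mul_div_cancel' (Nat.even_mul_pred_self m).two_dvd
    have h0' : (∏ j ∈ range m, ((j ! : ℝ)) ^ 2) ≤ ((M : ℝ) ^ 2 * (X * H) ^ 3) ^ s := by
      exact_mod_cast h0
    have h1 := Real.log_le_log (by positivity) h0'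
    rw [Real.log_prod (fun j _ => by positivity), Real.log_pow,
      Real.log_mul (by positivity) (by positivity), Real.log_pow, Real.log_pow,
      Real.log_mul (by positivity) (by positivity)] at h1
    have h2 : ∑ j ∈ range m, (2 * ((j : ℝ) * Real.log m - m)) ≤
        ∑ j ∈ range m, Real.log ((j ! : ℝ) ^ 2) := by
      refine Finset.sum_le_sum fun j hj => ?_
      rw [Real.log_pow]
      have := log_factorial_lower j m (Finset.mem_range.1 hj)
      push_cast
      linarith
    have h3 : ∑ j ∈ range m, (2 * ((j : ℝ) * Real.log m - m)) = 2 * (s * Real.log m - m * m) := by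
      rw [← Finset.mul_sum, Finset.sum_sub_distrib, ← Finset.sum_mul]
      have : ∑ j ∈ range m, (j : ℝ) = s := by rw [← hsum]; push_cast; rfl
      rw [this]
      simp
    have h4 : (m : ℝ) * m ≤ 4 * s := by
      have : m * m ≤ 4 * s := by
        have : 4 * s = 2 * (m * (m - 1)) := by rw [← h2s]; ring
        rw [this]
        obtain ⟨k, hk⟩ : ∃ k, m = k + 1 := ⟨m - 1, by omega⟩
        rw [hk, Nat.add_sub_cancel]
        have : 3 ≤ k := by omega
        nlinarith
      exact_mod_cast this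
    have hspos : (0 : ℝ) < s := by
      have h4m : (4 : ℝ) ≤ m := by exact_mod_cast hm4
      have h16 : (0 : ℝ) < (m : ℝ) * m := by positivity
      linarith
    have h5 : 2 * (s * Real.log m - 4 * s) ≤
        s * (2 * Real.log M + 3 * (Real.log X + Real.log H)) := by
      have : (2 : ℝ) * (s * Real.log m - m * m) ≤
        s * (2 * Real.log M + 3 * (Real.log X + Real.log H)) := by
        rw [← h3]
        refine h2.trans (h1.trans (le_of_eq ?_))
        push_cast
        ring
      linarith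
    have h6 : 2 * Real.log m - 8 ≤ 2 * Real.log M + 3 * (Real.log X + Real.log H) := by
      have h7 : (s : ℝ) * (2 * Real.log m - 8) ≤
        s * (2 * Real.log M + 3 * (Real.log X + Real.log H)) := by linarith
      exact le_of_mul_le_mul_left h7 hspos
    have h8 : 2 * Real.log X ≤ Real.log m := by
      rw [hm]
      push_cast
      rw [Real.log_pow]
      push_cast
      have : Real.log X ≤ Real.log (X + 1) := Real.log_le_log hX' (by linarith)
      linarith
    linarith
  obtain ⟨X, hX⟩ := exists_nat_gt (Real.exp (8 + 2 * Real.log M + 3 * Real.log H))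
  have hX0 : (0 : ℝ) < X := (Real.exp_pos _).trans hX
  have h1 := key X (by exact_mod_cast hX0)
  have h2 := (Real.lt_log_iff_exp_lt hX0).2 hX
  linarith

theorem natDegree_aux {R : Type*} [CommRing R] [Nontrivial R] (p : ℕ) (hp : 2 ≤ p) :
    (X ^ p - X : R[X]).Monic ∧ (X ^ p - X : R[X]).natDegree = p := by
  have h1 : (X : R[X]).natDegree < (X ^ p : R[X]).natDegree := by
    rw [natDegree_X, natDegree_X_pow]; omega
  have h2 : (X : R[X]).degree < (X ^ p : R[X]).degree := by
    rw [degree_X, degree_X_pow]; exact_mod_cast (by omega : 1 < p)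
  refine ⟨(monic_X_pow p).sub_of_left h2, ?_⟩
  rw [natDegree_sub_eq_left_of_natDegree_lt h1, natDegree_X_pow]

theorem vandermonde_div {F : Type*} [Field F] (A : Subalgebra ℤ F) {m : ℕ} (α : Fin m → F)
    (hα : ∀ i, α i ∈ A) (p : ℕ) (hp : p.Prime)
    (hpow : ∀ i, ∃ c ∈ A, α i ^ p - α i = p * c) :
    ∃ V ∈ A, (Matrix.vandermonde α).det = (p : F) ^ (∑ j ∈ range m, j / p) * V := by
  choose c hcA hc using hpow
  obtain ⟨hmon, hdeg⟩ := natDegree_aux (R := F) p hp.two_le
  let g : Fin m → F[X] := fun j => (X ^ p - X) ^ ((j : ℕ) / p) * X ^ ((j : ℕ) % p)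
  have hg1 : ∀ i, (g i).natDegree = i := by
    intro i
    simp only [g]
    rw [(hmon.pow _).natDegree_mul (monic_X_pow _), hmon.natDegree_pow, hdeg, natDegree_X_pow]
    rw [mul_comm]
    exact Nat.div_add_mod _ _
  have hg2 : ∀ i, (g i).Monic := fun i => (hmon.pow _).mul (monic_X_pow _)
  rw [Matrix.det_eval_matrixOfPolynomials_eq_det_vandermonde α g hg1 hg2]
  let e : Matrix (Fin m) (Fin m) A := Matrix.of fun i j =>
    (⟨c i, hcA i⟩ : A) ^ ((j : ℕ) / p) * (⟨α i, hα i⟩ : A) ^ ((j : ℕ) % p)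
  refine ⟨(e.det : A), e.det.2, ?_⟩
  have he : (Matrix.of fun i j => eval (α i) (g j))
      = Matrix.of fun (i j : Fin m) => (p : F) ^ ((j : ℕ) / p) * (e.map (Subtype.val)) i j := by
    ext i j
    simp only [g, e, Matrix.of_apply, eval_mul, eval_pow, eval_sub, eval_X, Matrix.map_apply]
    rw [hc i]
    push_cast
    rw [mul_pow]
    ring
  rw [he, Matrix.det_mul_row]
  congr 1
  · rw [Finset.prod_pow_eq_pow_sum]
    congr 1
    exact (Finset.sum_range fun j => j / p).symm
  · have := (RingHom.map_det (A.val : A →+* F) e)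
    exact this.symm


theorem int_pow_sub (x : ℤ) (p : ℕ) (hp : p.Prime) : ∃ k : ℤ, x ^ p - x = p * k := by
  haveI : Fact p.Prime := ⟨hp⟩
  have h : ((x ^ p - x : ℤ) : ZMod p) = 0 := by
    push_cast
    rw [ZMod.pow_card, sub_self]
  rw [ZMod.intCast_zmod_eq_zero_iff_dvd] at h
  exact h

theorem pow_sub_mem {F : Type*} [Field F] (A : Subalgebra ℤ F) (b : F) (hb : b ∈ A) (p : ℕ)
    (hp : p.Prime) (h : ∃ c ∈ A, b ^ p - b = p * c) (x y : ℤ) :
    ∃ c ∈ A, ((x : F) + y * b) ^ p - (x + y * b) = p * c := by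
  obtain ⟨c, hcA, hc⟩ := h
  obtain ⟨kx, hkx⟩ := int_pow_sub x p hp
  obtain ⟨ky, hky⟩ := int_pow_sub y p hp
  have hint : ∀ n : ℤ, (n : F) ∈ A := fun n => by
    have := A.algebraMap_mem n
    simp
  obtain ⟨r, hr⟩ := exists_add_pow_prime_eq hp (⟨(x : F), hint x⟩ : A)
    (⟨(y : F) * b, A.mul_mem (hint y) hb⟩ : A)
  have hr' := congrArg (Subtype.val) hr
  push_cast at hr'
  have hkx' : (x : F) ^ p - x = p * kx := by exact_mod_cast congrArg (fun n : ℤ => (n : F)) hkx
  have hky' : (y : F) ^ p - y = p * ky := by exact_mod_cast congrArg (fun n : ℤ => (n : F)) hky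
  refine ⟨kx + (ky * b ^ p + y * c) + x * (y * b) * r, ?_, ?_⟩
  · refine A.add_mem (A.add_mem (hint _) (A.add_mem (A.mul_mem (hint _) (A.pow_mem hb _))
      (A.mul_mem (hint _) hcA))) (A.mul_mem (A.mul_mem (hint _) (A.mul_mem (hint _) hb)) r.2)
  · rw [hr']
    linear_combination hkx' + b ^ p * hky' + (y : F) * hc


theorem norm_dvd {K : Type*} [Field K] [CharZero K] [FiniteDimensional ℚ K]
    (V : K) (nV : ℤ) (hV : Algebra.norm ℚ V = nV)
    (p k N : ℕ) (hp : p.Prime) (hpN : ¬ p ∣ N)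
    (h : ∃ l : ℕ, IsIntegral ℤ ((N : K) ^ l * (V / (p : K) ^ k))) :
    ((p : ℤ) ^ (k * Module.finrank ℚ K)) ∣ nV := by
  obtain ⟨l, hl⟩ := h
  have h1 := Algebra.isIntegral_norm ℚ hl
  obtain ⟨z, hz⟩ := IsIntegrallyClosed.isIntegral_iff.1 h1
  set d := Module.finrank ℚ K with hd
  have hp0 : (p : ℚ) ≠ 0 := by exact_mod_cast hp.ne_zero
  have h3 : ∀ n : ℕ, Algebra.norm ℚ (n : K) = (n : ℚ) ^ d := by
    intro n
    have := Algebra.norm_algebraMap (S := K) (n : ℚ)
    rw [← hd] at this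
    simpa using this
  have hpK : (p : K) ≠ 0 := by exact_mod_cast hp.ne_zero
  have h2' : Algebra.norm ℚ (V / (p : K) ^ k) = nV / (p : ℚ) ^ (k * d) := by
    have h6 : Algebra.norm ℚ (V / (p : K) ^ k) * (Algebra.norm ℚ (p : K)) ^ k = nV := by
      rw [← map_pow, ← map_mul, div_mul_cancel₀ _ (pow_ne_zero _ hpK), hV]
    rw [h3, ← pow_mul, mul_comm d k] at h6
    rw [eq_div_iff (pow_ne_zero _ hp0), h6]
  have h2 : Algebra.norm ℚ ((N : K) ^ l * (V / (p : K) ^ k))
      = (N : ℚ) ^ (l * d) * (nV / (p : ℚ) ^ (k * d)) := by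
    rw [map_mul, map_pow, h2', h3, ← pow_mul, mul_comm d l]
  rw [h2] at hz
  have h4 : (N : ℤ) ^ (l * d) * nV = z * (p : ℤ) ^ (k * d) := by
    have : (N : ℚ) ^ (l * d) * nV = z * (p : ℚ) ^ (k * d) := by
      have hz' : (z : ℚ) = (N : ℚ) ^ (l * d) * (nV / (p : ℚ) ^ (k * d)) := by simpa using hz
      rw [hz']
      field_simp
    exact_mod_cast this
  have h5 : IsCoprime ((p : ℤ) ^ (k * d)) ((N : ℤ) ^ (l * d)) := by
    apply IsCoprime.pow
    rw [Nat.isCoprime_iff_coprime]
    exact (Nat.Prime.coprime_iff_not_dvd hp).2 hpN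
  exact h5.dvd_of_dvd_mul_left ⟨z, by rw [h4]; ring⟩

theorem prod_pow_bound (X H : ℕ) (m : ℕ) (v : Fin m → ℂ)
    (hv : ∀ i j, ‖v i - v j‖ ≤ (X * H : ℕ)) (_hXH : 1 ≤ X * H) :
    ‖(Matrix.vandermonde v).det‖ ≤ ((X * H : ℕ) : ℝ) ^ (m * (m - 1) / 2) := by
  rw [Matrix.det_vandermonde, norm_prod]
  calc ∏ i, ‖∏ j ∈ Finset.Ioi i, (v j - v i)‖
      ≤ ∏ i : Fin m, ((X * H : ℕ) : ℝ) ^ (m - 1 - (i : ℕ)) := by
        refine Finset.prod_le_prod (fun _ _ => norm_nonneg _) fun i _ => ?_
        rw [norm_prod]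
        calc ∏ j ∈ Finset.Ioi i, ‖v j - v i‖ ≤ ∏ j ∈ Finset.Ioi i, ((X * H : ℕ) : ℝ) :=
              Finset.prod_le_prod (fun _ _ => norm_nonneg _) fun j _ => hv j i
          _ = ((X * H : ℕ) : ℝ) ^ (m - 1 - (i : ℕ)) := by
              rw [Finset.prod_const, Fin.card_Ioi]
    _ = ((X * H : ℕ) : ℝ) ^ (m * (m - 1) / 2) := by
        rw [Finset.prod_pow_eq_pow_sum]
        congr 1
        rw [← Finset.sum_range (fun i => m - 1 - i), ← Finset.sum_range_id,
          Finset.sum_range_reflect (fun i => i) m]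

theorem kronecker_nf {F : Type*} [Field F] [CharZero F] (A : Subalgebra ℤ F) (N : ℕ)
    (hN : 0 < N) (hA : ∀ a ∈ A, ∃ l : ℕ, IsIntegral ℤ ((N : F) ^ l * a)) (b : F) (hbA : b ∈ A)
    (hb : IsIntegral ℤ b) (h : ∀ p : ℕ, p.Prime → ∃ c ∈ A, b ^ p - b = p * c) :
    ∃ q : ℚ, (q : F) = b := by
  by_contra hirr
  push Not at hirr
  let K := IntermediateField.adjoin ℚ {b}
  let β : K := IntermediateField.AdjoinSimple.gen ℚ b
  have hβb : (β : F) = b := IntermediateField.AdjoinSimple.coe_gen ℚ b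
  haveI : FiniteDimensional ℚ K := IntermediateField.adjoin.finiteDimensional hb.tower_top
  set d := Module.finrank ℚ K with hd
  have hd0 : d ≠ 0 := Module.finrank_pos.ne'
  have hβint : IsIntegral ℤ β := by
    have : IsIntegral ℤ (algebraMap K F β) := by
      have h1 : algebraMap K F β = b := hβb
      rw [h1]; exact hb
    exact (isIntegral_algebraMap_iff (algebraMap K F).injective).1 this
  obtain ⟨H, hH⟩ : ∃ H : ℕ, ∀ σ : K →ₐ[ℚ] ℂ, 1 + ‖σ β‖ ≤ H := by
    obtain ⟨B, hB⟩ := (Set.finite_range fun σ : K →ₐ[ℚ] ℂ => 1 + ‖σ β‖).bddAbove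
    obtain ⟨H, hH⟩ := exists_nat_ge B
    exact ⟨H, fun σ => (hB ⟨σ, rfl⟩).trans hH⟩
  have hH1 : 0 < H := by
    have σ : K →ₐ[ℚ] ℂ := IsAlgClosed.lift
    have h1 := hH σ
    have : (0 : ℝ) < H := by linarith [norm_nonneg (σ β)]
    exact_mod_cast this
  refine asymptotic_contradiction (2 * N) H (by omega) hH1 ?_
  intro X hX
  set m := (X + 1) ^ 2 with hm
  set s := m * (m - 1) / 2 with hs
  -- the points
  let xx : Fin m → ℕ := fun i => (i : ℕ) / (X + 1)
  let yy : Fin m → ℕ := fun i => (i : ℕ) % (X + 1)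
  have hxx : ∀ i, xx i ≤ X := by
    intro i
    have h1 : (i : ℕ) < (X + 1) * (X + 1) := lt_of_lt_of_eq i.2 (by rw [hm, sq])
    exact Nat.lt_succ_iff.1 (Nat.div_lt_of_lt_mul h1)
  have hyy : ∀ i, yy i ≤ X := fun i => Nat.lt_succ_iff.1 (Nat.mod_lt _ (Nat.succ_pos X))
  let α : Fin m → K := fun i => (xx i : K) + (yy i : K) * β
  have hαinj : Function.Injective α := by
    intro i j hij
    have hij' : ((xx i : F)) + (yy i) * b = (xx j) + (yy j) * b := by
      have := congrArg (algebraMap K F) hij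
      simp only [α, map_add, map_mul, map_natCast] at this
      have h1 : algebraMap K F β = b := hβb
      rwa [h1] at this
    have hy : yy i = yy j := by
      by_contra hne
      have hne' : ((yy j : F) - yy i) ≠ 0 := by
        intro h0
        apply hne
        have : (yy j : F) = yy i := sub_eq_zero.1 h0
        exact_mod_cast this.symm
      apply hirr (((xx i : ℚ) - xx j) / ((yy j : ℚ) - yy i))
      push_cast
      rw [div_eq_iff hne']
      linear_combination hij'
    have hx : xx i = xx j := by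
      rw [hy] at hij'
      have := add_right_cancel hij'
      exact_mod_cast this
    apply Fin.ext
    have h1 := Nat.div_add_mod (i : ℕ) (X + 1)
    have h2 := Nat.div_add_mod (j : ℕ) (X + 1)
    have hx' : (i : ℕ) / (X + 1) = (j : ℕ) / (X + 1) := hx
    have hy' : (i : ℕ) % (X + 1) = (j : ℕ) % (X + 1) := hy
    rw [← h1, ← h2, hx', hy']
  let V : K := (Matrix.vandermonde α).det
  have hV0 : V ≠ 0 := Matrix.det_vandermonde_ne_zero_iff.2 hαinj
  have hαint : ∀ i, IsIntegral ℤ (α i) := by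
    intro i
    have hn : ∀ n : ℕ, IsIntegral ℤ ((n : ℕ) : K) := fun n => by
      have := isIntegral_algebraMap (R := ℤ) (A := K) (x := (n : ℤ))
      simpa using this
    exact (hn _).add ((hn _).mul hβint)
  have hVint : IsIntegral ℤ V := by
    simp only [V]
    rw [Matrix.det_vandermonde]
    exact IsIntegral.prod _ fun i _ => IsIntegral.prod _ fun j _ => (hαint j).sub (hαint i)
  obtain ⟨nV, hnV⟩ := IsIntegrallyClosed.isIntegral_iff.1 (Algebra.isIntegral_norm ℚ hVint)
  have hnV' : Algebra.norm ℚ V = (nV : ℚ) := by rw [← hnV]; simp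
  have hnV0 : nV ≠ 0 := by
    rintro rfl
    apply hV0
    rw [← Algebra.norm_eq_zero_iff (R := ℚ), hnV']
    simp
  set P : Finset ℕ := (Finset.range (m + 1)).filter fun p => p.Prime ∧ ¬ p ∣ 2 * N with hP
  have hPp : ∀ p ∈ P, p.Prime := fun p hp => (Finset.mem_filter.1 hp).2.1
  have hPN : ∀ p ∈ P, ¬ p ∣ N := fun p hp hpn =>
    (Finset.mem_filter.1 hp).2.2 (hpn.mul_left 2)
  let k : ℕ → ℕ := fun p => ∑ j ∈ range m, j / p
  -- divisibility
  have hdvd : ∀ p ∈ P, ((p : ℤ) ^ (k p * d)) ∣ nV := by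
    intro p hp
    have hpp := hPp p hp
    obtain ⟨V', hV'A, hV'⟩ := vandermonde_div A (fun i => (algebraMap K F) (α i)) (by
      intro i
      simp only [α, map_add, map_mul, map_natCast]
      have h1 : algebraMap K F β = b := hβb
      rw [h1]
      exact A.add_mem (A.natCast_mem _) (A.mul_mem (A.natCast_mem _) hbA)) p hpp (by
      intro i
      have := pow_sub_mem A b hbA p hpp (h p hpp) (xx i) (yy i)
      simp only [α, map_add, map_mul, map_natCast]
      have h1 : algebraMap K F β = b := hβb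
      rw [h1]
      simpa using this)
    have hVF : (Matrix.vandermonde fun i => (algebraMap K F) (α i)).det = algebraMap K F V := by
      simp only [V]
      rw [RingHom.map_det]
      congr 1
    rw [hVF] at hV'
    have hpF : (p : F) ≠ 0 := by exact_mod_cast hpp.ne_zero
    obtain ⟨l, hl⟩ := hA V' hV'A
    refine norm_dvd V nV hnV' p (k p) N hpp (hPN p hp) ⟨l, ?_⟩
    have h2 : algebraMap K F ((N : K) ^ l * (V / (p : K) ^ (k p))) = (N : F) ^ l * V' := by
      rw [map_mul, map_pow, map_div₀, map_pow, map_natCast, map_natCast, hV']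
      congr 1
      rw [mul_div_assoc, mul_comm, div_mul_cancel₀ _ (pow_ne_zero _ hpF)]
    rw [← h2] at hl
    exact (isIntegral_algebraMap_iff (algebraMap K F).injective).1 hl
  have hprod : (∏ p ∈ P, (p : ℤ) ^ (k p * d)) ∣ nV := by
    refine Finset.prod_dvd_of_coprime ?_ hdvd
    intro p hp q hq hpq
    apply IsCoprime.pow
    rw [Nat.isCoprime_iff_coprime]
    exact (Nat.coprime_primes (hPp p hp) (hPp q hq)).2 hpq
  have hle1 : (∏ p ∈ P, p ^ k p) ^ d ≤ nV.natAbs := by
    have h1 := Int.natAbs_dvd_natAbs.2 hprod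
    have h2 := Nat.le_of_dvd (Int.natAbs_pos.2 hnV0) h1
    have h3 : (∏ p ∈ P, (p : ℤ) ^ (k p * d)).natAbs = (∏ p ∈ P, p ^ k p) ^ d := by
      rw [← Finset.prod_pow]
      have : (∏ p ∈ P, (p : ℤ) ^ (k p * d)) = ((∏ p ∈ P, (p ^ k p) ^ d : ℕ) : ℤ) := by
        push_cast
        exact Finset.prod_congr rfl fun p _ => by rw [pow_mul]
      rw [this, Int.natAbs_natCast]
    rwa [h3] at h2
  have hXH : 1 ≤ X * H := Nat.one_le_iff_ne_zero.2 (by positivity)
  have hle2 : (nV.natAbs : ℝ) ≤ ((((X * H : ℕ) : ℝ)) ^ s) ^ d := by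
    have h1 := Algebra.norm_eq_prod_embeddings ℚ ℂ V
    have h2 : ‖algebraMap ℚ ℂ (Algebra.norm ℚ V)‖ = (nV.natAbs : ℝ) := by
      rw [hnV']
      simp [Nat.cast_natAbs]
    rw [← h2, h1, norm_prod]
    have h3 : ∀ σ : K →ₐ[ℚ] ℂ, ‖σ V‖ ≤ (((X * H : ℕ) : ℝ)) ^ s := by
      intro σ
      have h4 : σ V = (Matrix.vandermonde fun i => σ (α i)).det := by
        have := RingHom.map_det (σ : K →+* ℂ) (Matrix.vandermonde α)
        refine this.trans ?_
        congr 1
        ext i j
        simp [Matrix.vandermonde_apply]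
      rw [h4]
      refine prod_pow_bound X H m _ ?_ hXH
      intro i j
      simp only [α, map_add, map_mul, map_natCast]
      have h5 : ((xx i : ℂ) + yy i * σ β) - (xx j + yy j * σ β)
          = ((xx i : ℂ) - xx j) + ((yy i : ℂ) - yy j) * σ β := by ring
      rw [h5]
      have habs : ∀ a c : ℕ, a ≤ X → c ≤ X → ‖((a : ℂ) - c)‖ ≤ X := by
        intro a c ha hc
        have : ((a : ℂ) - c) = (((a : ℝ) - c : ℝ) : ℂ) := by push_cast; ring
        rw [this, Complex.norm_real, Real.norm_eq_abs, abs_le]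
        have ha' : (a : ℝ) ≤ X := by exact_mod_cast ha
        have hc' : (c : ℝ) ≤ X := by exact_mod_cast hc
        constructor <;> linarith [Nat.cast_nonneg (α := ℝ) a, Nat.cast_nonneg (α := ℝ) c]
      calc ‖((xx i : ℂ) - xx j) + ((yy i : ℂ) - yy j) * σ β‖
          ≤ ‖((xx i : ℂ) - xx j)‖ + ‖((yy i : ℂ) - yy j) * σ β‖ := norm_add_le _ _
        _ ≤ X + X * ‖σ β‖ := by
            rw [norm_mul]
            gcongr
            · exact habs _ _ (hxx i) (hxx j)
            · exact habs _ _ (hyy i) (hyy j)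
        _ = X * (1 + ‖σ β‖) := by ring
        _ ≤ X * H := by gcongr; exact hH σ
        _ = ((X * H : ℕ) : ℝ) := by push_cast; ring
    calc ∏ σ : K →ₐ[ℚ] ℂ, ‖σ V‖ ≤ ∏ σ : K →ₐ[ℚ] ℂ, (((X * H : ℕ) : ℝ)) ^ s :=
          Finset.prod_le_prod (fun _ _ => norm_nonneg _) fun σ _ => h3 σ
      _ = ((((X * H : ℕ) : ℝ)) ^ s) ^ d := by
          rw [Finset.prod_const, Finset.card_univ, AlgHom.card]
  have hle3 : ∏ p ∈ P, p ^ k p ≤ (X * H) ^ s := by
    have h1 : ((∏ p ∈ P, p ^ k p : ℕ) : ℝ) ^ d ≤ ((((X * H : ℕ) : ℝ)) ^ s) ^ d := by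
      refine le_trans ?_ hle2
      exact_mod_cast hle1
    have h2 := le_of_pow_le_pow_left₀ hd0 (by positivity) h1
    exact_mod_cast h2
  -- factorials
  have hsum : ∑ j ∈ range m, j = s := by rw [Finset.sum_range_id]
  calc ∏ j ∈ range m, (j !) ^ 2
      ≤ ∏ j ∈ range m, ((2 * N) ^ (2 * j) * (∏ p ∈ P, p ^ (j / p)) ^ 3) := by
        refine Finset.prod_le_prod' fun j hj => ?_
        refine factorial_sq_le j (2 * N) (by omega) (dvd_mul_right _ _) P hPp ?_
        intro p hp hpj hpn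
        rw [hP, Finset.mem_filter, Finset.mem_range]
        have := Finset.mem_range.1 hj
        exact ⟨by omega, hp, hpn⟩
    _ = (2 * N) ^ (2 * s) * (∏ p ∈ P, p ^ k p) ^ 3 := by
        rw [Finset.prod_mul_distrib, Finset.prod_pow_eq_pow_sum, ← Finset.mul_sum, hsum,
          Finset.prod_pow, Finset.prod_comm]
        congr 2
        exact Finset.prod_congr rfl fun p _ => Finset.prod_pow_eq_pow_sum _ _ _
    _ ≤ (2 * N) ^ (2 * s) * ((X * H) ^ s) ^ 3 := by gcongr
    _ = ((2 * N) ^ 2 * (X * H) ^ 3) ^ s := by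
        rw [mul_pow ((2 * N) ^ 2), ← pow_mul (2 * N), ← pow_mul (X * H), ← pow_mul (X * H),
          mul_comm s 3]

end Pool.Agent.Lib.MP_1e09a3_nt
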