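import Pool.Agent.Lib.MP_1e09a3_nt.NS
import Pool.Agent.Lib.MP_1e09a3_nt.Kronecker

/-!
Weak Kronecker theorem for finitely generated subrings of an algebraically closed field of
characteristic zero.
-/

set_option linter.style.haveILetI false

open Polynomial

namespace Pool.Agent.Lib.MP_1e09a3_nt

theorem exists_denominator {R F : Type*} [CommRing R] [IsDomain R] [Field F] [Algebra R F]
    (S : Set F) (hS : S.Finite) (halg : ∀ s ∈ S, IsAlgebraic R s) :
    ∃ g : R, g ≠ 0 ∧ ∀ a ∈ Algebra.adjoin ℤ S, ∃ k : ℕ, IsIntegral R (g ^ k • a) := by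
  classical
  choose! y hy0 hy using fun s hs => (halg s hs).exists_integral_multiple
  refine ⟨∏ s ∈ hS.toFinset, y s, Finset.prod_ne_zero_iff.2 fun s hs =>
    hy0 s (hS.mem_toFinset.1 hs), ?_⟩
  set g := ∏ s ∈ hS.toFinset, y s with hg
  have hmono : ∀ (a : F) (k l : ℕ), IsIntegral R (g ^ k • a) → IsIntegral R (g ^ (l + k) • a) := by
    intro a k l h
    rw [pow_add, mul_smul]
    exact h.smul _
  intro a ha
  induction ha using Algebra.adjoin_induction with
  | mem x hx =>
    refine ⟨1, ?_⟩
    rw [pow_one, hg, ← Finset.mul_prod_erase _ _ (hS.mem_toFinset.2 hx), mul_comm, mul_smul]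
    exact (hy x hx).smul _
  | algebraMap n =>
    refine ⟨0, ?_⟩
    rw [pow_zero, one_smul]
    have : (algebraMap ℤ F n) = algebraMap R F (n : R) := by simp
    rw [this]
    exact isIntegral_algebraMap
  | add x z _ _ hx hz =>
    obtain ⟨k, hk⟩ := hx
    obtain ⟨l, hl⟩ := hz
    refine ⟨l + k, ?_⟩
    rw [smul_add]
    exact (hmono x k l hk).add (by rw [add_comm l k]; exact hmono z l k hl)
  | mul x z _ _ hx hz =>
    obtain ⟨k, hk⟩ := hx
    obtain ⟨l, hl⟩ := hz
    refine ⟨k + l, ?_⟩
    have : g ^ (k + l) • (x * z) = (g ^ k • x) * (g ^ l • z) := by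
      rw [pow_add, smul_mul_smul_comm]
    rw [this]
    exact hk.mul hl

/-- retraction to an algebraically closed subfield `L` -/
theorem descend {L C : Type*} [Field L] [IsAlgClosed L] [Field C] [Algebra L C]
    (S : Set C) (hS : S.Finite) (b : L)
    (h : ∀ p : ℕ, p.Prime → ∃ c ∈ Algebra.adjoin ℤ S,
      (algebraMap L C b) ^ p - algebraMap L C b = p * c) :
    ∃ S' : Set L, S'.Finite ∧
      ∀ p : ℕ, p.Prime → ∃ c ∈ Algebra.adjoin ℤ S', b ^ p - b = p * c := by
  obtain ⟨s, -⟩ := exists_retraction (K := L) S hS (1 : C) one_ne_zero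
    (Subalgebra.one_mem _)
  have hle : ∀ x ∈ Algebra.adjoin ℤ S, x ∈ Algebra.adjoin L S := by
    intro x hx
    induction hx using Algebra.adjoin_induction with
    | mem x hx => exact Algebra.subset_adjoin hx
    | algebraMap n =>
      rw [eq_intCast (algebraMap ℤ C) n]
      exact Subalgebra.intCast_mem _ n
    | add x z _ _ h1 h2 => exact Subalgebra.add_mem _ h1 h2
    | mul x z _ _ h1 h2 => exact Subalgebra.mul_mem _ h1 h2
  refine ⟨Set.range fun x : S => s ⟨x, Algebra.subset_adjoin x.2⟩, ?_, ?_⟩
  · haveI : Finite S := hS.to_subtype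
    exact Set.finite_range _
  · intro p hp
    obtain ⟨c, hc, hbc⟩ := h p hp
    have hmem : ∀ (c : C) (hc : c ∈ Algebra.adjoin ℤ S), s ⟨c, hle c hc⟩ ∈
        Algebra.adjoin ℤ (Set.range fun x : S => s ⟨x, Algebra.subset_adjoin x.2⟩) := by
      intro c hc
      induction hc using Algebra.adjoin_induction with
      | mem x hx => exact Algebra.subset_adjoin ⟨⟨x, hx⟩, rfl⟩
      | algebraMap n =>
        have : s ⟨algebraMap ℤ C n, hle _ (Subalgebra.algebraMap_mem _ n)⟩ = (n : L) := by
          have h1 : (⟨algebraMap ℤ C n, hle _ (Subalgebra.algebraMap_mem _ n)⟩ :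
              Algebra.adjoin L S) = (n : Algebra.adjoin L S) := by
            apply Subtype.ext; simp
          rw [h1, map_intCast]
        rw [this]
        exact Subalgebra.intCast_mem _ n
      | add x z hx hz h1 h2 =>
        have : s ⟨x + z, hle _ (Subalgebra.add_mem _ hx hz)⟩ =
            s ⟨x, hle _ hx⟩ + s ⟨z, hle _ hz⟩ := by
          rw [← map_add]; rfl
        rw [this]
        exact Subalgebra.add_mem _ h1 h2
      | mul x z hx hz h1 h2 =>
        have : s ⟨x * z, hle _ (Subalgebra.mul_mem _ hx hz)⟩ =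
            s ⟨x, hle _ hx⟩ * s ⟨z, hle _ hz⟩ := by
          rw [← map_mul]; rfl
        rw [this]
        exact Subalgebra.mul_mem _ h1 h2
    refine ⟨s ⟨c, hle c hc⟩, hmem c hc, ?_⟩
    have h3 : algebraMap L (Algebra.adjoin L S) (b ^ p - b)
        = (p : Algebra.adjoin L S) * ⟨c, hle c hc⟩ := by
      apply Subtype.ext
      have h5 : ((algebraMap L (Algebra.adjoin L S) (b ^ p - b) : Algebra.adjoin L S) : C)
          = algebraMap L C (b ^ p - b) := rfl
      have h6 : (((p : Algebra.adjoin L S) * ⟨c, hle c hc⟩ : Algebra.adjoin L S) : C)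
          = (p : C) * c := by simp
      rw [h5, h6, map_sub, map_pow, hbc]
    have h4 := congrArg s h3
    rw [AlgHom.commutes, map_mul, map_natCast] at h4
    exact h4

theorem kronecker {C : Type*} [Field C] [CharZero C] [IsAlgClosed C] (S : Set C)
    (hS : S.Finite) (b : C)
    (h : ∀ p : ℕ, p.Prime → ∃ c ∈ Algebra.adjoin ℤ S, b ^ p - b = p * c) :
    ∃ q : ℚ, (q : C) = b := by
  classical
  by_cases halg : IsAlgebraic ℚ b
  · -- the algebraic case
    let b' : algebraicClosure ℚ C := ⟨b, mem_algebraicClosure_iff.2 halg⟩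
    haveI : IsAlgClosed (algebraicClosure ℚ C) := (algebraicClosure.isAlgClosure ℚ C).isAlgClosed
    obtain ⟨S', hS', h'⟩ := descend (L := algebraicClosure ℚ C) S hS b' h
    have hZ : ∀ x : algebraicClosure ℚ C, IsAlgebraic ℤ x := by
      intro x
      rw [IsFractionRing.isAlgebraic_iff ℤ ℚ]
      have h1 : IsAlgebraic ℚ x := (algebraicClosure.isAlgebraic ℚ C).isAlgebraic x
      convert! h1
    obtain ⟨g, hg0, hg⟩ := exists_denominator (R := ℤ) (insert b' S') (hS'.insert _)
      (fun s _ => hZ s)
    obtain ⟨M, hM0, hM⟩ := (hZ b').exists_integral_multiple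
    have hbA : b' ∈ Algebra.adjoin ℤ (insert b' S') := Algebra.subset_adjoin (Set.mem_insert _ _)
    have hle : Algebra.adjoin ℤ S' ≤ Algebra.adjoin ℤ (insert b' S') :=
      Algebra.adjoin_mono (Set.subset_insert _ _)
    obtain ⟨q, hq⟩ := kronecker_nf (Algebra.adjoin ℤ (insert b' S')) g.natAbs
      (Int.natAbs_pos.2 hg0) (by
        intro a ha
        obtain ⟨k, hk⟩ := hg a ha
        refine ⟨k, ?_⟩
        have h1 : ((g.natAbs : ℕ) : algebraicClosure ℚ C) ^ k * a =
            ((g.natAbs : ℤ) ^ k) • a := by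
          rw [zsmul_eq_mul, Int.cast_pow, Int.cast_natCast]
        rw [h1]
        rcases Int.natAbs_eq g with h2 | h2
        · rw [← h2]; exact hk
        · have h3 : (g.natAbs : ℤ) = -g := by omega
          rw [h3, neg_pow, mul_smul]
          exact hk.smul _) (M • b') (Subalgebra.zsmul_mem _ hbA M) hM (by
        intro p hp
        obtain ⟨c, hc, hbc⟩ := h' p hp
        have := pow_sub_mem (Algebra.adjoin ℤ (insert b' S')) b' hbA p hp ⟨c, hle hc, hbc⟩ 0 M
        simpa [zsmul_eq_mul] using this)
    refine ⟨q / M, ?_⟩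
    have hq' : (q : C) = M * b := by
      have := congrArg (algebraMap (algebraicClosure ℚ C) C) hq
      rw [map_ratCast, map_zsmul, zsmul_eq_mul] at this
      exact this
    have hM' : (M : C) ≠ 0 := by exact_mod_cast hM0
    push_cast
    rw [hq']
    field_simp
  · -- the transcendental case
    exfalso
    have htr : Transcendental ℤ b := by
      intro hb
      exact halg ((IsFractionRing.isAlgebraic_iff ℤ ℚ C).1 hb)
    have hinj : Function.Injective (aeval b : ℤ[X] →ₐ[ℤ] C) :=
      transcendental_iff_injective.1 htr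
    let K := FractionRing ℤ[X]
    let ψ : K →+* C := IsFractionRing.lift (A := ℤ[X]) (g := (aeval b : ℤ[X] →ₐ[ℤ] C).toRingHom) hinj
    letI : Algebra K C := ψ.toAlgebra
    letI : Algebra ℤ[X] C := (aeval b : ℤ[X] →ₐ[ℤ] C).toRingHom.toAlgebra
    haveI : IsScalarTower ℤ[X] K C := IsScalarTower.of_algebraMap_eq fun x => by
      change _ = ψ (algebraMap ℤ[X] K x)
      rw [IsFractionRing.lift_algebraMap]
      rfl
    let b' : algebraicClosure K C := algebraMap K _ (algebraMap ℤ[X] K X)
    have hb' : (b' : C) = b := by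
      change algebraMap K C (algebraMap ℤ[X] K X) = b
      rw [← IsScalarTower.algebraMap_apply]
      change aeval b (X : ℤ[X]) = b
      simp
    haveI : IsAlgClosed (algebraicClosure K C) := (algebraicClosure.isAlgClosure K C).isAlgClosed
    obtain ⟨S', hS', h'⟩ := descend (L := algebraicClosure K C) S hS b' (by
      have : algebraMap (algebraicClosure K C) C b' = b := hb'
      rw [this]; exact h)
    have hZ : ∀ x : algebraicClosure K C, IsAlgebraic ℤ[X] x := by
      intro x
      rw [IsFractionRing.isAlgebraic_iff ℤ[X] K]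
      exact Algebra.IsAlgebraic.isAlgebraic x
    obtain ⟨g, hg0, hg⟩ := exists_denominator (R := ℤ[X]) S' hS' (fun s _ => hZ s)
    -- every prime divides `g`
    have key : ∀ p : ℕ, p.Prime → (Polynomial.C (p : ℤ)) ∣ g := by
      intro p hp
      obtain ⟨c, hc, hbc⟩ := h' p hp
      obtain ⟨k, hk⟩ := hg c hc
      have hpK : (p : K) ≠ 0 := by exact_mod_cast hp.ne_zero
      have hpL : (p : algebraicClosure K C) ≠ 0 := by exact_mod_cast hp.ne_zero
      let κ : K := algebraMap ℤ[X] K (g ^ k * (X ^ p - X)) / p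
      have hκ : algebraMap K (algebraicClosure K C) κ = g ^ k • c := by
        simp only [κ]
        rw [map_div₀, map_natCast, div_eq_iff hpL, ← IsScalarTower.algebraMap_apply, map_mul,
          Algebra.smul_def, mul_assoc, mul_comm c, ← hbc]
        congr 1
        simp only [b', map_sub, map_pow, ← IsScalarTower.algebraMap_apply]
      have hint : IsIntegral ℤ[X] κ := by
        rw [← hκ] at hk
        exact (isIntegral_algebraMap_iff (algebraMap K (algebraicClosure K C)).injective).1 hk
      obtain ⟨hh, hhh⟩ := IsIntegrallyClosed.isIntegral_iff.1 hint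
      have h5 : g ^ k * (X ^ p - X) = Polynomial.C (p : ℤ) * hh := by
        apply IsFractionRing.injective ℤ[X] K
        have h6 : algebraMap ℤ[X] K (Polynomial.C (p : ℤ)) = (p : K) := by simp
        rw [map_mul (algebraMap ℤ[X] K) (Polynomial.C (p : ℤ)), hhh, h6]
        simp only [κ]
        rw [mul_div_cancel₀ _ hpK]
      have hprime : Prime (Polynomial.C (p : ℤ)) := by
        rw [Polynomial.prime_C_iff]
        exact Nat.prime_iff_prime_int.1 hp
      rcases hprime.dvd_or_dvd ⟨hh, h5⟩ with h7 | h7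
      · exact hprime.dvd_of_dvd_pow h7
      · exfalso
        rw [Polynomial.C_dvd_iff_dvd_coeff] at h7
        have h8 := h7 p
        have hp1 : p ≠ 1 := hp.ne_one
        rw [coeff_sub, coeff_X_pow, if_pos rfl, coeff_X, if_neg (Ne.symm hp1), sub_zero] at h8
        have h9 : (p : ℤ) ∣ 1 := h8
        have := Int.le_of_dvd one_pos h9
        have := hp.two_le
        omega
    obtain ⟨p, hpg, hp⟩ := Nat.exists_infinite_primes (g.leadingCoeff.natAbs + 1)
    have h1 := (Polynomial.C_dvd_iff_dvd_coeff _ _).1 (key p hp) g.natDegree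
    have h2 : g.coeff g.natDegree ≠ 0 := by
      rw [Polynomial.coeff_natDegree]; exact leadingCoeff_ne_zero.2 hg0
    have h3 := Nat.le_of_dvd (Int.natAbs_pos.2 h2) (Int.natAbs_dvd_natAbs.2 h1)
    rw [Int.natAbs_natCast] at h3
    rw [Polynomial.coeff_natDegree] at h3
    omega

end Pool.Agent.Lib.MP_1e09a3_nt
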