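import Pool.Agent.Lib.MP_1e09a3_nt.Power

/-!
Elements with vanishing `p`-curvature: the subfield of flat elements of a differential field.
-/

set_option linter.style.haveILetI false

open Finset Polynomial

namespace Pool.Agent.Lib.MP_1e09a3_nt

variable {C Ω : Type*} [Field C] [Field Ω] [Algebra C Ω]

theorem iterate_leibniz (D : Derivation C Ω Ω) (n : ℕ) (x y : Ω) :
    (⇑D)^[n] (x * y) = ∑ ij ∈ antidiagonal n, n.choose ij.1 • ((⇑D)^[ij.1] x * (⇑D)^[ij.2] y) := by
  induction n with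
  | zero => simp
  | succ n ih =>
    rw [Function.iterate_succ_apply', ih,
      Finset.sum_antidiagonal_choose_succ_nsmul (fun i j => (⇑D)^[i] x * (⇑D)^[j] y) n, map_sum,
      ← Finset.sum_add_distrib]
    refine Finset.sum_congr rfl fun ij hij => ?_
    have hsymm : n.choose ij.2 = n.choose ij.1 :=
      Nat.choose_symm_of_eq_add (by
        have := Finset.HasAntidiagonal.mem_antidiagonal.mp hij
        omega)
    rw [hsymm, map_nsmul, Derivation.leibniz, smul_eq_mul, smul_eq_mul,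
      Function.iterate_succ_apply', Function.iterate_succ_apply', ← smul_add]
    congr 1
    ring

theorem iterate_add (D : Derivation C Ω Ω) (n : ℕ) (x y : Ω) :
    (⇑D)^[n] (x + y) = (⇑D)^[n] x + (⇑D)^[n] y :=
  iterate_map_add D n x y

theorem iterate_sum (D : Derivation C Ω Ω) (n : ℕ) {ι : Type*} (s : Finset ι) (f : ι → Ω) :
    (⇑D)^[n] (∑ i ∈ s, f i) = ∑ i ∈ s, (⇑D)^[n] (f i) := by
  classical
  induction s using Finset.induction_on with
  | empty => simp
  | insert a s ha ih => rw [Finset.sum_insert ha, iterate_add, ih, Finset.sum_insert ha]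

/-- `t` is `p` times an element of `B` -/
def DivBy (B : Subalgebra ℤ Ω) (p : ℕ) (t : Ω) : Prop := ∃ b ∈ B, t = p * b

theorem DivBy.zero (B : Subalgebra ℤ Ω) (p : ℕ) : DivBy B p (0 : Ω) := ⟨0, B.zero_mem, by simp⟩

theorem DivBy.add {B : Subalgebra ℤ Ω} {p : ℕ} {s t : Ω} (hs : DivBy B p s) (ht : DivBy B p t) :
    DivBy B p (s + t) := by
  obtain ⟨b, hb, rfl⟩ := hs
  obtain ⟨c, hc, rfl⟩ := ht
  exact ⟨b + c, B.add_mem hb hc, by ring⟩

theorem DivBy.neg {B : Subalgebra ℤ Ω} {p : ℕ} {s : Ω} (hs : DivBy B p s) :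
    DivBy B p (-s) := by
  obtain ⟨b, hb, rfl⟩ := hs
  exact ⟨-b, B.neg_mem hb, by ring⟩

theorem DivBy.sub {B : Subalgebra ℤ Ω} {p : ℕ} {s t : Ω} (hs : DivBy B p s) (ht : DivBy B p t) :
    DivBy B p (s - t) := by
  rw [sub_eq_add_neg]; exact hs.add ht.neg

theorem DivBy.mul {B : Subalgebra ℤ Ω} {p : ℕ} {s t : Ω} (hs : s ∈ B) (ht : DivBy B p t) :
    DivBy B p (s * t) := by
  obtain ⟨c, hc, rfl⟩ := ht
  exact ⟨s * c, B.mul_mem hs hc, by ring⟩

theorem DivBy.sum {B : Subalgebra ℤ Ω} {p : ℕ} {ι : Type*} (s : Finset ι) (f : ι → Ω)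
    (h : ∀ i ∈ s, DivBy B p (f i)) : DivBy B p (∑ i ∈ s, f i) := by
  classical
  induction s using Finset.induction_on with
  | empty => simpa using DivBy.zero B p
  | insert a s ha ih =>
    rw [Finset.sum_insert ha]
    exact (h a (Finset.mem_insert_self _ _)).add
      (ih fun i hi => h i (Finset.mem_insert_of_mem hi))

theorem DivBy.mono {B B' : Subalgebra ℤ Ω} (h : B ≤ B') {p : ℕ} {t : Ω} (ht : DivBy B p t) :
    DivBy B' p t := by
  obtain ⟨c, hc, rfl⟩ := ht
  exact ⟨c, h hc, rfl⟩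

/-- stability under `D` -/
def Stable (D : Derivation C Ω Ω) (B : Subalgebra ℤ Ω) : Prop := ∀ x ∈ B, D x ∈ B

theorem Stable.iterate {D : Derivation C Ω Ω} {B : Subalgebra ℤ Ω} (h : Stable D B) (n : ℕ) {x : Ω}
    (hx : x ∈ B) : (⇑D)^[n] x ∈ B := by
  induction n with
  | zero => simpa using hx
  | succ n ih => rw [Function.iterate_succ_apply']; exact h _ ih

theorem D_intCast (D : Derivation C Ω Ω) (n : ℤ) : D (n : Ω) = 0 := by
  have : (n : Ω) = algebraMap C Ω (n : C) := by simp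
  rw [this, D.map_algebraMap]

theorem D_mem_of_gens (D : Derivation C Ω Ω) (S : Set Ω) (B : Subalgebra ℤ Ω)
    (hSB : S ⊆ B) (hD : ∀ s ∈ S, D s ∈ B) : ∀ x ∈ Algebra.adjoin ℤ S, D x ∈ B := by
  have hle : Algebra.adjoin ℤ S ≤ B := Algebra.adjoin_le hSB
  intro x hx
  induction hx using Algebra.adjoin_induction with
  | mem x hx => exact hD x hx
  | algebraMap n => rw [eq_intCast (algebraMap ℤ Ω) n, D_intCast]; exact B.zero_mem
  | add x z _ _ h1 h2 => rw [map_add]; exact B.add_mem h1 h2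
  | mul x z hx hz h1 h2 =>
    rw [Derivation.leibniz, smul_eq_mul, smul_eq_mul]
    exact B.add_mem (B.mul_mem (hle hx) h2) (B.mul_mem (hle hz) h1)

theorem leibniz_mod {D : Derivation C Ω Ω} {B : Subalgebra ℤ Ω} (h : Stable D B) {p : ℕ}
    (hp : p.Prime) {x y : Ω} (hx : x ∈ B) (hy : y ∈ B) :
    DivBy B p ((⇑D)^[p] (x * y) - (x * (⇑D)^[p] y + y * (⇑D)^[p] x)) := by
  rw [iterate_leibniz]
  have h0 : (0, p) ∈ antidiagonal p := by simp
  have h1 : (p, 0) ∈ (antidiagonal p).erase (0, p) := by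
    rw [Finset.mem_erase]
    refine ⟨?_, by simp⟩
    intro h
    have := congrArg Prod.fst h
    exact hp.ne_zero this
  rw [← Finset.add_sum_erase _ _ h0, ← Finset.add_sum_erase _ _ h1]
  have h2 : DivBy B p (∑ ij ∈ ((antidiagonal p).erase (0, p)).erase (p, 0),
      p.choose ij.1 • ((⇑D)^[ij.1] x * (⇑D)^[ij.2] y)) := by
    refine DivBy.sum _ _ fun ij hij => ?_
    rw [Finset.mem_erase, Finset.mem_erase, Finset.HasAntidiagonal.mem_antidiagonal] at hij
    obtain ⟨hne1, hne2, hsum⟩ := hij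
    have hi0 : ij.1 ≠ 0 := by
      intro h0
      apply hne2
      ext
      · exact h0
      · simp only; omega
    have hip : ij.1 ≠ p := by
      intro h0
      apply hne1
      ext
      · exact h0
      · simp only; omega
    have hlt : ij.1 < p := by omega
    obtain ⟨c, hc⟩ := hp.dvd_choose_self hi0 hlt
    refine ⟨c • ((⇑D)^[ij.1] x * (⇑D)^[ij.2] y), ?_, ?_⟩
    · exact B.nsmul_mem (B.mul_mem (h.iterate _ hx) (h.iterate _ hy)) _
    · rw [hc, nsmul_eq_mul, nsmul_eq_mul]; push_cast; ring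
  convert h2 using 1
  simp only [Nat.choose_zero_right, one_smul, Function.iterate_zero, id, Nat.choose_self]
  ring

/-- elements of `B` whose `p`-th derivative is divisible by `p` -/
def flatAt (D : Derivation C Ω Ω) (B : Subalgebra ℤ Ω) (h : Stable D B) (p : ℕ) (hp : p.Prime) :
    Subalgebra ℤ Ω where
  carrier := {x | x ∈ B ∧ DivBy B p ((⇑D)^[p] x)}
  mul_mem' := by
    rintro x y ⟨hx, hx'⟩ ⟨hy, hy'⟩
    refine ⟨B.mul_mem hx hy, ?_⟩
    have := leibniz_mod h hp hx hy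
    have h2 := (this.add (DivBy.mul hx hy')).add (DivBy.mul hy hx')
    convert h2 using 1
    ring
  add_mem' := by
    rintro x y ⟨hx, hx'⟩ ⟨hy, hy'⟩
    refine ⟨B.add_mem hx hy, ?_⟩
    rw [iterate_add]
    exact hx'.add hy'
  algebraMap_mem' := by
    intro n
    refine ⟨B.algebraMap_mem n, ?_⟩
    obtain ⟨k, hk⟩ : ∃ k, p = k + 1 := ⟨p - 1, by have := hp.pos; omega⟩
    rw [eq_intCast (algebraMap ℤ Ω) n]
    have : (⇑D)^[p] (n : Ω) = 0 := by
      rw [hk, Function.iterate_succ_apply, D_intCast]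
      exact iterate_map_zero D k
    rw [this]
    exact DivBy.zero B p

/-- a finite set generating a flat ring -/
def IsFlat (D : Derivation C Ω Ω) (S : Set Ω) : Prop :=
  S.Finite ∧ (∀ s ∈ S, D s ∈ Algebra.adjoin ℤ S) ∧
    ∀ p : ℕ, p.Prime → ∀ s ∈ S, DivBy (Algebra.adjoin ℤ S) p ((⇑D)^[p] s)

theorem IsFlat.stable {D : Derivation C Ω Ω} {S : Set Ω} (h : IsFlat D S) :
    Stable D (Algebra.adjoin ℤ S) :=
  D_mem_of_gens D S _ Algebra.subset_adjoin h.2.1

theorem IsFlat.divBy {D : Derivation C Ω Ω} {S : Set Ω} (h : IsFlat D S) {p : ℕ} (hp : p.Prime)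
    {x : Ω} (hx : x ∈ Algebra.adjoin ℤ S) : DivBy (Algebra.adjoin ℤ S) p ((⇑D)^[p] x) := by
  have hle : Algebra.adjoin ℤ S ≤ flatAt D _ h.stable p hp :=
    Algebra.adjoin_le fun s hs => ⟨Algebra.subset_adjoin hs, h.2.2 p hp s hs⟩
  exact (hle hx).2

theorem IsFlat.union {D : Derivation C Ω Ω} {S T : Set Ω} (hS : IsFlat D S) (hT : IsFlat D T) :
    IsFlat D (S ∪ T) := by
  have h1 : Algebra.adjoin ℤ S ≤ Algebra.adjoin ℤ (S ∪ T) :=
    Algebra.adjoin_mono Set.subset_union_left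
  have h2 : Algebra.adjoin ℤ T ≤ Algebra.adjoin ℤ (S ∪ T) :=
    Algebra.adjoin_mono Set.subset_union_right
  refine ⟨hS.1.union hT.1, ?_, ?_⟩
  · rintro s (hs | hs)
    · exact h1 (hS.2.1 s hs)
    · exact h2 (hT.2.1 s hs)
  · rintro p hp s (hs | hs)
    · exact (hS.2.2 p hp s hs).mono h1
    · exact (hT.2.2 p hp s hs).mono h2

theorem isFlat_empty (D : Derivation C Ω Ω) : IsFlat D (∅ : Set Ω) :=
  ⟨Set.finite_empty, fun _ h => h.elim, fun _ _ _ h => h.elim⟩

/-- if `x` is flat at `p` and invertible in the ring then its inverse is flat at `p` -/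
theorem inv_flatAt {D : Derivation C Ω Ω} {B : Subalgebra ℤ Ω} (h : Stable D B) {p : ℕ}
    (hp : p.Prime) {x y : Ω} (hx : x ∈ flatAt D B h p hp) (hy : y ∈ B) (hxy : x * y = 1) :
    y ∈ flatAt D B h p hp := by
  refine ⟨hy, ?_⟩
  have h1 := leibniz_mod h hp hx.1 hy
  have h2 : (⇑D)^[p] (x * y) = 0 := by
    rw [hxy]
    have := ((flatAt D B h p hp).one_mem)
    obtain ⟨k, hk⟩ : ∃ k, p = k + 1 := ⟨p - 1, by have := hp.pos; omega⟩
    rw [hk, Function.iterate_succ_apply, Derivation.map_one_eq_zero]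
    exact iterate_map_zero D k
  rw [h2] at h1
  have h3 := DivBy.mul hy (h1.neg.sub (DivBy.mul hy hx.2))
  convert h3 using 1
  have : y * x = 1 := by rw [mul_comm]; exact hxy
  linear_combination (-(⇑D)^[p] y) * this

end Pool.Agent.Lib.MP_1e09a3_nt
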