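import Pool.Agent.Lib.MP_1e09a3_nt.Flat

/-!
The subfield of flat elements is algebraically closed in the ambient field.
-/

set_option linter.style.haveILetI false

open Finset Polynomial

namespace Pool.Agent.Lib.MP_1e09a3_nt

variable {C Ω : Type*} [Field C] [Field Ω] [Algebra C Ω]

theorem iterate_pow_mod' {D : Derivation C Ω Ω} {B : Subalgebra ℤ Ω} (h : Stable D B) {p : ℕ}
    (hp : p.Prime) {x : Ω} (hx : x ∈ B) (n : ℕ) :
    DivBy B p ((⇑D)^[p] (x ^ n) - n * x ^ (n - 1) * (⇑D)^[p] x) := by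
  rcases n with _ | n
  · obtain ⟨k, hk⟩ : ∃ k, p = k + 1 := ⟨p - 1, by have := hp.pos; omega⟩
    have : (⇑D)^[p] (1 : Ω) = 0 := by
      rw [hk, Function.iterate_succ_apply, Derivation.map_one_eq_zero]
      exact iterate_map_zero D k
    simpa [this] using DivBy.zero B p
  induction n with
  | zero => simpa using DivBy.zero B p
  | succ n ih =>
    have h1 := leibniz_mod h hp (B.pow_mem hx (n + 1)) hx
    rw [← pow_succ] at h1
    rw [Nat.add_sub_cancel] at ih ⊢
    have h2 := h1.add (DivBy.mul hx ih)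
    convert h2 using 1
    push_cast
    ring

theorem isFlat_algebraic {D : Derivation C Ω Ω} {S : Set Ω} (hS : IsFlat D S) (q : Polynomial Ω)
    (hq : ∀ n, q.coeff n ∈ Algebra.adjoin ℤ S) {w : Ω} (hw : q.eval w = 0)
    (hw' : q.derivative.eval w ≠ 0) :
    IsFlat D (S ∪ {w, (q.derivative.eval w)⁻¹}) := by
  set v := (q.derivative.eval w)⁻¹ with hv
  set S' : Set Ω := S ∪ {w, v} with hS'
  have hSS' : Algebra.adjoin ℤ S ≤ Algebra.adjoin ℤ S' :=
    Algebra.adjoin_mono Set.subset_union_left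
  have hwB : w ∈ Algebra.adjoin ℤ S' := Algebra.subset_adjoin (by simp [hS'])
  have hvB : v ∈ Algebra.adjoin ℤ S' := Algebra.subset_adjoin (by simp [hS'])
  have hwT : w ∈ Algebra.adjoin ℤ (S ∪ {w}) := Algebra.subset_adjoin (by simp)
  have hST : Algebra.adjoin ℤ S ≤ Algebra.adjoin ℤ (S ∪ {w}) :=
    Algebra.adjoin_mono Set.subset_union_left
  have hsum0 : q.eval w = ∑ i ∈ q.support, q.coeff i * w ^ i := by
    rw [Polynomial.eval_eq_sum, Polynomial.sum_def]
  have hsum1 : q.derivative.eval w = ∑ i ∈ q.support, q.coeff i * i * w ^ (i - 1) := by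
    rw [Polynomial.derivative_eval, Polynomial.sum_def]
  have hdT : q.derivative.eval w ∈ Algebra.adjoin ℤ (S ∪ {w}) := by
    rw [hsum1]
    refine Subalgebra.sum_mem _ fun i _ => ?_
    exact Subalgebra.mul_mem _ (Subalgebra.mul_mem _ (hST (hq i)) (Subalgebra.natCast_mem _ i))
      (Subalgebra.pow_mem _ hwT _)
  have hdB : q.derivative.eval w ∈ Algebra.adjoin ℤ S' := by
    have h1 : Algebra.adjoin ℤ (S ∪ {w}) ≤ Algebra.adjoin ℤ S' := by
      refine Algebra.adjoin_mono ?_
      rintro x (hx | hx)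
      · exact Or.inl hx
      · exact Or.inr (Or.inl hx)
    exact h1 hdT
  have hvd : v * q.derivative.eval w = 1 := inv_mul_cancel₀ hw'
  -- D w
  have hDw : D w ∈ Algebra.adjoin ℤ S' := by
    have h0 : D (q.eval w) = 0 := by rw [hw, map_zero]
    have h1 : D (q.eval w) = (∑ i ∈ q.support, D (q.coeff i) * w ^ i) +
        q.derivative.eval w * D w := by
      rw [hsum0, map_sum, hsum1, Finset.sum_mul, ← Finset.sum_add_distrib]
      refine Finset.sum_congr rfl fun i _ => ?_
      rw [Derivation.leibniz, Derivation.leibniz_pow, smul_eq_mul, smul_eq_mul, smul_eq_mul,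
        nsmul_eq_mul]
      ring
    have h2 : D w = -(v * ∑ i ∈ q.support, D (q.coeff i) * w ^ i) := by
      rw [h0] at h1
      linear_combination (-(D w)) * hvd - v * h1
    rw [h2]
    refine Subalgebra.neg_mem _ (Subalgebra.mul_mem _ hvB (Subalgebra.sum_mem _ fun i _ => ?_))
    exact Subalgebra.mul_mem _ (hSS' (hS.stable _ (hq i))) (Subalgebra.pow_mem _ hwB _)
  have hDd : D (q.derivative.eval w) ∈ Algebra.adjoin ℤ S' := by
    refine D_mem_of_gens D (S ∪ {w}) _ ?_ ?_ _ hdT
    · rintro x (hx | hx)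
      · exact Algebra.subset_adjoin (Or.inl hx)
      · rw [Set.mem_singleton_iff] at hx; rw [hx]; exact hwB
    · rintro x (hx | hx)
      · exact hSS' (hS.2.1 x hx)
      · rw [Set.mem_singleton_iff] at hx; rw [hx]; exact hDw
  have hDv : D v ∈ Algebra.adjoin ℤ S' := by
    have h1 : D (v * q.derivative.eval w) = 0 := by rw [hvd, Derivation.map_one_eq_zero]
    rw [Derivation.leibniz, smul_eq_mul, smul_eq_mul] at h1
    have h2 : D v = -(v * v * D (q.derivative.eval w)) := by
      linear_combination v * h1 - (D v) * hvd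
    rw [h2]
    exact Subalgebra.neg_mem _ (Subalgebra.mul_mem _ (Subalgebra.mul_mem _ hvB hvB) hDd)
  have hgen : ∀ s ∈ S', D s ∈ Algebra.adjoin ℤ S' := by
    rintro s (hs | hs)
    · exact hSS' (hS.2.1 s hs)
    · rcases hs with hs | hs
      · rw [hs]; exact hDw
      · rw [Set.mem_singleton_iff] at hs; rw [hs]; exact hDv
  have hst : Stable D (Algebra.adjoin ℤ S') := D_mem_of_gens D S' _ Algebra.subset_adjoin hgen
  refine ⟨hS.1.union (by simp), hgen, ?_⟩
  intro p hp
  have hcoef : ∀ n, q.coeff n ∈ flatAt D _ hst p hp := fun n =>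
    ⟨hSS' (hq n), (hS.divBy hp (hq n)).mono hSS'⟩
  have hwflat : w ∈ flatAt D _ hst p hp := by
    refine ⟨hwB, ?_⟩
    have h1 : DivBy (Algebra.adjoin ℤ S') p
        ((⇑D)^[p] (q.eval w) - q.derivative.eval w * (⇑D)^[p] w) := by
      rw [hsum0, iterate_sum, hsum1, Finset.sum_mul, ← Finset.sum_sub_distrib]
      refine DivBy.sum _ _ fun i _ => ?_
      have h2 := leibniz_mod hst hp (hcoef i).1 (Subalgebra.pow_mem _ hwB i)
      have h3 := DivBy.mul (hcoef i).1 (iterate_pow_mod' hst hp hwB i)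
      have h4 := DivBy.mul (Subalgebra.pow_mem _ hwB i) (hcoef i).2
      have h5 := (h2.add h3).add h4
      convert h5 using 1
      ring
    have h0 : (⇑D)^[p] (q.eval w) = 0 := by rw [hw]; exact iterate_map_zero D p
    rw [h0, zero_sub] at h1
    have h6 := DivBy.mul hvB h1.neg
    convert h6 using 1
    linear_combination (-((⇑D)^[p] w)) * hvd
  have hdflat : q.derivative.eval w ∈ flatAt D _ hst p hp := by
    rw [hsum1]
    refine Subalgebra.sum_mem _ fun i _ => ?_
    exact Subalgebra.mul_mem _ (Subalgebra.mul_mem _ (hcoef i) (Subalgebra.natCast_mem _ i))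
      (Subalgebra.pow_mem _ hwflat _)
  have hvflat : v ∈ flatAt D _ hst p hp :=
    inv_flatAt hst hp hdflat hvB (by rw [mul_comm]; exact hvd)
  rintro s (hs | hs)
  · exact (hS.2.2 p hp s hs).mono hSS'
  · rcases hs with hs | hs
    · rw [hs]; exact hwflat.2
    · rw [Set.mem_singleton_iff] at hs; rw [hs]; exact hvflat.2

/-- An element contained in a finitely generated ring with vanishing `p`-curvatures. -/
def IsFlatElt (D : Derivation C Ω Ω) (x : Ω) : Prop :=
  ∃ S : Set Ω, IsFlat D S ∧ x ∈ Algebra.adjoin ℤ S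

theorem IsFlatElt.add {D : Derivation C Ω Ω} {x y : Ω} (hx : IsFlatElt D x) (hy : IsFlatElt D y) :
    IsFlatElt D (x + y) := by
  obtain ⟨S, hS, hxS⟩ := hx
  obtain ⟨T, hT, hyT⟩ := hy
  exact ⟨S ∪ T, hS.union hT, Subalgebra.add_mem _
    (Algebra.adjoin_mono Set.subset_union_left hxS)
    (Algebra.adjoin_mono Set.subset_union_right hyT)⟩

theorem IsFlatElt.mul {D : Derivation C Ω Ω} {x y : Ω} (hx : IsFlatElt D x) (hy : IsFlatElt D y) :
    IsFlatElt D (x * y) := by
  obtain ⟨S, hS, hxS⟩ := hx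
  obtain ⟨T, hT, hyT⟩ := hy
  exact ⟨S ∪ T, hS.union hT, Subalgebra.mul_mem _
    (Algebra.adjoin_mono Set.subset_union_left hxS)
    (Algebra.adjoin_mono Set.subset_union_right hyT)⟩

theorem isFlatElt_of_mem_finite {D : Derivation C Ω Ω} {F : Set Ω} (hF : F.Finite)
    (h : ∀ x ∈ F, IsFlatElt D x) : ∃ S : Set Ω, IsFlat D S ∧ F ⊆ Algebra.adjoin ℤ S := by
  induction F, hF using Set.Finite.induction_on with
  | empty => exact ⟨∅, isFlat_empty D, Set.empty_subset _⟩
  | @insert a F _ _ ih =>
    obtain ⟨S, hS, hFS⟩ := ih fun x hx => h x (Set.mem_insert_of_mem _ hx)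
    obtain ⟨T, hT, haT⟩ := h a (Set.mem_insert _ _)
    refine ⟨S ∪ T, hS.union hT, ?_⟩
    intro x hx
    rcases Set.mem_insert_iff.1 hx with hx | hx
    · rw [hx]; exact Algebra.adjoin_mono Set.subset_union_right haT
    · exact Algebra.adjoin_mono Set.subset_union_left (hFS hx)

theorem isFlatElt_algebraic {D : Derivation C Ω Ω} (q : Polynomial Ω)
    (hq : ∀ n, IsFlatElt D (q.coeff n)) {w : Ω} (hw : q.eval w = 0)
    (hw' : q.derivative.eval w ≠ 0) : IsFlatElt D w := by
  obtain ⟨S, hS, hFS⟩ := isFlatElt_of_mem_finite (D := D)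
    (F := (fun n => q.coeff n) '' (q.support : Set ℕ)) (q.support.finite_toSet.image _)
    (by rintro _ ⟨n, _, rfl⟩; exact hq n)
  refine ⟨_, isFlat_algebraic hS q ?_ hw hw', Algebra.subset_adjoin (by simp)⟩
  intro n
  by_cases hn : n ∈ q.support
  · exact hFS ⟨n, hn, rfl⟩
  · rw [Polynomial.notMem_support_iff.1 hn]
    exact Subalgebra.zero_mem _

theorem isFlatElt_algebraMap (D : Derivation C Ω Ω) (c : C) : IsFlatElt D (algebraMap C Ω c) := by
  refine ⟨{algebraMap C Ω c}, ⟨Set.finite_singleton _, ?_, ?_⟩, Algebra.subset_adjoin rfl⟩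
  · intro s hs
    rw [Set.mem_singleton_iff] at hs
    rw [hs, D.map_algebraMap]
    exact Subalgebra.zero_mem _
  · intro p hp s hs
    rw [Set.mem_singleton_iff] at hs
    obtain ⟨k, hk⟩ : ∃ k, p = k + 1 := ⟨p - 1, by have := hp.pos; omega⟩
    rw [hs, hk, Function.iterate_succ_apply, D.map_algebraMap, iterate_map_zero]
    exact DivBy.zero _ _

theorem isFlatElt_of_D_eq_one {D : Derivation C Ω Ω} {z : Ω} (hz : D z = 1) : IsFlatElt D z := by
  refine ⟨{z}, ⟨Set.finite_singleton _, ?_, ?_⟩, Algebra.subset_adjoin rfl⟩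
  · intro s hs
    rw [Set.mem_singleton_iff] at hs
    rw [hs, hz]
    exact Subalgebra.one_mem _
  · intro p hp s hs
    rw [Set.mem_singleton_iff] at hs
    obtain ⟨k, hk⟩ : ∃ k, p = k + 1 + 1 := ⟨p - 2, by have := hp.two_le; omega⟩
    rw [hs, hk, Function.iterate_succ_apply, hz, Function.iterate_succ_apply,
      Derivation.map_one_eq_zero, iterate_map_zero]
    exact DivBy.zero _ _

/-- the field of flat elements -/
def flatField (D : Derivation C Ω Ω) : IntermediateField C Ω where
  carrier := {x | IsFlatElt D x}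
  mul_mem' := fun hx hy => hx.mul hy
  add_mem' := fun hx hy => hx.add hy
  algebraMap_mem' := isFlatElt_algebraMap D
  inv_mem' := by
    intro x hx
    by_cases hx0 : x = 0
    · rw [hx0, inv_zero]
      have := isFlatElt_algebraMap D 0
      simpa using this
    · have hx' : IsFlatElt D x := hx
      refine isFlatElt_algebraic (D := D) (Polynomial.C x * X - 1) ?_ (w := x⁻¹) ?_ ?_
      · intro n
        have h0 : IsFlatElt D (0 : Ω) := by simpa using isFlatElt_algebraMap D 0
        have h1 : IsFlatElt D (-1 : Ω) := by simpa using isFlatElt_algebraMap D (-1)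
        rcases n with _ | _ | n
        · simpa using h1
        · simpa [Polynomial.coeff_one] using hx'
        · simpa [Polynomial.coeff_one, Polynomial.coeff_X] using h0
      · simp [hx0]
      · simp [hx0]

theorem mem_flatField {D : Derivation C Ω Ω} {x : Ω} : x ∈ flatField D ↔ IsFlatElt D x := Iff.rfl

theorem D_mem_flatField {D : Derivation C Ω Ω} {x : Ω} (hx : x ∈ flatField D) :
    D x ∈ flatField D := by
  obtain ⟨S, hS, hxS⟩ := hx
  exact ⟨S, hS, hS.stable _ hxS⟩

theorem isAlgClosed_flatField [CharZero Ω] [IsAlgClosed Ω] (D : Derivation C Ω Ω) :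
    IsAlgClosed (flatField D) := by
  haveI : CharZero (flatField D) :=
    RingHom.charZero (algebraMap (flatField D) Ω)
  refine IsAlgClosed.of_exists_root _ fun p hpm hpirr => ?_
  have hdeg : (p.map (algebraMap (flatField D) Ω)).degree ≠ 0 := by
    rw [Polynomial.degree_map]
    exact hpirr.degree_pos.ne'
  obtain ⟨w, hw⟩ := IsAlgClosed.exists_root _ hdeg
  have hsep : p.Separable := hpirr.separable
  have hw1 : (p.map (algebraMap (flatField D) Ω)).eval w = 0 := hw
  have hw2 : (p.map (algebraMap (flatField D) Ω)).derivative.eval w ≠ 0 := by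
    have h1 := (hsep.map (f := algebraMap (flatField D) Ω)).eval₂_derivative_ne_zero (RingHom.id Ω)
      (x := w) (by simpa using hw1)
    simpa using h1
  have hwL : IsFlatElt D w := isFlatElt_algebraic _ (fun n => by
    rw [Polynomial.coeff_map]; exact (p.coeff n).2) hw1 hw2
  refine ⟨⟨w, hwL⟩, ?_⟩
  have h3 : (algebraMap (flatField D) Ω) (p.eval ⟨w, hwL⟩) = 0 := by
    rw [← Polynomial.eval₂_at_apply]
    rw [Polynomial.eval_map] at hw1
    exact hw1
  exact (map_eq_zero _).1 h3

end Pool.Agent.Lib.MP_1e09a3_nt
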