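import Pool.Agent.Lib.MP_1e09a3_nt.Flat

/-!
The `p`-curvature of a logarithmic derivative.
-/

set_option linter.style.haveILetI false

open Finset Polynomial

namespace Pool.Agent.Lib.MP_1e09a3_nt

variable {C Ω : Type*} [Field C] [Field Ω] [Algebra C Ω]

/-- coefficients of the polynomial `(D + t G)^m 1` in `t` -/
def bellCoeff (D : Derivation C Ω Ω) (G : Ω) : ℕ → ℕ → Ω
  | 0 => fun k => if k = 0 then 1 else 0
  | m + 1 => fun k => D (bellCoeff D G m k) + (if k = 0 then 0 else G * bellCoeff D G m (k - 1))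

theorem bellCoeff_succ (D : Derivation C Ω Ω) (G : Ω) (m k : ℕ) :
    bellCoeff D G (m + 1) k =
      D (bellCoeff D G m k) + (if k = 0 then 0 else G * bellCoeff D G m (k - 1)) := rfl

theorem bellCoeff_mem {D : Derivation C Ω Ω} {B : Subalgebra ℤ Ω} (h : Stable D B) {G : Ω}
    (hG : G ∈ B) (m k : ℕ) : bellCoeff D G m k ∈ B := by
  induction m generalizing k with
  | zero =>
    simp only [bellCoeff]
    split_ifs
    · exact B.one_mem
    · exact B.zero_mem
  | succ m ih =>
    simp only [bellCoeff]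
    refine B.add_mem (h _ (ih k)) ?_
    split_ifs
    · exact B.zero_mem
    · exact B.mul_mem hG (ih _)

theorem bellCoeff_zero (D : Derivation C Ω Ω) (G : Ω) (m : ℕ) : bellCoeff D G (m + 1) 0 = 0 := by
  induction m with
  | zero => simp [bellCoeff]
  | succ m ih =>
    rw [bellCoeff_succ, ih]
    simp

theorem bellCoeff_one (D : Derivation C Ω Ω) (G : Ω) (m : ℕ) :
    bellCoeff D G (m + 1) 1 = (⇑D)^[m] G := by
  induction m with
  | zero => simp [bellCoeff]
  | succ m ih =>
    rw [bellCoeff_succ, ih, Function.iterate_succ_apply']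
    simp [bellCoeff_zero]

theorem bellCoeff_gt (D : Derivation C Ω Ω) (G : Ω) (m k : ℕ) (h : m < k) :
    bellCoeff D G m k = 0 := by
  induction m generalizing k with
  | zero => simp [bellCoeff]; omega
  | succ m ih =>
    simp only [bellCoeff]
    rw [ih k (by omega), if_neg (by omega), ih (k - 1) (by omega)]
    simp

theorem bellCoeff_self (D : Derivation C Ω Ω) (G : Ω) (m : ℕ) :
    bellCoeff D G m m = G ^ m := by
  induction m with
  | zero => simp [bellCoeff]
  | succ m ih =>
    simp only [bellCoeff]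
    rw [bellCoeff_gt D G m (m + 1) (by omega), if_neg (by omega), Nat.add_sub_cancel, ih]
    simp [pow_succ, mul_comm]

theorem D_pow_eq {D : Derivation C Ω Ω} {w G : Ω} (hG : D w = G * w) (n : ℕ) :
    D (w ^ n) = n * G * w ^ n := by
  induction n with
  | zero => simp
  | succ n ih =>
    rw [pow_succ, Derivation.leibniz, ih, hG, smul_eq_mul, smul_eq_mul]
    push_cast
    ring

theorem D_natCast (D : Derivation C Ω Ω) (n : ℕ) : D (n : Ω) = 0 := by
  simp

theorem iterate_pow_eq {D : Derivation C Ω Ω} {w G : Ω} (hG : D w = G * w) (m n : ℕ) :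
    (⇑D)^[m] (w ^ n) = (∑ k ∈ range (m + 1), bellCoeff D G m k * (n : Ω) ^ k) * w ^ n := by
  induction m with
  | zero => simp [bellCoeff]
  | succ m ih =>
    rw [Function.iterate_succ_apply', ih, Derivation.leibniz, D_pow_eq hG, smul_eq_mul,
      smul_eq_mul, map_sum]
    have h1 : ∀ k, D (bellCoeff D G m k * (n : Ω) ^ k) = D (bellCoeff D G m k) * (n : Ω) ^ k := by
      intro k
      rw [Derivation.leibniz, smul_eq_mul, smul_eq_mul]
      have : D ((n : Ω) ^ k) = 0 := by simp
      rw [this, mul_zero, zero_add, mul_comm]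
    simp only [h1]
    have h2 : ∑ k ∈ range (m + 1 + 1), bellCoeff D G (m + 1) k * (n : Ω) ^ k =
        ∑ k ∈ range (m + 1), D (bellCoeff D G m k) * (n : Ω) ^ k +
          ∑ k ∈ range (m + 1), (G * bellCoeff D G m k) * (n : Ω) ^ (k + 1) := by
      have h3 : ∀ k, bellCoeff D G (m + 1) k = D (bellCoeff D G m k) +
          (if k = 0 then 0 else G * bellCoeff D G m (k - 1)) := fun k => rfl
      simp only [h3, add_mul, Finset.sum_add_distrib]
      congr 1
      · rw [Finset.sum_range_succ, bellCoeff_gt D G m (m + 1) (by omega)]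
        simp
      · rw [Finset.sum_range_succ' _ (m + 1)]
        simp
    rw [h2, add_mul]
    have h4 : ∑ k ∈ range (m + 1), (G * bellCoeff D G m k) * (n : Ω) ^ (k + 1) =
        (n : Ω) * G * ∑ k ∈ range (m + 1), bellCoeff D G m k * (n : Ω) ^ k := by
      rw [Finset.mul_sum]
      exact Finset.sum_congr rfl fun k _ => by ring
    rw [h4]
    ring

theorem iterate_pow_mod {D : Derivation C Ω Ω} {B : Subalgebra ℤ Ω} (h : Stable D B) {p : ℕ}
    (hp : p.Prime) {x : Ω} (hx : x ∈ B) (n : ℕ) :
    DivBy B p ((⇑D)^[p] (x ^ (n + 1)) - (n + 1) * x ^ n * (⇑D)^[p] x) := by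
  induction n with
  | zero => simpa using DivBy.zero B p
  | succ n ih =>
    have h1 := leibniz_mod h hp (B.pow_mem hx (n + 1)) hx
    rw [← pow_succ] at h1
    have h2 := h1.add (DivBy.mul hx ih)
    convert h2 using 1
    push_cast
    ring

theorem sum_range_pow_mod (p : ℕ) (hp : p.Prime) (k : ℕ) (hk : 0 < k) :
    ∃ r : ℤ, (∑ n ∈ range p, (n : ℤ) ^ k) = (if p - 1 ∣ k then -1 else 0) + p * r := by
  haveI : Fact p.Prime := ⟨hp⟩
  have key : (((∑ n ∈ range p, (n : ℤ) ^ k) - (if p - 1 ∣ k then -1 else 0) : ℤ) : ZMod p) = 0 := by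
    have h1 : ∑ x : ZMod p, x ^ k = ∑ n ∈ range p, ((n : ℤ) : ZMod p) ^ k := by
      refine Finset.sum_bij' (fun x _ => x.val) (fun n _ => (n : ZMod p)) ?_ ?_ ?_ ?_ ?_
      · intro a _; exact Finset.mem_range.2 (ZMod.val_lt a)
      · intro a _; exact Finset.mem_univ _
      · intro a _; exact ZMod.natCast_zmod_val a
      · intro a ha; exact ZMod.val_cast_of_lt (Finset.mem_range.1 ha)
      · intro a _
        simp
    have h2 : ∑ x : ZMod p, x ^ k = ∑ x : (ZMod p)ˣ, ((x : ZMod p)) ^ k := by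
      have h3 := Fintype.sum_eq_add_sum_subtype_ne (fun x : ZMod p => x ^ k) 0
      rw [h3, zero_pow hk.ne', zero_add]
      symm
      refine Fintype.sum_equiv unitsEquivNeZero _ _ ?_
      intro x
      rfl
    have h4 := FiniteField.sum_pow_units (ZMod p) k
    rw [ZMod.card] at h4
    push_cast
    simp only [Int.cast_natCast] at h1
    rw [← h1, h2, h4]
    split_ifs <;> simp
  rw [ZMod.intCast_zmod_eq_zero_iff_dvd] at key
  obtain ⟨r, hr⟩ := key
  exact ⟨r, by linarith⟩

/-- `p`-curvature of a logarithmic derivative of a flat unit -/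
theorem log_pcurvature {D : Derivation C Ω Ω} {B : Subalgebra ℤ Ω} (h : Stable D B) {p : ℕ}
    (hp : p.Prime) {w w' : Ω} (hw : w ∈ B) (hw' : w' ∈ B) (hww : w * w' = 1)
    (hflat : DivBy B p ((⇑D)^[p] w)) :
    DivBy B p ((⇑D)^[p - 1] (w' * D w) + (w' * D w) ^ p) := by
  set G := w' * D w with hGdef
  have hG : D w = G * w := by
    rw [hGdef]; linear_combination (-(D w)) * hww
  have hGB : G ∈ B := B.mul_mem hw' (h _ hw)
  obtain ⟨q, rfl⟩ : ∃ q, p = q + 1 := ⟨p - 1, by have := hp.pos; omega⟩
  have hq : 1 ≤ q := by have := hp.two_le; omega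
  -- values at natural numbers
  have hval : ∀ n : ℕ, DivBy B (q + 1)
      (∑ k ∈ range (q + 1 + 1), bellCoeff D G (q + 1) k * (n : Ω) ^ k) := by
    intro n
    have h1 := iterate_pow_eq hG (q + 1) n
    have h2 : DivBy B (q + 1) ((⇑D)^[q + 1] (w ^ n)) := by
      rcases n with _ | n
      · rw [pow_zero, Function.iterate_succ_apply, Derivation.map_one_eq_zero,
          iterate_map_zero]
        exact DivBy.zero _ _
      · have h3 := iterate_pow_mod h hp hw n
        have h4 : ((n : Ω) + 1) * w ^ n ∈ B :=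
          B.mul_mem (B.add_mem (B.natCast_mem n) B.one_mem) (B.pow_mem hw n)
        have h5 := h3.add (DivBy.mul h4 hflat)
        convert h5 using 1
        ring
    have h6 := DivBy.mul (B.pow_mem hw' n) h2
    rw [h1] at h6
    convert h6 using 1
    have : w ^ n * w' ^ n = 1 := by rw [← mul_pow, hww, one_pow]
    linear_combination (-(∑ k ∈ range (q + 1 + 1), bellCoeff D G (q + 1) k * (n : Ω) ^ k)) * this
  have hsum : DivBy B (q + 1) (∑ n ∈ range (q + 1), (n : Ω) ^ (q - 1) *
      ∑ k ∈ range (q + 1 + 1), bellCoeff D G (q + 1) k * (n : Ω) ^ k) :=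
    DivBy.sum _ _ fun n _ => DivBy.mul (B.pow_mem (B.natCast_mem n) _) (hval n)
  have hswap : (∑ n ∈ range (q + 1), (n : Ω) ^ (q - 1) *
      ∑ k ∈ range (q + 1 + 1), bellCoeff D G (q + 1) k * (n : Ω) ^ k) =
      ∑ k ∈ range (q + 1), bellCoeff D G (q + 1) (k + 1) *
        ((∑ n ∈ range (q + 1), (n : ℤ) ^ (k + q) : ℤ) : Ω) := by
    have h1 : ∀ n : ℕ, (n : Ω) ^ (q - 1) *
      ∑ k ∈ range (q + 1 + 1), bellCoeff D G (q + 1) k * (n : Ω) ^ k =
        ∑ k ∈ range (q + 1), bellCoeff D G (q + 1) (k + 1) * (n : Ω) ^ (k + q) := by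
      intro n
      rw [Finset.sum_range_succ', bellCoeff_zero, zero_mul, add_zero, Finset.mul_sum]
      refine Finset.sum_congr rfl fun k _ => ?_
      have : k + q = (q - 1) + (k + 1) := by omega
      rw [this, pow_add]
      ring
    simp only [h1]
    rw [Finset.sum_comm]
    refine Finset.sum_congr rfl fun k _ => ?_
    rw [← Finset.mul_sum]
    push_cast
    rfl
  rw [hswap] at hsum
  -- evaluate power sums
  have hterm : ∀ k, k ∈ range (q + 1) → DivBy B (q + 1) (bellCoeff D G (q + 1) (k + 1) *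
        ((∑ n ∈ range (q + 1), (n : ℤ) ^ (k + q) : ℤ) : Ω) -
        (if k = 0 ∨ k = q then - bellCoeff D G (q + 1) (k + 1) else 0)) := by
    intro k hk
    rw [Finset.mem_range] at hk
    obtain ⟨r, hr⟩ := sum_range_pow_mod (q + 1) hp (k + q) (by omega)
    rw [hr, Nat.add_sub_cancel]
    have hdiv : (q ∣ k + q) ↔ (k = 0 ∨ k = q) := by
      rw [Nat.dvd_add_self_right]
      constructor
      · rintro ⟨c, hc⟩
        rcases c with _ | c
        · left; simpa using hc
        · rcases c with _ | c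
          · right; simpa using hc
          · exfalso
            have h2 : q * (c + 1 + 1) ≥ q * 2 := Nat.mul_le_mul_left _ (by omega)
            omega
      · rintro (h | h)
        · rw [h]; exact dvd_zero _
        · rw [h]
    simp only [hdiv]
    refine ⟨bellCoeff D G (q + 1) (k + 1) * (r : Ω), B.mul_mem (bellCoeff_mem h hGB _ _)
      (B.intCast_mem r), ?_⟩
    split_ifs
    · push_cast; ring
    · push_cast; ring
  have hdiff := DivBy.sum _ _ hterm
  rw [Finset.sum_sub_distrib] at hdiff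
  have hmain := hsum.sub hdiff
  rw [sub_sub_cancel] at hmain
  have hev : ∑ k ∈ range (q + 1), (if k = 0 ∨ k = q then - bellCoeff D G (q + 1) (k + 1) else 0)
      = -((⇑D)^[q] G + G ^ (q + 1)) := by
    rw [Finset.sum_range_succ]
    obtain ⟨j, rfl⟩ : ∃ j, q = j + 1 := ⟨q - 1, by omega⟩
    rw [Finset.sum_range_succ']
    have : ∑ k ∈ range j, (if k + 1 = 0 ∨ k + 1 = j + 1 then
        - bellCoeff D G (j + 1 + 1) (k + 1 + 1) else 0) = 0 := by
      refine Finset.sum_eq_zero fun k hk => ?_
      rw [Finset.mem_range] at hk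
      rw [if_neg (by omega)]
    rw [this, if_pos (Or.inl rfl), if_pos (Or.inr rfl), bellCoeff_self, zero_add, bellCoeff_one]
    ring
  rw [hev] at hmain
  simpa using hmain.neg

end Pool.Agent.Lib.MP_1e09a3_nt
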