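import Pool.Agent.Lib.MP_1e09a3_nt.FlatField
import Pool.Agent.Lib.MP_1e09a3_nt.PCurv

/-!
In a differential field all of whose elements are flat, an exact form which is a combination of
logarithmic forms vanishes, together with all the corresponding combinations of logarithmic
derivatives.
-/

set_option linter.style.haveILetI false

open Finset Polynomial

namespace Pool.Agent.Lib.MP_1e09a3_nt

theorem sum_pow_mod {Ω : Type*} [Field Ω] (B : Subalgebra ℤ Ω) {p : ℕ} (hp : p.Prime)
    {ι : Type*} (s : Finset ι) (x : ι → Ω) (hx : ∀ i ∈ s, x i ∈ B) :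
    DivBy B p ((∑ i ∈ s, x i) ^ p - ∑ i ∈ s, x i ^ p) := by
  classical
  induction s using Finset.induction_on with
  | empty =>
    rw [Finset.sum_empty, Finset.sum_empty, zero_pow hp.ne_zero, sub_zero]
    exact DivBy.zero B p
  | insert a s ha ih =>
    rw [Finset.sum_insert ha, Finset.sum_insert ha]
    have hxa := hx a (Finset.mem_insert_self _ _)
    have hxs : ∑ i ∈ s, x i ∈ B := B.sum_mem fun i hi => hx i (Finset.mem_insert_of_mem hi)
    obtain ⟨r, hr⟩ := exists_add_pow_prime_eq hp (⟨x a, hxa⟩ : B) ⟨∑ i ∈ s, x i, hxs⟩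
    have hr' := congrArg Subtype.val hr
    push_cast at hr'
    have h1 : DivBy B p ((x a + ∑ i ∈ s, x i) ^ p - (x a ^ p + (∑ i ∈ s, x i) ^ p)) := by
      refine ⟨x a * (∑ i ∈ s, x i) * r, B.mul_mem (B.mul_mem hxa hxs) r.2, ?_⟩
      rw [hr']
      ring
    have h2 := h1.add (ih fun i hi => hx i (Finset.mem_insert_of_mem hi))
    convert h2 using 1
    ring

variable {C L : Type*} [Field C] [Field L] [Algebra C L]

/-- logarithmic derivative -/
def dlog (E : Derivation C L L) (x : L) : L := x⁻¹ * E x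

theorem dlog_one (E : Derivation C L L) : dlog E 1 = 0 := by simp [dlog]

theorem dlog_mul (E : Derivation C L L) {x y : L} (hx : x ≠ 0) (hy : y ≠ 0) :
    dlog E (x * y) = dlog E x + dlog E y := by
  simp only [dlog]
  rw [Derivation.leibniz, smul_eq_mul, smul_eq_mul]
  field_simp
  ring

theorem dlog_inv (E : Derivation C L L) {x : L} (hx : x ≠ 0) :
    dlog E x⁻¹ = - dlog E x := by
  have h := dlog_mul E hx (inv_ne_zero hx)
  rw [mul_inv_cancel₀ hx, dlog_one] at h
  linear_combination -h

theorem dlog_pow (E : Derivation C L L) {x : L} (hx : x ≠ 0) (n : ℕ) :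
    dlog E (x ^ n) = n * dlog E x := by
  induction n with
  | zero => simp [dlog_one]
  | succ n ih =>
    rw [pow_succ, dlog_mul E (pow_ne_zero n hx) hx, ih]
    push_cast
    ring

theorem dlog_zpow (E : Derivation C L L) {x : L} (hx : x ≠ 0) (n : ℤ) :
    dlog E (x ^ n) = n * dlog E x := by
  rcases n with n | n
  · have := dlog_pow E hx n
    simpa using this
  · have := dlog_pow E hx (n + 1)
    rw [zpow_negSucc, dlog_inv E (pow_ne_zero _ hx), this]
    push_cast
    ring

theorem dlog_prod (E : Derivation C L L) {ι : Type*} (s : Finset ι) (x : ι → L)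
    (hx : ∀ i, x i ≠ 0) : dlog E (∏ i ∈ s, x i) = ∑ i ∈ s, dlog E (x i) := by
  classical
  induction s using Finset.induction_on with
  | empty => simp [dlog_one]
  | insert a s ha ih =>
    rw [Finset.prod_insert ha, Finset.sum_insert ha,
      dlog_mul E (hx a) (Finset.prod_ne_zero_iff.2 fun i _ => hx i), ih]

theorem dlog_relation (D E : Derivation C L L)
    (hconst : ∀ x, D x = 0 → ∃ c : C, algebraMap C L c = x) {m : ℕ} (x : L) (hx : x ≠ 0)
    (w : Fin m → L) (hw : ∀ j, w j ≠ 0) (N : ℕ) (n : Fin m → ℤ)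
    (h : N * dlog D x = ∑ j, n j * dlog D (w j)) :
    N * dlog E x = ∑ j, n j * dlog E (w j) := by
  have hu0 : x ^ N * ∏ j, w j ^ (-n j) ≠ 0 :=
    mul_ne_zero (pow_ne_zero _ hx) (Finset.prod_ne_zero_iff.2 fun j _ => zpow_ne_zero _ (hw j))
  have key : ∀ F : Derivation C L L, dlog F (x ^ N * ∏ j, w j ^ (-n j)) =
      N * dlog F x - ∑ j, n j * dlog F (w j) := by
    intro F
    rw [dlog_mul F (pow_ne_zero _ hx)
      (Finset.prod_ne_zero_iff.2 fun j _ => zpow_ne_zero _ (hw j)), dlog_pow F hx,
      dlog_prod F _ _ fun j => zpow_ne_zero _ (hw j), sub_eq_add_neg, ← Finset.sum_neg_distrib]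
    congr 1
    refine Finset.sum_congr rfl fun j _ => ?_
    rw [dlog_zpow F (hw j)]
    push_cast
    ring
  have h1 := key D
  rw [h, sub_self] at h1
  have h2 : D (x ^ N * ∏ j, w j ^ (-n j)) = 0 := by
    simp only [dlog] at h1
    rcases mul_eq_zero.1 h1 with h3 | h3
    · exact absurd h3 (inv_ne_zero hu0)
    · exact h3
  obtain ⟨c, hc⟩ := hconst _ h2
  have h3 : E (x ^ N * ∏ j, w j ^ (-n j)) = 0 := by
    rw [← hc, E.map_algebraMap]
  have h4 := key E
  rw [dlog, h3, mul_zero] at h4
  linear_combination -h4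

theorem exists_common_den {m : ℕ} (q : Fin m → ℚ) :
    ∃ N : ℕ, N ≠ 0 ∧ ∃ n : Fin m → ℤ, ∀ j, q j * N = n j := by
  refine ⟨∏ j, (q j).den, Finset.prod_ne_zero_iff.2 fun j _ => (q j).den_nz, ?_⟩
  have h : ∀ j, ∃ n : ℤ, q j * ((∏ j, (q j).den : ℕ) : ℚ) = n := by
    intro j
    obtain ⟨k, hk⟩ := Finset.dvd_prod_of_mem (fun j => (q j).den) (Finset.mem_univ j)
    refine ⟨(q j).num * k, ?_⟩
    rw [hk]
    push_cast
    rw [← mul_assoc, Rat.mul_den_eq_num]
  choose n hn using h
  exact ⟨n, hn⟩

theorem lemmaR [CharZero C] [IsAlgClosed C] (D : Derivation C L L)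
    (hconst : ∀ x, D x = 0 → ∃ c : C, algebraMap C L c = x)
    (hflat : ∀ x : L, IsFlatElt D x) {ι : Type*} [Fintype ι] (a : ι → C) (w : ι → L)
    (hw : ∀ i, w i ≠ 0) (U : L) (hU : D U = ∑ i, algebraMap C L (a i) * dlog D (w i)) :
    D U = 0 ∧ ∀ E : Derivation C L L, ∑ i, algebraMap C L (a i) * dlog E (w i) = 0 := by
  classical
  haveI : CharZero L := charZero_of_injective_algebraMap (algebraMap C L).injective
  obtain ⟨κ, α, hα, hsp, hli⟩ := exists_linearIndependent' C (fun i => dlog D (w i))
  haveI : Finite κ := Finite.of_injective α hα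
  haveI : Fintype κ := Fintype.ofFinite κ
  let e := (Fintype.equivFin κ).symm
  set m := Fintype.card κ with hm
  set β : Fin m → ι := fun j => α (e j) with hβ
  have hli' : LinearIndependent C (fun j => dlog D (w (β j))) := hli.comp e e.injective
  have hb : ∀ i, ∃ b : Fin m → C, dlog D (w i) = ∑ j, algebraMap C L (b j) * dlog D (w (β j)) := by
    intro i
    have h1 : dlog D (w i) ∈ Submodule.span C (Set.range ((fun i => dlog D (w i)) ∘ α)) := by
      rw [hsp]
      exact Submodule.subset_span ⟨i, rfl⟩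
    obtain ⟨c, hc⟩ := (Submodule.mem_span_range_iff_exists_fun C).1 h1
    refine ⟨fun j => c (e j), ?_⟩
    rw [← hc, ← Equiv.sum_comp e]
    refine Finset.sum_congr rfl fun j _ => ?_
    rw [Algebra.smul_def]
    rfl
  choose b hb using hb
  -- a flat ring containing everything
  obtain ⟨S, hS, hFS⟩ := isFlatElt_of_mem_finite (D := D)
    (F := Set.range w ∪ Set.range (fun i => (w i)⁻¹) ∪ {U} ∪
      Set.range (fun i => algebraMap C L (a i)) ∪
      Set.range (fun q : ι × Fin m => algebraMap C L (b q.1 q.2)))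
    (((((Set.finite_range _).union (Set.finite_range _)).union (Set.finite_singleton _)).union
      (Set.finite_range _)).union (Set.finite_range _))
    (fun x _ => hflat x)
  set B := Algebra.adjoin ℤ S with hB
  have hwB : ∀ i, w i ∈ B := fun i => hFS (Or.inl (Or.inl (Or.inl (Or.inl ⟨i, rfl⟩))))
  have hwB' : ∀ i, (w i)⁻¹ ∈ B := fun i => hFS (Or.inl (Or.inl (Or.inl (Or.inr ⟨i, rfl⟩))))
  have hUB : U ∈ B := hFS (Or.inl (Or.inl (Or.inr rfl)))
  have haB : ∀ i, algebraMap C L (a i) ∈ B := fun i => hFS (Or.inl (Or.inr ⟨i, rfl⟩))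
  have hbB : ∀ i j, algebraMap C L (b i j) ∈ B := fun i j => hFS (Or.inr ⟨(i, j), rfl⟩)
  have hst : Stable D B := hS.stable
  have hGB : ∀ i, dlog D (w i) ∈ B := fun i => B.mul_mem (hwB' i) (hst _ (hwB i))
  have hcurv : ∀ p : ℕ, p.Prime → ∀ i,
      DivBy B p ((⇑D)^[p - 1] (dlog D (w i)) + dlog D (w i) ^ p) := fun p hp i =>
    log_pcurvature hst hp (hwB i) (hwB' i) (mul_inv_cancel₀ (hw i)) (hS.divBy hp (hwB i))
  have hiter : ∀ (n : ℕ) (c : C) (x : L), (⇑D)^[n] (algebraMap C L c * x) =
      algebraMap C L c * (⇑D)^[n] x := by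
    intro n c x
    induction n with
    | zero => rfl
    | succ n ih =>
      rw [Function.iterate_succ_apply', ih, Derivation.leibniz, D.map_algebraMap,
        Function.iterate_succ_apply', smul_eq_mul, smul_eq_mul]
      ring
  -- transfer of a linear relation to p-th powers
  have hrel : ∀ p : ℕ, p.Prime → ∀ (c : Fin m → C), (∀ j, algebraMap C L (c j) ∈ B) →
      DivBy B p ((⇑D)^[p - 1] (∑ j, algebraMap C L (c j) * dlog D (w (β j))) +
        ∑ j, algebraMap C L (c j) * dlog D (w (β j)) ^ p) := by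
    intro p hp c hc
    rw [iterate_sum, ← Finset.sum_add_distrib]
    refine DivBy.sum _ _ fun j _ => ?_
    rw [hiter, ← mul_add]
    exact DivBy.mul (hc j) (hcurv p hp (β j))
  obtain ⟨T, hT₀, hTfin, hT⟩ := power_relation S hS.1 (fun j => dlog D (w (β j)))
    (fun j => hGB (β j)) hli' (Set.range a ∪ Set.range (fun q : ι × Fin m => b q.1 q.2))
    ((Set.finite_range _).union (Set.finite_range _))
  have haT : ∀ i, a i ∈ Algebra.adjoin ℤ T := fun i =>
    Algebra.subset_adjoin (hT₀ (Or.inl ⟨i, rfl⟩))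
  have hbT : ∀ i j, b i j ∈ Algebra.adjoin ℤ T := fun i j =>
    Algebra.subset_adjoin (hT₀ (Or.inr ⟨(i, j), rfl⟩))
  -- rationality of the b i j
  have hrat : ∀ i j, ∃ q : ℚ, (q : C) = b i j := by
    intro i j
    refine kronecker T hTfin (b i j) fun p hp => ?_
    refine hT p hp (fun j => b i j ^ p - b i j)
      (fun j => Subalgebra.sub_mem _ (Subalgebra.pow_mem _ (hbT i j) _) (hbT i j)) ?_ j
    have h1 := hrel p hp (b i) (hbB i)
    rw [← hb i] at h1
    have h2 := hcurv p hp i
    have h3 : DivBy B p (dlog D (w i) ^ p -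
        ∑ j, algebraMap C L (b i j) ^ p * dlog D (w (β j)) ^ p) := by
      have h4 := sum_pow_mod B hp Finset.univ
        (fun j => algebraMap C L (b i j) * dlog D (w (β j)))
        (fun j _ => B.mul_mem (hbB i j) (hGB (β j)))
      rw [← hb i] at h4
      simpa only [mul_pow] using h4
    have h5 : DivBy B p (∑ j, algebraMap C L (b i j ^ p - b i j) * dlog D (w (β j)) ^ p) := by
      have h6 := (h2.sub h1).sub h3
      convert h6 using 1
      simp only [map_sub, map_pow, sub_mul, Finset.sum_sub_distrib]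
      ring
    exact h5
  -- the combination vanishes
  set c : Fin m → C := fun j => ∑ i, a i * b i j with hc
  have hcomb : ∀ (g : ι → L), (∀ i, g i = ∑ j, algebraMap C L (b i j) * g (β j)) →
      ∑ i, algebraMap C L (a i) * g i = ∑ j, algebraMap C L (c j) * g (β j) := by
    intro g hg
    simp only [hc, map_sum, map_mul, Finset.sum_mul]
    rw [Finset.sum_comm]
    refine Finset.sum_congr rfl fun i _ => ?_
    conv_lhs => rw [hg i]
    rw [Finset.mul_sum]
    exact Finset.sum_congr rfl fun j _ => by ring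
  have hDU : D U = ∑ j, algebraMap C L (c j) * dlog D (w (β j)) := by
    rw [hU]
    exact hcomb (fun i => dlog D (w i)) hb
  have hc0 : ∀ j, c j = 0 := by
    intro j
    refine eq_zero_of_dvd_primes T hTfin (c j) fun p hp => ?_
    refine hT p hp c (fun j => Subalgebra.sum_mem _ fun i _ =>
      Subalgebra.mul_mem _ (haT i) (hbT i j)) ?_ j
    have hcB : ∀ j, algebraMap C L (c j) ∈ B := by
      intro j
      simp only [hc, map_sum, map_mul]
      exact B.sum_mem fun i _ => B.mul_mem (haB i) (hbB i j)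
    have h1 := hrel p hp c hcB
    rw [← hDU, ← Function.iterate_succ_apply, Nat.succ_eq_add_one,
      Nat.sub_add_cancel hp.one_le] at h1
    have h2 := h1.sub (hS.divBy hp hUB)
    have h3 : DivBy B p (∑ j, algebraMap C L (c j) * dlog D (w (β j)) ^ p) := by
      convert h2 using 1
      ring
    exact h3
  refine ⟨?_, ?_⟩
  · rw [hDU]
    exact Finset.sum_eq_zero fun j _ => by rw [hc0 j, map_zero, zero_mul]
  · intro E
    rw [hcomb (fun i => dlog E (w i)) ?_]
    · exact Finset.sum_eq_zero fun j _ => by rw [hc0 j, map_zero, zero_mul]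
    · intro i
      choose q hq using hrat i
      obtain ⟨N, hN, n, hn⟩ := exists_common_den q
      have hNL : (N : L) ≠ 0 := by exact_mod_cast hN
      have hnb : ∀ j, (n j : L) = N * algebraMap C L (b i j) := by
        intro j
        rw [← hq j]
        have h1 : ((q j * N : ℚ) : L) = ((n j : ℚ) : L) := by rw [hn j]
        push_cast at h1
        rw [← h1]
        simp
        ring
      have h1 := dlog_relation D E hconst (w i) (hw i) (fun j => w (β j)) (fun j => hw _) N n (by
        rw [hb i, Finset.mul_sum]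
        refine Finset.sum_congr rfl fun j _ => ?_
        rw [hnb j]
        ring)
      have h2 : (N : L) * dlog E (w i) =
          N * ∑ j, algebraMap C L (b i j) * dlog E (w (β j)) := by
        rw [h1, Finset.mul_sum]
        refine Finset.sum_congr rfl fun j _ => ?_
        rw [hnb j]
        ring
      exact mul_left_cancel₀ hNL h2

end Pool.Agent.Lib.MP_1e09a3_nt
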