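import Pool.Agent.Lib.MP_1e09a3_nt.Defs

/-!
Derivations attached to an exponential-polynomial system.
-/

open Finset MvPolynomial

namespace Pool.Agent.Lib.MP_1e09a3_nt

section DerAlong

variable {C A K : Type*} [CommRing C] [CommRing A] [CommRing K] [Algebra C A] [Algebra C K]

/-- `Θ` is a `C`-derivation along the homomorphism `t`. -/
structure DerAlong (t : A →ₐ[C] K) (Θ : A → K) : Prop where
  add : ∀ f g, Θ (f + g) = Θ f + Θ g
  const : ∀ c : C, Θ (algebraMap C A c) = 0
  mul : ∀ f g, Θ (f * g) = t f * Θ g + t g * Θ f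

theorem DerAlong.comp_der (t : A →ₐ[C] K) (E : Derivation C A A) :
    DerAlong t (fun x => t (E x)) where
  add := fun f g => by rw [map_add, map_add]
  const := fun c => by rw [E.map_algebraMap, map_zero]
  mul := fun f g => by
    rw [Derivation.leibniz, smul_eq_mul, smul_eq_mul, map_add, map_mul, map_mul]

theorem DerAlong.der_comp (t : A →ₐ[C] K) (E : Derivation C K K) :
    DerAlong t (fun x => E (t x)) where
  add := fun f g => by rw [map_add, map_add]
  const := fun c => by rw [AlgHom.commutes, E.map_algebraMap]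
  mul := fun f g => by
    rw [map_mul, Derivation.leibniz, smul_eq_mul, smul_eq_mul]

theorem DerAlong.smul {t : A →ₐ[C] K} {Θ : A → K} (h : DerAlong t Θ) (k : K) :
    DerAlong t (fun x => k * Θ x) where
  add := fun f g => by rw [h.add]; ring
  const := fun c => by rw [h.const, mul_zero]
  mul := fun f g => by rw [h.mul]; ring

theorem DerAlong.addd {t : A →ₐ[C] K} {Θ Θ' : A → K} (h : DerAlong t Θ) (h' : DerAlong t Θ') :
    DerAlong t (fun x => Θ x + Θ' x) where
  add := fun f g => by rw [h.add, h'.add]; ring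
  const := fun c => by rw [h.const, h'.const, add_zero]
  mul := fun f g => by rw [h.mul, h'.mul]; ring

theorem DerAlong.sub {t : A →ₐ[C] K} {Θ Θ' : A → K} (h : DerAlong t Θ) (h' : DerAlong t Θ') :
    DerAlong t (fun x => Θ x - Θ' x) where
  add := fun f g => by rw [h.add, h'.add]; ring
  const := fun c => by rw [h.const, h'.const, sub_zero]
  mul := fun f g => by rw [h.mul, h'.mul]; ring

theorem DerAlong.sum {t : A →ₐ[C] K} {ι : Type*} (s : Finset ι) {Θ : ι → A → K}
    (h : ∀ i ∈ s, DerAlong t (Θ i)) : DerAlong t (fun x => ∑ i ∈ s, Θ i x) where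
  add := fun f g => by
    rw [← Finset.sum_add_distrib]
    exact Finset.sum_congr rfl fun i hi => (h i hi).add f g
  const := fun c => Finset.sum_eq_zero fun i hi => (h i hi).const c
  mul := fun f g => by
    rw [Finset.mul_sum, Finset.mul_sum, ← Finset.sum_add_distrib]
    exact Finset.sum_congr rfl fun i hi => (h i hi).mul f g

theorem DerAlong.comp {A' : Type*} [CommRing A'] [Algebra C A'] {t : A →ₐ[C] K} {Θ : A → K}
    (h : DerAlong t Θ) (g : A' →ₐ[C] A) : DerAlong (t.comp g) (fun x => Θ (g x)) where
  add := fun f g => by rw [map_add, h.add]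
  const := fun c => by rw [AlgHom.commutes, h.const]
  mul := fun f f' => by rw [map_mul, h.mul]; rfl

theorem DerAlong.zero {t : A →ₐ[C] K} {Θ : A → K} (h : DerAlong t Θ) : Θ 0 = 0 := by
  have := h.const 0
  rwa [map_zero] at this

theorem DerAlong.neg {t : A →ₐ[C] K} {Θ : A → K} (h : DerAlong t Θ) (f : A) :
    Θ (-f) = - Θ f := by
  have h1 := h.add f (-f)
  rw [add_neg_cancel, h.zero] at h1
  linear_combination -h1

theorem DerAlong.ext {σ : Type*} {t : MvPolynomial σ C →ₐ[C] K} {Θ Θ' : MvPolynomial σ C → K}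
    (h : DerAlong t Θ) (h' : DerAlong t Θ') (hX : ∀ i, Θ (X i) = Θ' (X i)) (f : MvPolynomial σ C) :
    Θ f = Θ' f := by
  induction f using MvPolynomial.induction_on with
  | C a => exact (h.const a).trans (h'.const a).symm
  | add p q hp hq => rw [h.add, h'.add, hp, hq]
  | mul_X p i hp => rw [h.mul, h'.mul, hp, hX]

theorem DerAlong.chain {σ : Type*} [Fintype σ] {t : MvPolynomial σ C →ₐ[C] K}
    {Θ : MvPolynomial σ C → K} (h : DerAlong t Θ) (f : MvPolynomial σ C) :
    Θ f = ∑ i, t (pderiv i f) * Θ (X i) := by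
  classical
  have h' : DerAlong t (fun f => ∑ i, t (pderiv i f) * Θ (X i)) := by
    refine DerAlong.sum _ fun i _ => ?_
    have h1 := (DerAlong.comp_der t (pderiv i)).smul (Θ (X i))
    simpa only [mul_comm] using h1
  refine DerAlong.ext h h' (fun j => ?_) f
  rw [Finset.sum_eq_single j]
  · rw [pderiv_X_self, map_one, one_mul]
  · intro i _ hij
    rw [pderiv_X_of_ne hij.symm, map_zero, zero_mul]
  · intro hj
    exact absurd (Finset.mem_univ j) hj

end DerAlong

section System

variable {C : Type*} [CommRing C] {n : ℕ}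

/-- the embedding adding the variable `T` -/
noncomputable abbrev rr : MvPolynomial (Vars n) C →ₐ[C] MvPolynomial (Option (Vars n)) C :=
  rename some

/-- right-hand side of the linear system -/
noncomputable def vvec (P : Fin n → MvPolynomial (Vars n) C) (ζ : C) (ε : Fin n → C) (k : Fin n) :
    MvPolynomial (Vars n) C :=
  - (MvPolynomial.C ζ * pderiv none (P k)) + ∑ j, MvPolynomial.C (ε j) *
    (X (some (Sum.inr j)) * pderiv (some (Sum.inr j)) (P k))

/-- image of `X_i` -/
noncomputable def imgX (P : Fin n → MvPolynomial (Vars n) C) (ζ : C) (ε : Fin n → C) (i : Fin n) :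
    MvPolynomial (Option (Vars n)) C :=
  X none * ∑ k, rr ((jac P).adjugate i k) * rr (vvec P ζ ε k)

/-- images of the variables -/
noncomputable def img (P : Fin n → MvPolynomial (Vars n) C) (ζ : C) (ε : Fin n → C) :
    Vars n → MvPolynomial (Option (Vars n)) C
  | none => MvPolynomial.C ζ
  | some (Sum.inl i) => imgX P ζ ε i
  | some (Sum.inr i) => X (some (some (Sum.inr i))) * (imgX P ζ ε i - MvPolynomial.C (ε i))

/-- images of all the variables -/
noncomputable def img' (P : Fin n → MvPolynomial (Vars n) C) (ζ : C) (ε : Fin n → C) :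
    Option (Vars n) → MvPolynomial (Option (Vars n)) C
  | none => - (X none ^ 2 * ∑ a, rr (pderiv a (jac P).det) * img P ζ ε a)
  | some a => img P ζ ε a

/-- the derivation attached to `(ζ, ε)` -/
noncomputable def der (P : Fin n → MvPolynomial (Vars n) C) (ζ : C) (ε : Fin n → C) :
    Derivation C (MvPolynomial (Option (Vars n)) C) (MvPolynomial (Option (Vars n)) C) :=
  mkDerivation C (img' P ζ ε)

variable (P : Fin n → MvPolynomial (Vars n) C) (ζ : C) (ε : Fin n → C)

theorem der_none : der P ζ ε (X none) =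
    - (X none ^ 2 * ∑ a, rr (pderiv a (jac P).det) * img P ζ ε a) := by
  simp [der, img']

theorem der_some (a : Vars n) : der P ζ ε (X (some a)) = img P ζ ε a := by
  simp [der, img']

theorem der_rr (f : MvPolynomial (Vars n) C) :
    der P ζ ε (rr f) = ∑ a, rr (pderiv a f) * img P ζ ε a := by
  have h := DerAlong.chain (((DerAlong.comp_der
    (AlgHom.id C (MvPolynomial (Option (Vars n)) C)) (der P ζ ε))).comp (rr (n := n) (C := C))) f
  simp only [AlgHom.id_apply, AlgHom.comp_apply] at h
  rw [h]
  refine Finset.sum_congr rfl fun a _ => ?_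
  simp only [rename_X, der_some]

/-- a solution of the system in a ring -/
structure IsSol {K : Type*} [CommRing K] [Algebra C K]
    (t : MvPolynomial (Option (Vars n)) C →ₐ[C] K) : Prop where
  eqn : ∀ k, t (rr (P k)) = 0
  inv : t (X none) * t (rr (jac P).det) = 1

variable {P} {K : Type*} [CommRing K] [Algebra C K]
  {t : MvPolynomial (Option (Vars n)) C →ₐ[C] K}

theorem IsSol.jac_mul_adj (h : IsSol P t) (k l : Fin n) :
    ∑ i, t (rr (jac P k i)) * (t (X none) * t (rr ((jac P).adjugate i l))) =
      if k = l then 1 else 0 := by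
  have h1 := congrFun (congrFun (Matrix.mul_adjugate (jac P)) k) l
  rw [Matrix.mul_apply, Matrix.smul_apply, Matrix.one_apply, smul_eq_mul] at h1
  have h2 := congrArg (fun x => t (rr x)) h1
  simp only [map_sum, map_mul] at h2
  have h3 : ∑ i, t (rr (jac P k i)) * (t (X none) * t (rr ((jac P).adjugate i l))) =
      t (X none) * ∑ i, t (rr (jac P k i)) * t (rr ((jac P).adjugate i l)) := by
    rw [Finset.mul_sum]
    exact Finset.sum_congr rfl fun i _ => by ring
  rw [h3, h2]
  split_ifs with hkl
  · rw [map_one, map_one, mul_one, h.inv]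
  · simp

theorem IsSol.adj_mul_jac (h : IsSol P t) (i j : Fin n) :
    ∑ k, (t (X none) * t (rr ((jac P).adjugate i k))) * t (rr (jac P k j)) =
      if i = j then 1 else 0 := by
  have h1 := congrFun (congrFun (Matrix.adjugate_mul (jac P)) i) j
  rw [Matrix.mul_apply, Matrix.smul_apply, Matrix.one_apply, smul_eq_mul] at h1
  have h2 := congrArg (fun x => t (rr x)) h1
  simp only [map_sum, map_mul] at h2
  have h3 : ∑ k, (t (X none) * t (rr ((jac P).adjugate i k))) * t (rr (jac P k j)) =
      t (X none) * ∑ k, t (rr ((jac P).adjugate i k)) * t (rr (jac P k j)) := by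
    rw [Finset.mul_sum]
    exact Finset.sum_congr rfl fun k _ => by ring
  rw [h3, h2]
  split_ifs with hkl
  · rw [map_one, map_one, mul_one, h.inv]
  · simp

theorem sum_vars (f : Vars n → K) :
    ∑ a, f a = f none + ((∑ i, f (some (Sum.inl i))) + ∑ i, f (some (Sum.inr i))) := by
  rw [Fintype.sum_option, Fintype.sum_sum_type]

theorem t_imgX (i : Fin n) : t (imgX P ζ ε i) =
    ∑ k, (t (X none) * t (rr ((jac P).adjugate i k))) * t (rr (vvec P ζ ε k)) := by
  simp only [imgX, map_mul, map_sum, Finset.mul_sum, mul_assoc]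

theorem t_vvec (k : Fin n) : t (rr (vvec P ζ ε k)) =
    - (algebraMap C K ζ * t (rr (pderiv none (P k)))) + ∑ j, algebraMap C K (ε j) *
      (t (X (some (some (Sum.inr j)))) * t (rr (pderiv (some (Sum.inr j)) (P k)))) := by
  have hC : ∀ c : C, t (rr (MvPolynomial.C c : MvPolynomial (Vars n) C)) = algebraMap C K c := by
    intro c
    rw [rename_C]
    exact t.commutes c
  simp only [vvec, map_add, map_neg, map_mul, map_sum, hC, rename_X]

theorem IsSol.der_eqn (h : IsSol P t) (k : Fin n) : t (der P ζ ε (rr (P k))) = 0 := by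
  rw [der_rr, map_sum, sum_vars]
  simp only [img, map_mul, map_sub]
  have hC : ∀ c : C, t (MvPolynomial.C c) = algebraMap C K c := fun c => t.commutes c
  simp only [hC]
  have h1 : ∑ i, t (rr (jac P k i)) * t (imgX P ζ ε i) = t (rr (vvec P ζ ε k)) := by
    simp only [t_imgX, Finset.mul_sum]
    rw [Finset.sum_comm]
    have : ∀ l, ∑ i, t (rr (jac P k i)) * ((t (X none) * t (rr ((jac P).adjugate i l))) *
        t (rr (vvec P ζ ε l))) = (if k = l then 1 else 0) * t (rr (vvec P ζ ε l)) := by
      intro l
      rw [← h.jac_mul_adj k l, Finset.sum_mul]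
      exact Finset.sum_congr rfl fun i _ => by ring
    simp only [this]
    simp
  rw [t_vvec] at h1
  have h2 : ∀ i, t (rr (jac P k i)) = t (rr (pderiv (some (Sum.inl i)) (P k))) +
      t (X (some (some (Sum.inr i)))) * t (rr (pderiv (some (Sum.inr i)) (P k))) := by
    intro i
    simp only [jac, Matrix.of_apply, map_add, map_mul, rename_X]
  simp only [h2, add_mul, Finset.sum_add_distrib] at h1
  simp only [mul_sub, Finset.sum_sub_distrib]
  have h3 : ∀ i, t (rr (pderiv (some (Sum.inr i)) (P k))) *
      (t (X (some (some (Sum.inr i)))) * t (imgX P ζ ε i)) =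
      t (X (some (some (Sum.inr i)))) * t (rr (pderiv (some (Sum.inr i)) (P k))) *
        t (imgX P ζ ε i) := fun i => by ring
  have h4 : ∀ i, t (rr (pderiv (some (Sum.inr i)) (P k))) *
      (t (X (some (some (Sum.inr i)))) * algebraMap C K (ε i)) =
      algebraMap C K (ε i) *
      (t (X (some (some (Sum.inr i)))) * t (rr (pderiv (some (Sum.inr i)) (P k)))) :=
    fun i => by ring
  simp only [h3, h4]
  linear_combination h1

theorem IsSol.der_inv (h : IsSol P t) :
    t (der P ζ ε (X none * rr (jac P).det)) = 0 := by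
  rw [Derivation.leibniz, smul_eq_mul, smul_eq_mul, der_none, ← der_rr]
  simp only [map_add, map_mul, map_neg, map_pow]
  linear_combination (-(t (X none) * t (der P ζ ε (rr (jac P).det)))) * h.inv

/-- every derivation along a solution is a combination of the basic ones -/
theorem IsSol.formula (h : IsSol P t) {Θ : MvPolynomial (Option (Vars n)) C → K}
    (hΘ : DerAlong t Θ) (h1 : ∀ k, Θ (rr (P k)) = 0) (h2 : Θ (X none * rr (jac P).det) = 0)
    (ω : Fin n → K) (hω : ∀ i, Θ (X (some (some (Sum.inr i)))) =
      t (X (some (some (Sum.inr i)))) * (Θ (X (some (some (Sum.inl i)))) - ω i))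
    (x : MvPolynomial (Option (Vars n)) C) :
    Θ x = Θ (X (some none)) * t (der P 1 0 x) +
      ∑ j, ω j * t (der P 0 (Pi.single j 1) x) := by
  classical
  set Ψ : MvPolynomial (Option (Vars n)) C → K := fun x => Θ (X (some none)) * t (der P 1 0 x) +
      ∑ j, ω j * t (der P 0 (Pi.single j 1) x) with hΨ
  have hΨd : DerAlong t Ψ :=
    ((DerAlong.comp_der t (der P 1 0)).smul _).addd
      (DerAlong.sum _ fun j _ => (DerAlong.comp_der t (der P 0 (Pi.single j 1))).smul _)
  have hZ : Θ (X (some none)) = Ψ (X (some none)) := by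
    simp only [hΨ, der_some, img, map_one, map_zero, mul_one, mul_zero, Finset.sum_const_zero,
      add_zero]
  -- the unknowns
  have hX : ∀ i, Θ (X (some (some (Sum.inl i)))) = Ψ (X (some (some (Sum.inl i)))) := by
    intro i
    -- linear system
    have h3 : ∀ k, ∑ j, t (rr (jac P k j)) * Θ (X (some (some (Sum.inl j)))) =
        - (t (rr (pderiv none (P k))) * Θ (X (some none))) +
          ∑ j, ω j * (t (X (some (some (Sum.inr j)))) *
            t (rr (pderiv (some (Sum.inr j)) (P k)))) := by
      intro k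
      have h4 := DerAlong.chain (hΘ.comp (rr (n := n) (C := C))) (P k)
      simp only [AlgHom.comp_apply, rename_X] at h4
      rw [h1 k, sum_vars] at h4
      simp only [hω] at h4
      have h5 : ∀ j, t (rr (jac P k j)) = t (rr (pderiv (some (Sum.inl j)) (P k))) +
          t (X (some (some (Sum.inr j)))) * t (rr (pderiv (some (Sum.inr j)) (P k))) := by
        intro j
        simp only [jac, Matrix.of_apply, map_add, map_mul, rename_X]
      simp only [h5, add_mul, Finset.sum_add_distrib]
      simp only [mul_sub, Finset.sum_sub_distrib] at h4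
      have h6 : ∀ j, t (rr (pderiv (some (Sum.inr j)) (P k))) *
          (t (X (some (some (Sum.inr j)))) * Θ (X (some (some (Sum.inl j))))) =
          t (X (some (some (Sum.inr j)))) * t (rr (pderiv (some (Sum.inr j)) (P k))) *
            Θ (X (some (some (Sum.inl j)))) := fun j => by ring
      have h7 : ∀ j, t (rr (pderiv (some (Sum.inr j)) (P k))) *
          (t (X (some (some (Sum.inr j)))) * ω j) =
          ω j * (t (X (some (some (Sum.inr j)))) * t (rr (pderiv (some (Sum.inr j)) (P k)))) :=
        fun j => by ring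
      simp only [h6, h7] at h4
      linear_combination -h4
    have h8 : Θ (X (some (some (Sum.inl i)))) = ∑ k, (t (X none) *
        t (rr ((jac P).adjugate i k))) * ∑ j, t (rr (jac P k j)) *
          Θ (X (some (some (Sum.inl j)))) := by
      simp only [Finset.mul_sum]
      rw [Finset.sum_comm]
      have : ∀ j, ∑ k, (t (X none) * t (rr ((jac P).adjugate i k))) * (t (rr (jac P k j)) *
          Θ (X (some (some (Sum.inl j))))) =
          (if i = j then 1 else 0) * Θ (X (some (some (Sum.inl j)))) := by
        intro j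
        rw [← h.adj_mul_jac i j, Finset.sum_mul]
        exact Finset.sum_congr rfl fun k _ => by ring
      simp only [this]
      simp
    rw [h8]
    simp only [h3]
    simp only [hΨ, der_some, img, t_imgX, t_vvec]
    simp only [map_one, map_zero, Pi.zero_apply, zero_mul, Finset.sum_const_zero, add_zero,
      neg_zero, zero_add, one_mul, mul_add, Finset.sum_add_distrib]
    have h9 : ∀ (j : Fin n) (k : Fin n), ∑ l, algebraMap C K ((Pi.single j (1 : C) : Fin n → C) l) *
        (t (X (some (some (Sum.inr l)))) * t (rr (pderiv (some (Sum.inr l)) (P k)))) =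
        t (X (some (some (Sum.inr j)))) * t (rr (pderiv (some (Sum.inr j)) (P k))) := by
      intro j k
      rw [Finset.sum_eq_single j]
      · simp
      · intro l _ hl
        rw [Pi.single_eq_of_ne hl, map_zero, zero_mul]
      · intro hj; exact absurd (Finset.mem_univ j) hj
    simp only [h9]
    congr 1
    · rw [Finset.mul_sum]
      exact Finset.sum_congr rfl fun k _ => by ring
    · simp only [Finset.mul_sum]
      rw [Finset.sum_comm]
      exact Finset.sum_congr rfl fun j _ => Finset.sum_congr rfl fun k _ => by ring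
  have hY : ∀ i, Θ (X (some (some (Sum.inr i)))) = Ψ (X (some (some (Sum.inr i)))) := by
    intro i
    rw [hω i, hX i]
    simp only [hΨ, der_some, img, map_mul, map_sub]
    have hC : ∀ c : C, t (MvPolynomial.C c) = algebraMap C K c := fun c => t.commutes c
    simp only [hC, Pi.zero_apply, map_zero, sub_zero]
    have h10 : ∑ j, ω j * (t (X (some (some (Sum.inr i)))) * (t (imgX P 0 (Pi.single j 1) i) -
        algebraMap C K ((Pi.single j (1 : C) : Fin n → C) i))) =
        t (X (some (some (Sum.inr i)))) * (∑ j, ω j * t (imgX P 0 (Pi.single j 1) i)) -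
          t (X (some (some (Sum.inr i)))) * ω i := by
      have h11 : ∀ j, ω j * (t (X (some (some (Sum.inr i)))) * (t (imgX P 0 (Pi.single j 1) i) -
        algebraMap C K ((Pi.single j (1 : C) : Fin n → C) i))) =
        t (X (some (some (Sum.inr i)))) * (ω j * t (imgX P 0 (Pi.single j 1) i)) -
          t (X (some (some (Sum.inr i)))) *
            (ω j * algebraMap C K ((Pi.single j (1 : C) : Fin n → C) i)) := fun j => by ring
      simp only [h11, Finset.sum_sub_distrib, ← Finset.mul_sum]
      congr 2
      rw [Finset.sum_eq_single i]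
      · simp
      · intro l _ hl
        rw [Pi.single_eq_of_ne hl.symm, map_zero, mul_zero]
      · intro hj; exact absurd (Finset.mem_univ i) hj
    rw [h10]
    ring
  have hrr : ∀ f : MvPolynomial (Vars n) C, Θ (rr f) = Ψ (rr f) := by
    intro f
    refine DerAlong.ext (hΘ.comp (rr (n := n) (C := C))) (hΨd.comp (rr (n := n) (C := C))) ?_ f
    intro a
    simp only [rename_X]
    match a with
    | none => exact hZ
    | some (Sum.inl i) => exact hX i
    | some (Sum.inr i) => exact hY i
  have hT : Θ (X none) = Ψ (X none) := by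
    have h12 : ∀ Φ : MvPolynomial (Option (Vars n)) C → K, DerAlong t Φ →
        Φ (X none * rr (jac P).det) = 0 →
        Φ (X none) = - (t (X none) ^ 2 * Φ (rr (jac P).det)) := by
      intro Φ hΦ h0
      rw [hΦ.mul] at h0
      linear_combination (t (X none)) * h0 - (Φ (X none)) * h.inv
    have h13 : Ψ (X none * rr (jac P).det) = 0 := by
      simp only [hΨ, h.der_inv, mul_zero, Finset.sum_const_zero, add_zero]
    rw [h12 Θ hΘ h2, h12 Ψ hΨd h13, hrr]
  refine DerAlong.ext hΘ hΨd ?_ x
  intro a
  match a with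
  | none => exact hT
  | some none => exact hZ
  | some (some (Sum.inl i)) => exact hX i
  | some (some (Sum.inr i)) => exact hY i

/-- the ideal of the system -/
noncomputable def sysIdeal (P : Fin n → MvPolynomial (Vars n) C) :
    Ideal (MvPolynomial (Option (Vars n)) C) :=
  Ideal.span (Set.range (fun k => rr (P k)) ∪ {X none * rr (jac P).det - 1})

theorem isSol_mk (P : Fin n → MvPolynomial (Vars n) C) :
    IsSol P (Ideal.Quotient.mkₐ C (sysIdeal P)) where
  eqn := fun k => by
    rw [Ideal.Quotient.mkₐ_eq_mk, Ideal.Quotient.eq_zero_iff_mem]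
    exact Ideal.subset_span (Or.inl ⟨k, rfl⟩)
  inv := by
    rw [← map_mul, ← map_one (Ideal.Quotient.mkₐ C (sysIdeal P)), Ideal.Quotient.mkₐ_eq_mk,
      Ideal.Quotient.eq]
    exact Ideal.subset_span (Or.inr rfl)

theorem IsSol.map_sysIdeal (h : IsSol P t) {x : MvPolynomial (Option (Vars n)) C}
    (hx : x ∈ sysIdeal P) : t x = 0 := by
  have hle : sysIdeal P ≤ RingHom.ker t.toRingHom := by
    refine Ideal.span_le.2 ?_
    rintro y (⟨k, rfl⟩ | hy)
    · exact h.eqn k
    · rw [Set.mem_singleton_iff] at hy
      rw [hy]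
      have h1 := h.inv
      rw [← map_mul] at h1
      change t _ = 0
      rw [map_sub, map_one, h1, sub_self]
  exact hle hx

theorem der_mem_sysIdeal {x : MvPolynomial (Option (Vars n)) C} (hx : x ∈ sysIdeal P) :
    der P ζ ε x ∈ sysIdeal P := by
  have h := isSol_mk P
  rw [sysIdeal] at hx
  refine Submodule.span_induction (p := fun x _ => der P ζ ε x ∈ sysIdeal P) ?_ ?_ ?_ ?_ hx
  · rintro y (⟨k, rfl⟩ | hy)
    · have h1 := h.der_eqn ζ ε k
      rwa [Ideal.Quotient.mkₐ_eq_mk, Ideal.Quotient.eq_zero_iff_mem] at h1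
    · rw [Set.mem_singleton_iff] at hy
      rw [hy, map_sub, Derivation.map_one_eq_zero, sub_zero]
      have h1 := h.der_inv ζ ε
      rwa [Ideal.Quotient.mkₐ_eq_mk, Ideal.Quotient.eq_zero_iff_mem] at h1
  · rw [map_zero]; exact Ideal.zero_mem _
  · intro x y _ _ hx hy
    rw [map_add]; exact Ideal.add_mem _ hx hy
  · intro a x hx' hx
    rw [smul_eq_mul, Derivation.leibniz, smul_eq_mul, smul_eq_mul]
    exact Ideal.add_mem _ (Ideal.mul_mem_left _ _ hx) (Ideal.mul_mem_right _ _ hx')

theorem commutator_mem_sysIdeal (ζ ζ' : C) (ε ε' : Fin n → C)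
    (x : MvPolynomial (Option (Vars n)) C) :
    der P ζ ε (der P ζ' ε' x) - der P ζ' ε' (der P ζ ε x) ∈ sysIdeal P := by
  have h := isSol_mk P
  set π := Ideal.Quotient.mkₐ C (sysIdeal P) with hπ
  have hd : DerAlong π (fun x => π (⁅der P ζ ε, der P ζ' ε'⁆ x)) := DerAlong.comp_der π _
  have hbr : ∀ x, (⁅der P ζ ε, der P ζ' ε'⁆) x =
      der P ζ ε (der P ζ' ε' x) - der P ζ' ε' (der P ζ ε x) := fun x =>
    Derivation.commutator_apply _
  have hI : ∀ y ∈ sysIdeal P, π (⁅der P ζ ε, der P ζ' ε'⁆ y) = 0 := by
    intro y hy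
    rw [hbr, hπ, Ideal.Quotient.mkₐ_eq_mk, Ideal.Quotient.eq_zero_iff_mem]
    exact Ideal.sub_mem _ (der_mem_sysIdeal _ _ (der_mem_sysIdeal _ _ hy))
      (der_mem_sysIdeal _ _ (der_mem_sysIdeal _ _ hy))
  have h1 : ∀ k, π (⁅der P ζ ε, der P ζ' ε'⁆ (rr (P k))) = 0 := fun k =>
    hI _ (Ideal.subset_span (Or.inl ⟨k, rfl⟩))
  have h2 : π (⁅der P ζ ε, der P ζ' ε'⁆ (X none * rr (jac P).det)) = 0 := by
    have h3 := hI _ (Ideal.subset_span (Or.inr rfl) : X none * rr (jac P).det - 1 ∈ sysIdeal P)
    rwa [map_sub, Derivation.map_one_eq_zero, sub_zero] at h3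
  have hY : ∀ i, π (⁅der P ζ ε, der P ζ' ε'⁆ (X (some (some (Sum.inr i))))) =
      π (X (some (some (Sum.inr i)))) *
        (π (⁅der P ζ ε, der P ζ' ε'⁆ (X (some (some (Sum.inl i))))) - 0) := by
    intro i
    rw [sub_zero, ← map_mul]
    congr 1
    rw [hbr, hbr]
    simp only [der_some, img, Derivation.leibniz, map_sub, smul_eq_mul, MvPolynomial.derivation_C]
    ring
  have hZ : π (⁅der P ζ ε, der P ζ' ε'⁆ (X (some none))) = 0 := by
    rw [hbr]
    simp only [der_some, img, MvPolynomial.derivation_C, sub_self, map_zero]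
  have hF := h.formula hd h1 h2 (fun _ => 0) hY x
  rw [hZ] at hF
  simp only [zero_mul, Finset.sum_const_zero, add_zero] at hF
  rwa [hbr, hπ, Ideal.Quotient.mkₐ_eq_mk, Ideal.Quotient.eq_zero_iff_mem] at hF

theorem iterate_commutator_mem_sysIdeal (ζ ζ' : C) (ε ε' : Fin n → C) (l : ℕ)
    (x : MvPolynomial (Option (Vars n)) C) :
    der P ζ' ε' ((⇑(der P ζ ε))^[l] x) - (⇑(der P ζ ε))^[l] (der P ζ' ε' x) ∈ sysIdeal P := by
  induction l with
  | zero => simp
  | succ l ih =>
    rw [Function.iterate_succ_apply', Function.iterate_succ_apply']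
    have h1 := commutator_mem_sysIdeal (P := P) ζ' ζ ε' ε ((⇑(der P ζ ε))^[l] x)
    have h2 := der_mem_sysIdeal (P := P) ζ ε ih
    rw [map_sub] at h2
    have h3 := Ideal.add_mem _ h1 h2
    convert h3 using 1
    ring

end System

end Pool.Agent.Lib.MP_1e09a3_nt
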