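import Pool.Agent.Lib.MP_1e09a3_nt.LemmaR
import Pool.Agent.Lib.MP_1e09a3_nt.PolyDer
import Pool.Agent.Lib.MP_1e09a3_nt.ExtDer

/-!
The algebraic core: a flat component of a solution of a nondegenerate exponential-polynomial
system is algebraic.
-/

set_option linter.style.haveILetI false

open Finset MvPolynomial

namespace Pool.Agent.Lib.MP_1e09a3_nt

section Flat

variable {C Ω : Type*} [Field C] [Field Ω] [Algebra C Ω]

/-- the derivation of the field of flat elements -/
noncomputable def flatDer (D : Derivation C Ω Ω) : Derivation C (flatField D) (flatField D) :=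
  Derivation.mk'
    { toFun := fun x => ⟨D x, D_mem_flatField x.2⟩
      map_add' := fun _ _ => Subtype.ext (map_add D _ _)
      map_smul' := fun c x => Subtype.ext (D.map_smul c x) }
    (fun a b => Subtype.ext (D.leibniz a b))

theorem coe_flatDer (D : Derivation C Ω Ω) (x : flatField D) :
    ((flatDer D x : flatField D) : Ω) = D x := rfl

theorem coe_iterate_flatDer (D : Derivation C Ω Ω) (n : ℕ) (x : flatField D) :
    (((⇑(flatDer D))^[n] x : flatField D) : Ω) = (⇑D)^[n] x := by
  induction n with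
  | zero => rfl
  | succ n ih => rw [Function.iterate_succ_apply', Function.iterate_succ_apply', coe_flatDer, ih]

theorem isFlatElt_flatDer (D : Derivation C Ω Ω) (x : flatField D) : IsFlatElt (flatDer D) x := by
  obtain ⟨S, hS, hx⟩ := x.2
  have hSL : ∀ y ∈ Algebra.adjoin ℤ S, y ∈ flatField D := fun y hy => ⟨S, hS, hy⟩
  set S' : Set (flatField D) := Subtype.val ⁻¹' S with hS'
  have himg : Subtype.val '' S' = S := by
    ext y
    constructor
    · rintro ⟨w, hw, rfl⟩; exact hw
    · intro hy; exact ⟨⟨y, hSL y (Algebra.subset_adjoin hy)⟩, hy, rfl⟩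
  have hmap : (Algebra.adjoin ℤ S').map ((algebraMap (flatField D) Ω).toIntAlgHom) =
      Algebra.adjoin ℤ S := by
    rw [AlgHom.map_adjoin]
    congr 1
  have hkey : ∀ y : flatField D, (y : Ω) ∈ Algebra.adjoin ℤ S → y ∈ Algebra.adjoin ℤ S' := by
    intro y hy
    rw [← hmap] at hy
    obtain ⟨w, hw, hwy⟩ := hy
    have : w = y := Subtype.ext hwy
    rw [← this]
    exact hw
  refine ⟨S', ⟨?_, ?_, ?_⟩, hkey x hx⟩
  · exact hS.1.preimage Subtype.val_injective.injOn
  · intro s hs
    exact hkey _ (hS.2.1 s hs)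
  · intro p hp s hs
    obtain ⟨b, hb, hbs⟩ := hS.2.2 p hp s hs
    refine ⟨⟨b, hSL b hb⟩, hkey _ hb, ?_⟩
    apply Subtype.ext
    rw [coe_iterate_flatDer]
    push_cast
    exact hbs

theorem flatDer_const {D : Derivation C Ω Ω} (hconst : ∀ x, D x = 0 → ∃ c : C, algebraMap C Ω c = x)
    (x : flatField D) (hx : flatDer D x = 0) : ∃ c : C, algebraMap C (flatField D) c = x := by
  obtain ⟨c, hc⟩ := hconst x (by rw [← coe_flatDer, hx]; rfl)
  exact ⟨c, Subtype.ext hc⟩

theorem wronskian_indep {D : Derivation C Ω Ω}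
    (hconst : ∀ x, D x = 0 → ∃ c : C, algebraMap C Ω c = x) {m : ℕ} (ψ : Fin m → Ω)
    (hψ : LinearIndependent C ψ) (c : Fin m → Ω)
    (h : ∀ l : ℕ, ∑ j, c j * (⇑D)^[l] (ψ j) = 0) : c = 0 := by
  classical
  obtain ⟨N, hN⟩ : ∃ N, N = (Finset.univ.filter fun j => c j ≠ 0).card := ⟨_, rfl⟩
  induction N using Nat.strong_induction_on generalizing c with
  | _ N ih =>
    by_contra hne
    obtain ⟨j₀, hj₀⟩ := Function.ne_iff.1 hne
    rw [Pi.zero_apply] at hj₀
    set c' : Fin m → Ω := fun j => (c j₀)⁻¹ * c j with hc'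
    have hc'0 : c' j₀ = 1 := inv_mul_cancel₀ hj₀
    have h' : ∀ l : ℕ, ∑ j, c' j * (⇑D)^[l] (ψ j) = 0 := by
      intro l
      simp only [hc', mul_assoc]
      rw [← Finset.mul_sum, h l, mul_zero]
    have h'' : ∀ l : ℕ, ∑ j, D (c' j) * (⇑D)^[l] (ψ j) = 0 := by
      intro l
      have h1 := congrArg D (h' l)
      rw [map_sum, map_zero] at h1
      have h2 : ∀ j, D (c' j * (⇑D)^[l] (ψ j)) =
          c' j * (⇑D)^[l + 1] (ψ j) + D (c' j) * (⇑D)^[l] (ψ j) := by
        intro j
        rw [Derivation.leibniz, smul_eq_mul, smul_eq_mul, Function.iterate_succ_apply']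
        ring
      simp only [h2, Finset.sum_add_distrib, h', zero_add] at h1
      exact h1
    have hlt : (Finset.univ.filter fun j => D (c' j) ≠ 0).card < N := by
      rw [hN]
      refine Finset.card_lt_card ?_
      rw [Finset.ssubset_iff_of_subset]
      · refine ⟨j₀, by simpa using hj₀, ?_⟩
        rw [Finset.mem_filter, hc'0, Derivation.map_one_eq_zero]
        simp
      · intro j hj
        rw [Finset.mem_filter] at hj ⊢
        refine ⟨Finset.mem_univ _, fun h0 => hj.2 ?_⟩
        simp only [hc', h0, mul_zero, map_zero]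
    have h0 := ih _ hlt (fun j => D (c' j)) h'' rfl
    have hk : ∀ j, ∃ k : C, algebraMap C Ω k = c' j := fun j => hconst _ (congrFun h0 j)
    choose k hk using hk
    have h3 := h' 0
    simp only [Function.iterate_zero, id, ← hk] at h3
    have h4 : ∑ j, k j • ψ j = 0 := by
      simpa only [Algebra.smul_def] using h3
    have h5 := Fintype.linearIndependent_iff.1 hψ k h4 j₀
    have h6 := hk j₀
    rw [h5, map_zero, hc'0] at h6
    exact zero_ne_one h6

end Flat

section Pt

variable {C Ω : Type*} [CommRing C] [Field Ω] [Algebra C Ω] {n : ℕ}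

/-- the point `(T, z, x, u)` -/
noncomputable def pt' (P : Fin n → MvPolynomial (Vars n) C) (z : Ω) (x u : Fin n → Ω) :
    Option (Vars n) → Ω
  | none => (aeval (pt z x u) (jac P).det)⁻¹
  | some a => pt z x u a

theorem aeval_pt'_rr (P : Fin n → MvPolynomial (Vars n) C) (z : Ω) (x u : Fin n → Ω)
    (f : MvPolynomial (Vars n) C) : aeval (pt' P z x u) (rr f) = aeval (pt z x u) f := by
  rw [rr, aeval_rename]
  rfl

theorem isSol_pt' (P : Fin n → MvPolynomial (Vars n) C) (z : Ω) (x u : Fin n → Ω)
    (hP : ∀ k, aeval (pt z x u) (P k) = 0) (hJ : aeval (pt z x u) (jac P).det ≠ 0) :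
    IsSol P (aeval (pt' P z x u)) where
  eqn := fun k => by rw [aeval_pt'_rr, hP k]
  inv := by
    rw [aeval_pt'_rr, aeval_X]
    exact inv_mul_cancel₀ hJ

theorem D_aeval_pt' (D : Derivation C Ω Ω) (P : Fin n → MvPolynomial (Vars n) C) (z : Ω)
    (hz : D z = 1) (x u : Fin n → Ω) (hu : ∀ i, D (u i) = u i * D (x i))
    (hP : ∀ k, aeval (pt z x u) (P k) = 0) (hJ : aeval (pt z x u) (jac P).det ≠ 0)
    (f : MvPolynomial (Option (Vars n)) C) :
    D (aeval (pt' P z x u) f) = aeval (pt' P z x u) (der P 1 0 f) := by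
  have hs := isSol_pt' P z x u hP hJ
  have h := hs.formula (DerAlong.der_comp (aeval (pt' P z x u)) D)
    (fun k => by rw [hs.eqn k, map_zero])
    (by rw [map_mul, hs.inv, Derivation.map_one_eq_zero])
    (fun _ => 0)
    (fun i => by
      simp only [aeval_X, sub_zero]
      exact hu i) f
  rw [h]
  simp only [aeval_X, zero_mul, Finset.sum_const_zero, add_zero]
  change D z * _ = _
  rw [hz, one_mul]

theorem D_iterate_aeval_pt' (D : Derivation C Ω Ω) (P : Fin n → MvPolynomial (Vars n) C) (z : Ω)
    (hz : D z = 1) (x u : Fin n → Ω) (hu : ∀ i, D (u i) = u i * D (x i))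
    (hP : ∀ k, aeval (pt z x u) (P k) = 0) (hJ : aeval (pt z x u) (jac P).det ≠ 0) (l : ℕ)
    (f : MvPolynomial (Option (Vars n)) C) :
    (⇑D)^[l] (aeval (pt' P z x u) f) = aeval (pt' P z x u) ((⇑(der P 1 0))^[l] f) := by
  induction l with
  | zero => rfl
  | succ l ih =>
    rw [Function.iterate_succ_apply', ih, D_aeval_pt' D P z hz x u hu hP hJ,
      Function.iterate_succ_apply']

end Pt

section Core

variable {C L : Type*} [Field C] [CharZero C] [IsAlgClosed C] [Field L] [Algebra C L] {n : ℕ}

/-- the second half of the argument, over the field of flat elements -/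
theorem core (D : Derivation C L L) (hconst : ∀ x, D x = 0 → ∃ c : C, algebraMap C L c = x)
    (hflat : ∀ x : L, IsFlatElt D x) (P : Fin n → MvPolynomial (Vars n) C)
    (t : MvPolynomial (Option (Vars n)) C →ₐ[C] L) (ht : IsSol P t)
    (hY : ∀ i, t (X (some (some (Sum.inr i)))) ≠ 0) (i₀ : Fin n) {m : ℕ}
    (β : Fin m → Fin n) (a : Fin n → Fin m → C)
    (ha : ∀ j, t (der P 0 (Pi.single j 1) (X (some (some (Sum.inl i₀))))) =
      ∑ i, algebraMap C L (a j i) * t (der P 0 (Pi.single (β i) 1) (X (some (some (Sum.inl i₀))))))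
    (hω : ∀ i, ∑ j, algebraMap C L (a j i) * (D (t (X (some (some (Sum.inl j))))) -
      dlog D (t (X (some (some (Sum.inr j)))))) = 0)
    (E : Derivation C L L) (hE : E (t (X (some none))) = 0) :
    E (t (X (some (some (Sum.inl i₀))))) = 0 := by
  classical
  have hR : ∀ i, D (∑ j, algebraMap C L (a j i) * t (X (some (some (Sum.inl j))))) = 0 ∧
      ∀ E : Derivation C L L, ∑ j, algebraMap C L (a j i) *
        dlog E (t (X (some (some (Sum.inr j))))) = 0 := by
    intro i
    refine lemmaR D hconst hflat (fun j => a j i) (fun j => t (X (some (some (Sum.inr j))))) hY _ ?_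
    rw [map_sum]
    have h1 := hω i
    simp only [mul_sub, Finset.sum_sub_distrib] at h1
    rw [← sub_eq_zero, ← h1]
    congr 1
    refine Finset.sum_congr rfl fun j _ => ?_
    rw [Derivation.leibniz, D.map_algebraMap, smul_zero, add_zero, smul_eq_mul]
  have hE2 : ∀ i, ∑ j, algebraMap C L (a j i) * (E (t (X (some (some (Sum.inl j))))) -
      dlog E (t (X (some (some (Sum.inr j)))))) = 0 := by
    intro i
    simp only [mul_sub, Finset.sum_sub_distrib]
    rw [(hR i).2 E, sub_zero]
    obtain ⟨c, hc⟩ := hconst _ (hR i).1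
    have h2 : E (∑ j, algebraMap C L (a j i) * t (X (some (some (Sum.inl j))))) = 0 := by
      rw [← hc, E.map_algebraMap]
    rw [map_sum] at h2
    rw [← h2]
    refine Finset.sum_congr rfl fun j _ => ?_
    rw [Derivation.leibniz, E.map_algebraMap, smul_zero, add_zero, smul_eq_mul]
  have hF := ht.formula (DerAlong.der_comp t E)
    (fun k => by rw [ht.eqn k, map_zero])
    (by rw [map_mul, ht.inv, Derivation.map_one_eq_zero])
    (fun j => E (t (X (some (some (Sum.inl j))))) - dlog E (t (X (some (some (Sum.inr j))))))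
    (fun i => by
      have := hY i
      simp only [dlog]
      field_simp
      ring) (X (some (some (Sum.inl i₀))))
  rw [hF, hE, zero_mul, zero_add]
  have h0 : ∀ j, (E (t (X (some (some (Sum.inl j))))) -
      dlog E (t (X (some (some (Sum.inr j)))))) *
      t (der P 0 (Pi.single j 1) (X (some (some (Sum.inl i₀))))) =
      ∑ i, (E (t (X (some (some (Sum.inl j))))) - dlog E (t (X (some (some (Sum.inr j)))))) *
        (algebraMap C L (a j i) *
          t (der P 0 (Pi.single (β i) 1) (X (some (some (Sum.inl i₀)))))) := by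
    intro j
    rw [ha j, Finset.mul_sum]
  rw [Finset.sum_congr rfl fun j _ => h0 j]
  rw [Finset.sum_comm]
  refine Finset.sum_eq_zero fun i _ => ?_
  have h3 := hE2 i
  have h4 : ∑ j, (E (t (X (some (some (Sum.inl j))))) - dlog E (t (X (some (some (Sum.inr j)))))) *
      (algebraMap C L (a j i) * t (der P 0 (Pi.single (β i) 1) (X (some (some (Sum.inl i₀)))))) =
      (∑ j, algebraMap C L (a j i) * (E (t (X (some (some (Sum.inl j))))) -
        dlog E (t (X (some (some (Sum.inr j))))))) *
          t (der P 0 (Pi.single (β i) 1) (X (some (some (Sum.inl i₀))))) := by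
    rw [Finset.sum_mul]
    exact Finset.sum_congr rfl fun j _ => by ring
  rw [h4, h3, zero_mul]

end Core

section Main

variable {C Ω : Type*} [Field C] [CharZero C] [IsAlgClosed C] [Field Ω] [IsAlgClosed Ω]
  [Algebra C Ω] {n : ℕ}

/-- A flat component of a solution of a nondegenerate exponential-polynomial system is algebraic
over the field of rational functions. -/
theorem not_algebraicIndependent (D : Derivation C Ω Ω)
    (hconst : ∀ x, D x = 0 → ∃ c : C, algebraMap C Ω c = x)
    (z : Ω) (hz : D z = 1) (P : Fin n → MvPolynomial (Vars n) C) (x u : Fin n → Ω)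
    (hu0 : ∀ i, u i ≠ 0) (hu : ∀ i, D (u i) = u i * D (x i))
    (hP : ∀ k, aeval (pt z x u) (P k) = 0)
    (hJ : aeval (pt z x u) (jac P).det ≠ 0)
    (i₀ : Fin n) (hy : IsFlatElt D (x i₀)) :
    ¬ AlgebraicIndependent C ![z, x i₀] := by
  classical
  haveI : CharZero Ω := charZero_of_injective_algebraMap (algebraMap C Ω).injective
  haveI : IsAlgClosed (flatField D) := isAlgClosed_flatField D
  set τ := aeval (R := C) (pt' P z x u) with hτ
  have hτsol : IsSol P τ := isSol_pt' P z x u hP hJ
  have hDτ : ∀ (l : ℕ) f, (⇑D)^[l] (τ f) = τ ((⇑(der P 1 0))^[l] f) :=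
    D_iterate_aeval_pt' D P z hz x u hu hP hJ
  set Xi : MvPolynomial (Option (Vars n)) C := X (some (some (Sum.inl i₀))) with hXi
  set Ej : Fin n → MvPolynomial (Option (Vars n)) C := fun j => der P 0 (Pi.single j 1) Xi with hEj
  -- a basis of the span of the `τ (Ej j)`
  obtain ⟨κ, α, hα, hsp, hli⟩ := exists_linearIndependent' C (fun j => τ (Ej j))
  haveI : Finite κ := Finite.of_injective α hα
  haveI : Fintype κ := Fintype.ofFinite κ
  let e := (Fintype.equivFin κ).symm
  set m := Fintype.card κ with hm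
  set β : Fin m → Fin n := fun j => α (e j) with hβ
  have hli' : LinearIndependent C (fun j => τ (Ej (β j))) := hli.comp e e.injective
  have hb : ∀ j, ∃ b : Fin m → C, τ (Ej j) = ∑ i, algebraMap C Ω (b i) * τ (Ej (β i)) := by
    intro j
    have h1 : τ (Ej j) ∈ Submodule.span C (Set.range ((fun j => τ (Ej j)) ∘ α)) := by
      rw [hsp]
      exact Submodule.subset_span ⟨j, rfl⟩
    obtain ⟨c, hc⟩ := (Submodule.mem_span_range_iff_exists_fun C).1 h1
    refine ⟨fun i => c (e i), ?_⟩
    rw [← hc, ← Equiv.sum_comp e]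
    refine Finset.sum_congr rfl fun i _ => ?_
    rw [Algebra.smul_def]
    rfl
  choose a ha using hb
  -- nonvanishing minor
  obtain ⟨f, hf⟩ := exists_det_ne_zero (fun (l : ℕ) (i : Fin m) => (⇑D)^[l] (τ (Ej (β i))))
    (fun c hc => wronskian_indep hconst _ hli' c hc)
  -- the retraction
  set S₀ : Set Ω := Set.range (pt' P z x u) ∪ Set.range (fun i => (u i)⁻¹) with hS₀
  have hS₀fin : S₀.Finite := (Set.finite_range _).union (Set.finite_range _)
  have hptS : ∀ a, pt' P z x u a ∈ Algebra.adjoin (flatField D) S₀ := fun a =>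
    Algebra.subset_adjoin (Or.inl ⟨a, rfl⟩)
  let τ' : MvPolynomial (Option (Vars n)) C →ₐ[C] Algebra.adjoin (flatField D) S₀ :=
    aeval (fun a => ⟨pt' P z x u a, hptS a⟩)
  have hτ' : ∀ f, ((τ' f : Algebra.adjoin (flatField D) S₀) : Ω) = τ f := by
    intro f
    have h1 : (((Algebra.adjoin (flatField D) S₀).val).restrictScalars C).comp τ' = τ := by
      refine MvPolynomial.algHom_ext fun a => ?_
      simp [τ', hτ]
    exact AlgHom.congr_fun h1 f
  have hWmem : (Matrix.of fun k i => (⇑D)^[f k] (τ (Ej (β i)))).det ∈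
      Algebra.adjoin (flatField D) S₀ := by
    have h1 : (Matrix.of fun k i => (⇑D)^[f k] (τ (Ej (β i)))).det =
        ((τ' (Matrix.of fun k i => (⇑(der P 1 0))^[f k] (Ej (β i))).det :
          Algebra.adjoin (flatField D) S₀) : Ω) := by
      rw [hτ', AlgHom.map_det]
      congr 1
      ext k i
      simp only [Matrix.of_apply, AlgHom.mapMatrix_apply, Matrix.map_apply]
      exact hDτ (f k) (Ej (β i))
    rw [h1]
    exact (τ' _).2
  obtain ⟨s, hs⟩ := exists_retraction (K := flatField D) S₀ hS₀fin _ hf hWmem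
  let t : MvPolynomial (Option (Vars n)) C →ₐ[C] flatField D := (s.restrictScalars C).comp τ'
  have htdef : ∀ f, t f = s (τ' f) := fun f => rfl
  have hteq : ∀ f g, τ f = τ g → t f = t g := by
    intro f g hfg
    rw [htdef, htdef]
    congr 1
    exact Subtype.ext (by rw [hτ', hτ', hfg])
  have htL : ∀ f (y : flatField D), τ f = y → t f = y := by
    intro f y hfy
    have h1 : τ' f = algebraMap (flatField D) (Algebra.adjoin (flatField D) S₀) y :=
      Subtype.ext (by rw [hτ', hfy]; rfl)
    rw [htdef, h1]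
    exact s.commutes y
  have htsol : IsSol P t := by
    refine ⟨fun k => ?_, ?_⟩
    · rw [← map_zero t]
      exact hteq _ _ (by rw [hτsol.eqn k, map_zero])
    · rw [← map_mul, ← map_one t]
      exact hteq _ _ (by rw [map_mul, hτsol.inv, map_one])
  have hY : ∀ i, t (X (some (some (Sum.inr i)))) ≠ 0 := by
    intro i h0
    have hui : (u i)⁻¹ ∈ Algebra.adjoin (flatField D) S₀ :=
      Algebra.subset_adjoin (Or.inr ⟨i, rfl⟩)
    have h1 : s (τ' (X (some (some (Sum.inr i))))) * s ⟨(u i)⁻¹, hui⟩ = 1 := by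
      rw [← map_mul]
      have : τ' (X (some (some (Sum.inr i)))) * ⟨(u i)⁻¹, hui⟩ = 1 := by
        apply Subtype.ext
        push_cast
        rw [hτ', hτ, aeval_X]
        exact mul_inv_cancel₀ (hu0 i)
      rw [this, map_one]
    rw [← htdef, h0, zero_mul] at h1
    exact zero_ne_one h1
  -- the elements z and y of the flat field
  have hzL : z ∈ flatField D := isFlatElt_of_D_eq_one hz
  have htz : t (X (some none)) = ⟨z, hzL⟩ := htL _ _ (by rw [hτ, aeval_X]; rfl)
  have hty : t Xi = ⟨x i₀, hy⟩ := htL _ _ (by rw [hτ, hXi, aeval_X]; rfl)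
  have htDy : ∀ l, t ((⇑(der P 1 0))^[l] Xi) = (⇑(flatDer D))^[l] ⟨x i₀, hy⟩ := by
    intro l
    refine htL _ _ ?_
    rw [← hDτ, coe_iterate_flatDer]
    congr 1
    rw [hτ, hXi, aeval_X]
    rfl
  -- the key relation
  set ω : Fin n → flatField D := fun j => flatDer D (t (X (some (some (Sum.inl j))))) -
      dlog (flatDer D) (t (X (some (some (Sum.inr j))))) with hωdef
  have hkey : ∀ l : ℕ, ∑ j, ω j * t ((⇑(der P 1 0))^[l] (Ej j)) = 0 := by
    intro l
    have hF := htsol.formula
      ((DerAlong.der_comp t (flatDer D)).sub (DerAlong.comp_der t (der P 1 0)))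
      (fun k => by rw [htsol.eqn k, map_zero, htsol.der_eqn 1 0 k, sub_zero])
      (by rw [map_mul, htsol.inv, Derivation.map_one_eq_zero, htsol.der_inv, sub_zero])
      ω
      (fun i => by
        have := hY i
        simp only [hωdef, dlog, der_some, img, map_mul, Pi.zero_apply, map_zero, sub_zero]
        field_simp
        ring) ((⇑(der P 1 0))^[l] Xi)
    have h1 : flatDer D (t ((⇑(der P 1 0))^[l] Xi)) - t (der P 1 0 ((⇑(der P 1 0))^[l] Xi)) = 0 := by
      rw [htDy l, ← Function.iterate_succ_apply' (⇑(der P 1 0)), htDy (l + 1),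
        Function.iterate_succ_apply', sub_self]
    have h2 : flatDer D (t (X (some none))) - t (der P 1 0 (X (some none))) = 0 := by
      rw [htz, der_some]
      simp only [img, map_one]
      rw [sub_eq_zero]
      exact Subtype.ext hz
    rw [h1, h2, zero_mul, zero_add] at hF
    rw [hF]
    refine Finset.sum_congr rfl fun j _ => ?_
    congr 1
    have h3 := htsol.map_sysIdeal
      (iterate_commutator_mem_sysIdeal (P := P) 1 0 0 (Pi.single j 1) l Xi)
    rw [map_sub, sub_eq_zero] at h3
    exact h3.symm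
  have hrel : ∀ (l : ℕ) j, t ((⇑(der P 1 0))^[l] (Ej j)) =
      ∑ i, algebraMap C (flatField D) (a j i) * t ((⇑(der P 1 0))^[l] (Ej (β i))) := by
    intro l j
    have h1 : t (∑ i, MvPolynomial.C (a j i) * (⇑(der P 1 0))^[l] (Ej (β i))) =
        ∑ i, algebraMap C (flatField D) (a j i) * t ((⇑(der P 1 0))^[l] (Ej (β i))) := by
      rw [map_sum]
      refine Finset.sum_congr rfl fun i _ => ?_
      rw [map_mul]
      congr 1
      exact t.commutes (a j i)
    rw [← h1]
    refine hteq _ _ ?_
    rw [← hDτ, ha j, iterate_sum, map_sum]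
    refine Finset.sum_congr rfl fun i _ => ?_
    rw [map_mul, ← hDτ]
    have h2 : τ (MvPolynomial.C (a j i)) = algebraMap C Ω (a j i) := τ.commutes (a j i)
    rw [h2]
    clear h1
    generalize τ (Ej (β i)) = w
    induction l with
    | zero => rfl
    | succ l ih =>
      rw [Function.iterate_succ_apply', ih, Derivation.leibniz, D.map_algebraMap,
        Function.iterate_succ_apply', smul_eq_mul, smul_eq_mul]
      ring
  -- vanishing of the combinations
  have hω : ∀ i, ∑ j, algebraMap C (flatField D) (a j i) * ω j = 0 := by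
    have hM : (Matrix.of fun k i => t ((⇑(der P 1 0))^[f k] (Ej (β i)))).det ≠ 0 := by
      have h1 : (Matrix.of fun k i => t ((⇑(der P 1 0))^[f k] (Ej (β i)))).det =
          s ⟨_, hWmem⟩ := by
        have h2 : (⟨_, hWmem⟩ : Algebra.adjoin (flatField D) S₀) =
            τ' (Matrix.of fun k i => (⇑(der P 1 0))^[f k] (Ej (β i))).det := by
          apply Subtype.ext
          rw [hτ', AlgHom.map_det]
          change (Matrix.of fun k i => (⇑D)^[f k] (τ (Ej (β i)))).det = _
          congr 1
          ext k i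
          simp only [Matrix.of_apply, AlgHom.mapMatrix_apply, Matrix.map_apply]
          exact hDτ (f k) (Ej (β i))
        rw [h2, ← htdef, AlgHom.map_det]
        congr 1
      rw [h1]
      exact hs
    have h3 : (Matrix.of fun k i => t ((⇑(der P 1 0))^[f k] (Ej (β i)))).mulVec
        (fun i => ∑ j, algebraMap C (flatField D) (a j i) * ω j) = 0 := by
      ext1 k
      simp only [Matrix.mulVec, dotProduct, Matrix.of_apply, Pi.zero_apply]
      rw [← hkey (f k)]
      have h5 : ∀ j, ω j * t ((⇑(der P 1 0))^[f k] (Ej j)) =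
          ∑ i, ω j * (algebraMap C (flatField D) (a j i) *
            t ((⇑(der P 1 0))^[f k] (Ej (β i)))) := by
        intro j
        rw [hrel (f k) j, Finset.mul_sum]
      rw [Finset.sum_congr rfl fun j _ => h5 j]
      simp only [Finset.mul_sum]
      rw [Finset.sum_comm]
      exact Finset.sum_congr rfl fun j _ => Finset.sum_congr rfl fun i _ => by ring
    have h4 := Matrix.eq_zero_of_mulVec_eq_zero hM h3
    exact fun i => congrFun h4 i
  intro hind
  -- algebraic independence over the flat field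
  have hind' : AlgebraicIndependent C ![(⟨z, hzL⟩ : flatField D), ⟨x i₀, hy⟩] := by
    have h1 : (fun i => ((flatField D).val (![(⟨z, hzL⟩ : flatField D), ⟨x i₀, hy⟩] i))) =
        ![z, x i₀] := by
      funext i
      fin_cases i <;> rfl
    refine AlgebraicIndependent.of_comp (flatField D).val ?_
    have h2 : ((flatField D).val ∘ ![(⟨z, hzL⟩ : flatField D), ⟨x i₀, hy⟩]) = ![z, x i₀] := h1
    rw [h2]
    exact hind
  obtain ⟨E, hE0, hE1⟩ := exists_der_of_indep _ _ hind'
  have hfin := core (flatDer D) (flatDer_const hconst) (isFlatElt_flatDer D) P t htsol hY i₀ β a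
    (fun j => hrel 0 j) hω E (by rw [htz]; exact hE0)
  rw [← hXi, hty, hE1] at hfin
  exact one_ne_zero hfin

end Main

end Pool.Agent.Lib.MP_1e09a3_nt
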