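import Mathlib

/-!
Linear algebra: a family of vectors with no common orthogonal vector contains an invertible
square submatrix; the `p`-th power trick for a nonzero alternant.
-/

namespace Pool.Agent.Lib.MP_1e09a3_nt

theorem exists_det_ne_zero {K : Type*} [Field K] {m : ℕ} {Ξ : Type*} (x : Ξ → Fin m → K)
    (h : ∀ c : Fin m → K, (∀ ξ, ∑ j, c j * x ξ j = 0) → c = 0) :
    ∃ f : Fin m → Ξ, (Matrix.of fun i j => x (f i) j).det ≠ 0 := by
  have hspan : Submodule.span K (Set.range x) = ⊤ := by
    by_contra hne
    obtain ⟨g, hg0, hg⟩ := Submodule.exists_le_ker_of_lt_top _ (lt_top_iff_ne_top.2 hne)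
    apply hg0
    have h0 : (fun j => g (fun i => if j = i then 1 else 0)) = 0 := by
      apply h
      intro ξ
      have h1 := LinearMap.pi_apply_eq_sum_univ g (x ξ)
      have h2 : g (x ξ) = 0 := hg (Submodule.subset_span ⟨ξ, rfl⟩)
      refine Eq.trans ?_ (h1.symm.trans h2)
      exact Finset.sum_congr rfl fun j _ => by rw [smul_eq_mul, mul_comm]
    refine LinearMap.ext fun v => ?_
    rw [LinearMap.pi_apply_eq_sum_univ g v]
    simp only [LinearMap.zero_apply]
    refine Finset.sum_eq_zero fun j _ => ?_
    have := congrFun h0 j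
    simp only [Pi.zero_apply] at this
    rw [this, smul_zero]
  obtain ⟨κ, a, ha, hsp, hli⟩ := exists_linearIndependent' K x
  rw [hspan] at hsp
  let b := Module.Basis.mk hli (by rw [hsp])
  haveI : Finite κ := Module.Finite.finite_basis b
  haveI : Fintype κ := Fintype.ofFinite κ
  have hcard : Fintype.card κ = m := by
    have := Module.finrank_eq_card_basis b
    simpa using this.symm
  let e : Fin m ≃ κ := (Fintype.equivFinOfCardEq hcard).symm
  refine ⟨fun i => a (e i), ?_⟩
  have hli2 : LinearIndependent K (fun i : Fin m => x (a (e i))) := hli.comp e e.injective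
  have hU : IsUnit (Matrix.of fun i j => x (a (e i)) j) := by
    rw [← Matrix.linearIndependent_rows_iff_isUnit]
    exact hli2
  rw [Matrix.isUnit_iff_isUnit_det] at hU
  exact hU.ne_zero

/-- In a commutative ring, the determinant of the matrix of `p`-th powers is congruent to the
`p`-th power of the determinant modulo `p`. -/
theorem det_pow_prime {A : Type*} [CommRing A] {m : ℕ} (M : Matrix (Fin m) (Fin m) A) (p : ℕ)
    (hp : p.Prime) : ∃ a : A, (Matrix.of fun i j => (M i j) ^ p).det = M.det ^ p + p * a := by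
  haveI : Fact p.Prime := ⟨hp⟩
  let I : Ideal A := Ideal.span {(p : A)}
  by_cases hI : I = ⊤
  · have h1 : (1 : A) ∈ I := by rw [hI]; trivial
    obtain ⟨c, hc⟩ := Ideal.mem_span_singleton'.1 h1
    refine ⟨c * ((Matrix.of fun i j => (M i j) ^ p).det - M.det ^ p), ?_⟩
    linear_combination (-((Matrix.of fun i j => (M i j) ^ p).det - M.det ^ p)) * hc
  · haveI : Nontrivial (A ⧸ I) := Ideal.Quotient.nontrivial_iff.2 hI
    haveI : CharP (A ⧸ I) p := by
      obtain ⟨q, hq⟩ := CharP.exists (A ⧸ I)
      have h0 : ((p : ℕ) : A ⧸ I) = 0 := by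
        rw [← map_natCast (Ideal.Quotient.mk I) p, Ideal.Quotient.eq_zero_iff_mem]
        exact Ideal.subset_span rfl
      have hdvd : q ∣ p := (CharP.cast_eq_zero_iff (A ⧸ I) q p).1 h0
      rcases (Nat.dvd_prime hp).1 hdvd with h | h
      · exact absurd h (CharP.char_ne_one (A ⧸ I) q)
      · rwa [h] at hq
    have h : (Ideal.Quotient.mk I) ((Matrix.of fun i j => (M i j) ^ p).det)
        = (Ideal.Quotient.mk I) (M.det ^ p) := by
      rw [RingHom.map_det, map_pow, RingHom.map_det]
      have := RingHom.map_det (frobenius (A ⧸ I) p) ((Ideal.Quotient.mk I).mapMatrix M)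
      rw [frobenius_def] at this
      rw [this]
      congr 1
    rw [Ideal.Quotient.eq, Ideal.mem_span_singleton'] at h
    obtain ⟨a, ha⟩ := h
    exact ⟨a, by linear_combination -ha⟩

end Pool.Agent.Lib.MP_1e09a3_nt
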