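import Pool.Agent.Lib.MP_1e09a3_nt.NS
import Pool.Agent.Lib.MP_1e09a3_nt.Rows
import Pool.Agent.Lib.MP_1e09a3_nt.WK

/-!
Linear relations between `p`-th powers, for all primes `p`.
-/

set_option linter.style.haveILetI false

namespace Pool.Agent.Lib.MP_1e09a3_nt

variable {C Ω : Type*} [Field C] [Field Ω] [Algebra C Ω]

theorem adjoin_int_le (S : Set Ω) (x : Ω) (hx : x ∈ Algebra.adjoin ℤ S) :
    x ∈ Algebra.adjoin C S := by
  induction hx using Algebra.adjoin_induction with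
  | mem x hx => exact Algebra.subset_adjoin hx
  | algebraMap n =>
    rw [eq_intCast (algebraMap ℤ Ω) n]
    exact Subalgebra.intCast_mem _ n
  | add x z _ _ h1 h2 => exact Subalgebra.add_mem _ h1 h2
  | mul x z _ _ h1 h2 => exact Subalgebra.mul_mem _ h1 h2

theorem map_mem_adjoin (S : Set Ω) (s : Algebra.adjoin C S →ₐ[C] C) (T : Set C)
    (hT : ∀ x (hx : x ∈ S), s ⟨x, Algebra.subset_adjoin hx⟩ ∈ Algebra.adjoin ℤ T) (c : Ω)
    (hc : c ∈ Algebra.adjoin ℤ S) :
    s ⟨c, adjoin_int_le S c hc⟩ ∈ Algebra.adjoin ℤ T := by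
  induction hc using Algebra.adjoin_induction with
  | mem x hx => exact hT x hx
  | algebraMap n =>
    have : s ⟨algebraMap ℤ Ω n, adjoin_int_le S _ (Subalgebra.algebraMap_mem _ n)⟩ = (n : C) := by
      have h1 : (⟨algebraMap ℤ Ω n, adjoin_int_le S _ (Subalgebra.algebraMap_mem _ n)⟩ :
          Algebra.adjoin C S) = (n : Algebra.adjoin C S) := by
        apply Subtype.ext; simp
      rw [h1, map_intCast]
    rw [this]
    exact Subalgebra.intCast_mem _ n
  | add x z hx hz h1 h2 =>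
    have : s ⟨x + z, adjoin_int_le S _ (Subalgebra.add_mem _ hx hz)⟩ =
        s ⟨x, adjoin_int_le S _ hx⟩ + s ⟨z, adjoin_int_le S _ hz⟩ := by
      rw [← map_add]; rfl
    rw [this]
    exact Subalgebra.add_mem _ h1 h2
  | mul x z hx hz h1 h2 =>
    have : s ⟨x * z, adjoin_int_le S _ (Subalgebra.mul_mem _ hx hz)⟩ =
        s ⟨x, adjoin_int_le S _ hx⟩ * s ⟨z, adjoin_int_le S _ hz⟩ := by
      rw [← map_mul]; rfl
    rw [this]
    exact Subalgebra.mul_mem _ h1 h2

theorem exists_points [IsAlgClosed C] (S : Set Ω) (hS : S.Finite) {m : ℕ} (G : Fin m → Ω)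
    (hG : ∀ j, G j ∈ Algebra.adjoin C S) (hli : LinearIndependent C G) :
    ∃ ev : Fin m → (Algebra.adjoin C S →ₐ[C] C),
      (Matrix.of fun i j => ev i ⟨G j, hG j⟩).det ≠ 0 := by
  refine exists_det_ne_zero (fun (ξ : Algebra.adjoin C S →ₐ[C] C) j => ξ ⟨G j, hG j⟩) ?_
  intro c hc
  by_contra hne
  have hsum : ∑ j, c j • G j ≠ 0 := by
    intro h0
    apply hne
    ext j
    exact Fintype.linearIndependent_iff.1 hli c h0 j
  have hmem : ∑ j, c j • G j ∈ Algebra.adjoin C S :=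
    Subalgebra.sum_mem _ fun j _ => Subalgebra.smul_mem _ (hG j) _
  obtain ⟨s, hs⟩ := exists_retraction S hS _ hsum hmem
  apply hs
  have h1 : (⟨∑ j, c j • G j, hmem⟩ : Algebra.adjoin C S) = ∑ j, c j • ⟨G j, hG j⟩ := by
    apply Subtype.ext
    simp
  rw [h1, map_sum]
  simp only [map_smul, smul_eq_mul]
  exact hc s

theorem power_relation [IsAlgClosed C] (S : Set Ω) (hS : S.Finite) {m : ℕ} (G : Fin m → Ω)
    (hG : ∀ j, G j ∈ Algebra.adjoin ℤ S) (hli : LinearIndependent C G) (T₀ : Set C)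
    (hT₀ : T₀.Finite) :
    ∃ T : Set C, T₀ ⊆ T ∧ T.Finite ∧ ∀ p : ℕ, p.Prime → ∀ c : Fin m → C,
      (∀ j, c j ∈ Algebra.adjoin ℤ T) →
      (∃ b ∈ Algebra.adjoin ℤ S, ∑ j, algebraMap C Ω (c j) * G j ^ p = p * b) →
      ∀ j, ∃ a ∈ Algebra.adjoin ℤ T, c j = p * a := by
  obtain ⟨ev, hev⟩ := exists_points S hS G (fun j => adjoin_int_le S _ (hG j)) hli
  set Δ := (Matrix.of fun i j => ev i ⟨G j, adjoin_int_le S _ (hG j)⟩).det with hΔ
  let T : Set C := T₀ ∪ (Set.range fun q : Fin m × S => ev q.1 ⟨q.2, Algebra.subset_adjoin q.2.2⟩)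
    ∪ {Δ⁻¹}
  have hTfin : T.Finite := by
    haveI : Finite S := hS.to_subtype
    exact (hT₀.union (Set.finite_range _)).union (Set.finite_singleton _)
  refine ⟨T, fun x hx => Or.inl (Or.inl hx), hTfin, ?_⟩
  intro p hp c hc hb j
  obtain ⟨b, hb, hsum⟩ := hb
  have hevmem : ∀ i (x : Ω) (hx : x ∈ Algebra.adjoin ℤ S),
      ev i ⟨x, adjoin_int_le S x hx⟩ ∈ Algebra.adjoin ℤ T := by
    intro i x hx
    refine map_mem_adjoin S (ev i) T ?_ x hx
    intro y hy
    exact Algebra.subset_adjoin (Or.inl (Or.inr ⟨(i, ⟨y, hy⟩), rfl⟩))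
  -- matrices over the subring
  let M : Matrix (Fin m) (Fin m) (Algebra.adjoin ℤ T) := Matrix.of fun i j =>
    ⟨ev i ⟨G j, adjoin_int_le S _ (hG j)⟩, hevmem i _ (hG j)⟩
  let c' : Fin m → Algebra.adjoin ℤ T := fun j => ⟨c j, hc j⟩
  let b' : Fin m → Algebra.adjoin ℤ T := fun i => ⟨ev i ⟨b, adjoin_int_le S _ hb⟩, hevmem i _ hb⟩
  let Mp : Matrix (Fin m) (Fin m) (Algebra.adjoin ℤ T) := Matrix.of fun i j => (M i j) ^ p
  have hMp : Mp.mulVec c' = (p : Algebra.adjoin ℤ T) • b' := by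
    ext i
    have h1 : (⟨∑ j, algebraMap C Ω (c j) * G j ^ p, by
        rw [hsum]
        exact Subalgebra.mul_mem _ (Subalgebra.natCast_mem _ p) (adjoin_int_le S _ hb)⟩ :
        Algebra.adjoin C S) = (p : Algebra.adjoin C S) * ⟨b, adjoin_int_le S _ hb⟩ := by
      apply Subtype.ext
      simpa using hsum
    have h2 : (⟨∑ j, algebraMap C Ω (c j) * G j ^ p, by
        rw [hsum]
        exact Subalgebra.mul_mem _ (Subalgebra.natCast_mem _ p) (adjoin_int_le S _ hb)⟩ :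
        Algebra.adjoin C S) = ∑ j, c j • (⟨G j, adjoin_int_le S _ (hG j)⟩ : Algebra.adjoin C S) ^ p
        := by
      apply Subtype.ext
      simp [Algebra.smul_def]
    have h3 := congrArg (ev i) (h2.symm.trans h1)
    rw [map_sum, map_mul, map_natCast] at h3
    simp only [map_smul, map_pow, smul_eq_mul] at h3
    simp only [Matrix.mulVec, dotProduct, Mp, M, c', b', Matrix.of_apply, Pi.smul_apply,
      smul_eq_mul]
    push_cast
    rw [← h3]
    exact Finset.sum_congr rfl fun j _ => mul_comm _ _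
  have hdetΔ : ((M.det : Algebra.adjoin ℤ T) : C) = Δ := by
    have := RingHom.map_det ((Algebra.adjoin ℤ T).val : Algebra.adjoin ℤ T →+* C) M
    refine this.trans ?_
    rw [hΔ]
    congr 1
  obtain ⟨a, ha⟩ := det_pow_prime M p hp
  have hcram : Mp.det • c' = (p : Algebra.adjoin ℤ T) • (Mp.adjugate.mulVec b') := by
    rw [← Matrix.mulVec_smul, ← hMp, Matrix.mulVec_mulVec, Matrix.adjugate_mul,
      Matrix.smul_mulVec, Matrix.one_mulVec]
  have hj := congrFun hcram j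
  simp only [Pi.smul_apply, smul_eq_mul] at hj
  have ha' : Mp.det = M.det ^ p + p * a := ha
  rw [ha'] at hj
  let D' : Algebra.adjoin ℤ T := ⟨Δ⁻¹, Algebra.subset_adjoin (Or.inr rfl)⟩
  have hD' : D' * M.det = 1 := by
    apply Subtype.ext
    push_cast
    rw [hdetΔ]
    exact inv_mul_cancel₀ hev
  have hfin : c' j = p * (D' ^ p * ((Mp.adjugate.mulVec b') j - a * c' j)) := by
    have h1 : D' ^ p * M.det ^ p = 1 := by rw [← mul_pow, hD', one_pow]
    linear_combination (D' ^ p) * hj - (c' j) * h1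
  refine ⟨_, (D' ^ p * ((Mp.adjugate.mulVec b') j - a * c' j)).2, ?_⟩
  have := congrArg Subtype.val hfin
  simpa using this

end Pool.Agent.Lib.MP_1e09a3_nt
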